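import Pool.Agent.H49.KI.Ctx

/-!
# Holomorphic thickening of discs: basic definitions and API

* `HA S E`: the Banach space of functions `S → E` which are continuous on the compact set `S ⊆ ℂ` and
  holomorphic in the interior of `S`; for `g : HA S E` the value at `z` is `ev g z` (`0` outside `S`).
* `Fib S r q`: `q z y` is continuous on `S × ball 0 r`, holomorphic in `y`, and jointly holomorphic
  over the interior of `S`.
* `ThickOn S f r Φ`: `Φ` is a holomorphic thickening of `f` over `S`.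
* `lo S ω b`, `hi S ω a`, `mid S ω a b`: the parts of `S` where `re (ω z) ≤ b`, `a ≤ re (ω z)`, both.
-/

set_option autoImplicit false
set_option linter.unusedSectionVars false

namespace TH

open Complex Metric Set Filter Topology Manifold ContDiff
open KB (V)

section HA

variable {S : Set ℂ} {E : Type} [NormedAddCommGroup E] [NormedSpace ℂ E]

open Classical in
/-- extension by zero -/
noncomputable def ext0 (g : C(S, E)) (z : ℂ) : E := if h : z ∈ S then g ⟨z, h⟩ else 0

theorem ext0_of_mem (g : C(S, E)) {z : ℂ} (h : z ∈ S) : ext0 g z = g ⟨z, h⟩ := by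
  unfold ext0
  rw [dif_pos h]

theorem ext0_of_not_mem (g : C(S, E)) {z : ℂ} (h : z ∉ S) : ext0 g z = 0 := by
  unfold ext0
  rw [dif_neg h]

theorem ext0_add (g h : C(S, E)) : ext0 (g + h) = ext0 g + ext0 h := by
  funext z
  by_cases hz : z ∈ S
  · simp [ext0_of_mem _ hz]
  · simp [ext0_of_not_mem _ hz]

theorem ext0_smul (c : ℂ) (g : C(S, E)) : ext0 (c • g) = c • ext0 g := by
  funext z
  by_cases hz : z ∈ S
  · simp [ext0_of_mem _ hz]
  · simp [ext0_of_not_mem _ hz]

theorem ext0_zero : ext0 (0 : C(S, E)) = 0 := by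
  funext z
  by_cases hz : z ∈ S
  · simp [ext0_of_mem _ hz]
  · simp [ext0_of_not_mem _ hz]

variable (S E) in
/-- the space of functions on `S` which are continuous, and holomorphic in the interior of `S` -/
noncomputable def HA : Submodule ℂ C(S, E) where
  carrier := {g | DifferentiableOn ℂ (ext0 g) (interior S)}
  add_mem' := by
    intro g h hg hh
    simp only [mem_ofPred_eq] at *
    rw [ext0_add]
    exact hg.add hh
  zero_mem' := by
    simp only [mem_ofPred_eq]
    rw [ext0_zero]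
    exact differentiableOn_const (0 : E)
  smul_mem' := by
    intro c g hg
    simp only [mem_ofPred_eq] at *
    rw [ext0_smul]
    exact hg.const_smul c

/-- the value of `g : HA S E` at `z` (`0` outside `S`) -/
noncomputable def ev (g : HA S E) (z : ℂ) : E := ext0 g.1 z

theorem ev_of_mem (g : HA S E) {z : ℂ} (h : z ∈ S) : ev g z = g.1 ⟨z, h⟩ := ext0_of_mem _ h

theorem ev_of_not_mem (g : HA S E) {z : ℂ} (h : z ∉ S) : ev g z = 0 := ext0_of_not_mem _ h

theorem ev_differentiableOn (g : HA S E) : DifferentiableOn ℂ (ev g) (interior S) := g.2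

theorem ev_differentiableAt (g : HA S E) {z : ℂ} (hz : z ∈ interior S) :
    DifferentiableAt ℂ (ev g) z :=
  (ev_differentiableOn g).differentiableAt (isOpen_interior.mem_nhds hz)

theorem ev_continuousOn (g : HA S E) : ContinuousOn (ev g) S := by
  rw [continuousOn_iff_continuous_domRestrict]
  have : S.domRestrict (ev g) = g.1 := by
    funext z
    rw [Set.domRestrict_apply]
    exact ev_of_mem g z.2
  rw [this]
  exact g.1.continuous

@[simp] theorem ev_add (g h : HA S E) (z : ℂ) : ev (g + h) z = ev g z + ev h z := by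
  unfold ev
  rw [Submodule.coe_add, ext0_add]
  rfl

@[simp] theorem ev_smul (c : ℂ) (g : HA S E) (z : ℂ) : ev (c • g) z = c • ev g z := by
  unfold ev
  rw [Submodule.coe_smul, ext0_smul]
  rfl

@[simp] theorem ev_zero (z : ℂ) : ev (0 : HA S E) z = 0 := by
  unfold ev
  rw [Submodule.coe_zero, ext0_zero]
  rfl

@[simp] theorem ev_neg (g : HA S E) (z : ℂ) : ev (-g) z = -ev g z := by
  have h := ev_smul (-1 : ℂ) g z
  have h2 : (-1 : ℂ) • g = -g := neg_one_smul ℂ g
  rw [h2, neg_smul, one_smul] at h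
  exact h

@[simp] theorem ev_sub (g h : HA S E) (z : ℂ) : ev (g - h) z = ev g z - ev h z := by
  rw [sub_eq_add_neg, sub_eq_add_neg, ev_add, ev_neg]

theorem HA_ext {g h : HA S E} (H : ∀ z ∈ S, ev g z = ev h z) : g = h := by
  apply Subtype.ext
  ext z
  have := H z z.2
  rw [ev_of_mem g z.2, ev_of_mem h z.2] at this
  exact this

open Classical in
/-- the element of `HA S E` given by the function `f` -/
noncomputable def mkHA (f : ℂ → E) (hc : ContinuousOn f S) (hd : DifferentiableOn ℂ f (interior S)) :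
    HA S E :=
  ⟨⟨S.domRestrict f, continuousOn_iff_continuous_domRestrict.1 hc⟩, by
    show DifferentiableOn ℂ (ext0 _) (interior S)
    refine hd.congr ?_
    intro z hz
    rw [ext0_of_mem _ (interior_subset hz)]
    rfl⟩

theorem ev_mkHA {f : ℂ → E} (hc : ContinuousOn f S) (hd : DifferentiableOn ℂ f (interior S))
    {z : ℂ} (hz : z ∈ S) : ev (mkHA f hc hd) z = f z := by
  rw [ev_of_mem _ hz]
  rfl

theorem exists_HA {f : ℂ → E} (hc : ContinuousOn f S) (hd : DifferentiableOn ℂ f (interior S)) :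
    ∃ g : HA S E, ∀ z ∈ S, ev g z = f z := ⟨mkHA f hc hd, fun _ hz => ev_mkHA hc hd hz⟩

variable [CompactSpace S]

theorem norm_ev_le (g : HA S E) (z : ℂ) : ‖ev g z‖ ≤ ‖g‖ := by
  by_cases hz : z ∈ S
  · rw [ev_of_mem g hz]
    exact ContinuousMap.norm_coe_le_norm g.1 ⟨z, hz⟩
  · rw [ev_of_not_mem g hz, norm_zero]
    exact norm_nonneg _

theorem norm_le_of {g : HA S E} {K : ℝ} (hK : 0 ≤ K) (h : ∀ z ∈ S, ‖ev g z‖ ≤ K) : ‖g‖ ≤ K := by
  show ‖g.1‖ ≤ K
  rw [ContinuousMap.norm_le _ hK]
  intro z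
  have := h z z.2
  rwa [ev_of_mem g z.2] at this

theorem norm_lt_of {g : HA S E} {K : ℝ} (hK : 0 < K) (h : ∀ z ∈ S, ‖ev g z‖ < K) : ‖g‖ < K := by
  show ‖g.1‖ < K
  rw [ContinuousMap.norm_lt_iff _ hK]
  intro z
  have := h z z.2
  rwa [ev_of_mem g z.2] at this

/-- `HA S E` is closed in `C(S, E)`: uniform limits of holomorphic functions are holomorphic -/
theorem isClosed_HA [CompleteSpace E] : IsClosed (HA S E : Set C(S, E)) := by
  rw [← isSeqClosed_iff_isClosed]
  intro g g₀ hg hlim
  show DifferentiableOn ℂ (ext0 g₀) (interior S)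
  have hU : TendstoUniformlyOn (fun k => ext0 (g k)) (ext0 g₀) atTop (interior S) := by
    rw [Metric.tendstoUniformlyOn_iff]
    intro ε hε
    have h1 := (tendsto_iff_dist_tendsto_zero.1 hlim).eventually (gt_mem_nhds hε)
    filter_upwards [h1] with k hk z hz
    rw [ext0_of_mem _ (interior_subset hz), ext0_of_mem _ (interior_subset hz), dist_comm]
    exact lt_of_le_of_lt (ContinuousMap.dist_apply_le_dist _) hk
  exact hU.tendstoLocallyUniformlyOn.differentiableOn (Eventually.of_forall fun k => hg k)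
    isOpen_interior

instance [CompleteSpace E] : CompleteSpace (HA S E) := isClosed_HA.completeSpace_coe

/-- evaluation at `z` as a continuous linear map -/
noncomputable def evL (z : ℂ) : HA S E →L[ℂ] E :=
  LinearMap.mkContinuous
    { toFun := fun g => ev g z
      map_add' := fun g h => ev_add g h z
      map_smul' := fun c g => ev_smul c g z } 1 (by
    intro g
    rw [one_mul]
    exact norm_ev_le g z)

@[simp] theorem evL_apply (z : ℂ) (g : HA S E) : evL z g = ev g z := rfl

/-- the constant functions -/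
noncomputable def cst : E →L[ℂ] HA S E :=
  LinearMap.mkContinuous
    { toFun := fun v => mkHA (fun _ => v) continuousOn_const (differentiableOn_const v)
      map_add' := by
        intro v w
        apply HA_ext
        intro z hz
        rw [ev_add, ev_mkHA _ _ hz, ev_mkHA _ _ hz, ev_mkHA _ _ hz]
      map_smul' := by
        intro c v
        apply HA_ext
        intro z hz
        rw [RingHom.id_apply, ev_smul, ev_mkHA _ _ hz, ev_mkHA _ _ hz] } 1 (by
    intro v
    rw [one_mul]
    apply norm_le_of (norm_nonneg _)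
    intro z hz
    show ‖ev (mkHA (fun _ => v) continuousOn_const (differentiableOn_const v)) z‖ ≤ ‖v‖
    rw [ev_mkHA _ _ hz])

theorem ev_cst (v : E) {z : ℂ} (hz : z ∈ S) : ev (cst (S := S) v) z = v :=
  ev_mkHA continuousOn_const (differentiableOn_const v) hz

/-- a linear, bounded operation on functions gives a continuous linear map -/
theorem exists_CLM {S' : Set ℂ} [CompactSpace S'] {E' : Type} [NormedAddCommGroup E']
    [NormedSpace ℂ E'] (T : HA S E → ℂ → E')
    (hc : ∀ g, ContinuousOn (T g) S') (hd : ∀ g, DifferentiableOn ℂ (T g) (interior S'))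
    (hadd : ∀ g h, ∀ z ∈ S', T (g + h) z = T g z + T h z)
    (hsmul : ∀ (c : ℂ) g, ∀ z ∈ S', T (c • g) z = c • T g z)
    {K : ℝ} (hb : ∀ g, ∀ z ∈ S', ‖T g z‖ ≤ K * ‖g‖) :
    ∃ L : HA S E →L[ℂ] HA S' E', ∀ g, ∀ z ∈ S', ev (L g) z = T g z := by
  refine ⟨LinearMap.mkContinuous
    { toFun := fun g => mkHA (T g) (hc g) (hd g)
      map_add' := ?_
      map_smul' := ?_ } |K| ?_, ?_⟩
  · intro g h
    apply HA_ext
    intro z hz
    rw [ev_add, ev_mkHA (hc _) (hd _) hz, ev_mkHA (hc _) (hd _) hz, ev_mkHA (hc _) (hd _) hz,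
      hadd g h z hz]
  · intro c g
    apply HA_ext
    intro z hz
    rw [RingHom.id_apply, ev_smul, ev_mkHA (hc _) (hd _) hz, ev_mkHA (hc _) (hd _) hz,
      hsmul c g z hz]
  · intro g
    apply norm_le_of (by positivity)
    intro z hz
    show ‖ev (mkHA (T g) (hc g) (hd g)) z‖ ≤ _
    rw [ev_mkHA (hc g) (hd g) hz]
    refine (hb g z hz).trans ?_
    exact mul_le_mul_of_nonneg_right (le_abs_self K) (norm_nonneg _)
  · intro g z hz
    exact ev_mkHA (hc g) (hd g) hz

/-- restriction to a smaller set -/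
theorem exists_res {S' : Set ℂ} [CompactSpace S'] (h : S' ⊆ S) :
    ∃ L : HA S E →L[ℂ] HA S' E, ∀ g, ∀ z ∈ S', ev (L g) z = ev g z :=
  exists_CLM (K := 1) (fun g => ev g) (fun g => (ev_continuousOn g).mono h)
    (fun g => (ev_differentiableOn g).mono (interior_mono h)) (fun g h' z _ => ev_add g h' z)
    (fun c g z _ => ev_smul c g z) (fun g z _ => by rw [one_mul]; exact norm_ev_le g z)

end HA

section Fib

variable {n : ℕ} {E : Type} [NormedAddCommGroup E] [NormedSpace ℂ E]

/-- `q z y` is continuous on `S × ball 0 r`, holomorphic in `y`, and jointly holomorphic over the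
interior of `S`. -/
structure Fib (S : Set ℂ) (r : ℝ) (q : ℂ → V n → E) : Prop where
  cont : ContinuousOn (fun p : ℂ × V n => q p.1 p.2) (S ×ˢ ball 0 r)
  holo : ∀ z ∈ interior S, ∀ y ∈ ball (0 : V n) r,
    DifferentiableAt ℂ (fun p : ℂ × V n => q p.1 p.2) (z, y)
  holy : ∀ z ∈ S, ∀ y ∈ ball (0 : V n) r, DifferentiableAt ℂ (q z) y

theorem Fib.mono {S : Set ℂ} {r r' : ℝ} {q : ℂ → V n → E} (h : Fib S r q) (hr : r' ≤ r) :
    Fib S r' q :=
  ⟨h.cont.mono (prod_mono Subset.rfl (ball_subset_ball hr)),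
    fun z hz y hy => h.holo z hz y (ball_subset_ball hr hy),
    fun z hz y hy => h.holy z hz y (ball_subset_ball hr hy)⟩

end Fib

section Thick

variable {n : ℕ} {X : Type} [MetricSpace X] [ChartedSpace (V n) X]

/-- `Φ` is a holomorphic thickening of `f` over `S`. -/
structure ThickOn (S : Set ℂ) (f : ℂ → X) (r : ℝ) (Φ : ℂ → V n → X) : Prop where
  pos : 0 < r
  zero : ∀ z ∈ S, Φ z 0 = f z
  cont : ContinuousOn (fun q : ℂ × V n => Φ q.1 q.2) (S ×ˢ ball 0 r)
  holo : ∀ z ∈ interior S, ∀ y ∈ ball (0 : V n) r, ∀ e ∈ atlas (V n) X, Φ z y ∈ e.source →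
    DifferentiableAt ℂ (fun q : ℂ × V n => e (Φ q.1 q.2)) (z, y)
  holy : ∀ z ∈ S, ∀ y ∈ ball (0 : V n) r, ∀ e ∈ atlas (V n) X,
    Φ z y ∈ e.source → DifferentiableAt ℂ (fun y' => e (Φ z y')) y
  inv : ∀ z ∈ S, ∀ e ∈ atlas (V n) X, f z ∈ e.source →
    Function.Bijective (fderiv ℂ (fun y' => e (Φ z y')) 0)

theorem ThickOn.mono {S S' : Set ℂ} {f : ℂ → X} {r r' : ℝ} {Φ : ℂ → V n → X}
    (h : ThickOn S f r Φ) (hS : S' ⊆ S) (h0 : 0 < r') (hr : r' ≤ r) : ThickOn S' f r' Φ where
  pos := h0
  zero := fun z hz => h.zero z (hS hz)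
  cont := h.cont.mono (prod_mono hS (ball_subset_ball hr))
  holo := fun z hz y hy => h.holo z (interior_mono hS hz) y (ball_subset_ball hr hy)
  holy := fun z hz y hy => h.holy z (hS hz) y (ball_subset_ball hr hy)
  inv := fun z hz => h.inv z (hS hz)

theorem ThickOn.thick {f : ℂ → X} {r : ℝ} {Φ : ℂ → V n → X}
    (h : ThickOn (closedBall (0 : ℂ) 1) f r Φ) : KI.Thick f r Φ where
  pos := h.pos
  zero := h.zero
  cont := h.cont
  holo := fun z hz => h.holo z (by rwa [interior_closedBall (0 : ℂ) one_ne_zero])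
  holy := h.holy
  inv := h.inv

end Thick

/-- part of `S` below `b` -/
def lo (S : Set ℂ) (w : ℂ) (b : ℝ) : Set ℂ := {z ∈ S | (w * z).re ≤ b}

/-- part of `S` above `a` -/
def hi (S : Set ℂ) (w : ℂ) (a : ℝ) : Set ℂ := {z ∈ S | a ≤ (w * z).re}

/-- part of `S` between `a` and `b` -/
def mid (S : Set ℂ) (w : ℂ) (a b : ℝ) : Set ℂ := {z ∈ S | a ≤ (w * z).re ∧ (w * z).re ≤ b}

end TH
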