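import Pool.Agent.H94.TH.IVH

/-!
# CAO: multiplicative splitting near `1`

PROOF. `res : HA A _ →L HA C _` from `exists_res hCA`. Given `N` let `m = N - 1` (`cst 1`), `‖m‖ < δ`
(`norm_lt_of`), `mul m g` = the element `z ↦ ev m z * ev g z` of `HA C` (`exists_CLM`: for fixed `m` it is a
continuous linear map `R_m : HA C _ →L HA C _` of norm `≤ ‖m‖`). `K = LA ∘ R_m ∘ res : HA A _ →L HA A _` has norm
`≤ ‖LA‖ ‖m‖ ‖res‖ ≤ 1/2` for `δ` small, so `a = K a + LA m` has a solution (`1 - K` is a unit: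
`isUnit_one_sub_of_norm_lt_one`/`Units.oneSub`; or `ContractingWith`), with `‖a‖ ≤ 2 ‖LA‖ ‖m‖ < 1`.
`b = LB (m + R_m (res a))`, `‖b‖ < 1` for `δ` small. `α = 1 + a`, `β = 1 + b` (`cst 1 + a`): invertible
(`isUnit_one_sub_of_norm_lt_one`, `norm_ev_le`). On `C`: `a = LA (m + m a)`, so
`b - a = m + m a`, `1 + b = (1 + m)(1 + a)`. -/

set_option autoImplicit false

namespace TH

open Complex Metric Set Filter Topology

variable {E : Type} [NormedAddCommGroup E] [NormedSpace ℂ E] [CompleteSpace E]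

theorem split_near {A B C : Set ℂ} [CompactSpace A] [CompactSpace B] [CompactSpace C]
    (hCA : C ⊆ A) (hCB : C ⊆ B)
    (LA : HA C (E →L[ℂ] E) →L[ℂ] HA A (E →L[ℂ] E)) (LB : HA C (E →L[ℂ] E) →L[ℂ] HA B (E →L[ℂ] E))
    (hL : ∀ h, ∀ z ∈ C, ev (LB h) z - ev (LA h) z = ev h z) :
    ∃ δ > 0, ∀ N : HA C (E →L[ℂ] E), (∀ z ∈ C, ‖ev N z - 1‖ < δ) →
      ∃ (α : HA A (E →L[ℂ] E)) (β : HA B (E →L[ℂ] E)), (∀ z ∈ A, IsUnit (ev α z)) ∧
        (∀ z ∈ B, IsUnit (ev β z)) ∧ ∀ z ∈ C, ev β z = ev N z * ev α z := by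
  obtain ⟨res, hres⟩ := exists_res (S := A) (S' := C) (E := E →L[ℂ] E) hCA
  have hA0 := norm_nonneg LA
  have hB0 := norm_nonneg LB
  have hr0 := norm_nonneg res
  obtain ⟨D, hD⟩ : ∃ D : ℝ, D = 4 * (1 + ‖LA‖) * (1 + ‖LB‖) * (1 + ‖res‖) := ⟨_, rfl⟩
  have hDpos : 0 < D := by rw [hD]; positivity
  obtain ⟨δ, hδ⟩ : ∃ δ : ℝ, δ = D⁻¹ := ⟨_, rfl⟩
  have hδ0 : 0 < δ := by rw [hδ]; positivity
  have hδD : δ * D = 1 := by rw [hδ, inv_mul_cancel₀ hDpos.ne']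
  have e1 : 4 * (‖LA‖ * δ * ‖res‖) ≤ 1 := by
    rw [← hδD, hD]
    have : 4 * (‖LA‖ * δ * ‖res‖) = δ * (4 * ‖LA‖ * 1 * ‖res‖) := by ring
    rw [this]
    gcongr <;> linarith
  have e2 : 4 * (‖LA‖ * δ) ≤ 1 := by
    rw [← hδD, hD]
    have : 4 * (‖LA‖ * δ) = δ * (4 * ‖LA‖ * 1 * 1) := by ring
    rw [this]
    gcongr <;> linarith
  have e3 : 4 * (‖LB‖ * (δ * (1 + ‖res‖))) ≤ 1 := by
    calc 4 * (‖LB‖ * (δ * (1 + ‖res‖))) = δ * (4 * 1 * ‖LB‖ * (1 + ‖res‖)) := by ring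
      _ ≤ δ * (4 * (1 + ‖LA‖) * (1 + ‖LB‖) * (1 + ‖res‖)) := by gcongr <;> linarith
      _ = 1 := by rw [← hD, hδD]
  refine ⟨δ, hδ0, ?_⟩
  intro N hN
  obtain ⟨m, hm⟩ : ∃ m : HA C (E →L[ℂ] E), m = N - cst 1 := ⟨_, rfl⟩
  have hmev : ∀ z ∈ C, ev m z = ev N z - 1 := by
    intro z hz
    rw [hm, ev_sub, ev_cst _ hz]
  have hmn : ‖m‖ < δ := by
    refine norm_lt_of hδ0 fun z hz => ?_
    rw [hmev z hz]
    exact hN z hz
  obtain ⟨R, hR⟩ := exists_CLM (S := C) (S' := C) (E := E →L[ℂ] E) (E' := E →L[ℂ] E) (K := ‖m‖)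
    (fun g z => ev m z * ev g z)
    (fun g => (ev_continuousOn m).mul (ev_continuousOn g))
    (fun g => (ev_differentiableOn m).mul (ev_differentiableOn g))
    (fun g h z _ => by rw [ev_add, mul_add])
    (fun c g z _ => by rw [ev_smul, mul_smul_comm])
    (fun g z _ => (norm_mul_le _ _).trans
      (mul_le_mul (norm_ev_le m z) (norm_ev_le g z) (norm_nonneg _) (norm_nonneg _)))
  have hRn : ∀ g, ‖R g‖ ≤ δ * ‖g‖ := by
    intro g
    refine norm_le_of (by positivity) fun z hz => ?_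
    rw [hR g z hz]
    exact (norm_mul_le _ _).trans
      (mul_le_mul ((norm_ev_le m z).trans hmn.le) (norm_ev_le g z) (norm_nonneg _) hδ0.le)
  obtain ⟨K, hK⟩ : ∃ K : HA A (E →L[ℂ] E) →L[ℂ] HA A (E →L[ℂ] E), K = LA.comp (R.comp res) :=
    ⟨_, rfl⟩
  have hKa : ∀ g, K g = LA (R (res g)) := by
    intro g
    rw [hK]
    rfl
  have hKn : ∀ g, ‖K g‖ ≤ (1 / 4) * ‖g‖ := by
    intro g
    rw [hKa]
    calc ‖LA (R (res g))‖ ≤ ‖LA‖ * (δ * (‖res‖ * ‖g‖)) := by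
          refine (LA.le_opNorm _).trans ?_
          refine mul_le_mul_of_nonneg_left ?_ hA0
          refine (hRn _).trans ?_
          exact mul_le_mul_of_nonneg_left (res.le_opNorm _) hδ0.le
      _ = (‖LA‖ * δ * ‖res‖) * ‖g‖ := by ring
      _ ≤ (1 / 4) * ‖g‖ := by
          refine mul_le_mul_of_nonneg_right ?_ (norm_nonneg _)
          linarith
  have hK1 : ‖K‖ < 1 := by
    have : ‖K‖ ≤ 1 / 4 := K.opNorm_le_bound (by norm_num) hKn
    linarith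
  obtain ⟨u, hu⟩ := isUnit_one_sub_of_norm_lt_one
    (R := HA A (E →L[ℂ] E) →L[ℂ] HA A (E →L[ℂ] E)) hK1
  obtain ⟨a, ha⟩ : ∃ a, a = (↑u⁻¹ : HA A (E →L[ℂ] E) →L[ℂ] HA A (E →L[ℂ] E)) (LA m) := ⟨_, rfl⟩
  have ha1 : a - K a = LA m := by
    have h1 : ((u : HA A (E →L[ℂ] E) →L[ℂ] HA A (E →L[ℂ] E)) * (↑u⁻¹)) (LA m) = LA m := by
      rw [u.mul_inv]
      rfl
    rw [hu] at h1
    have h2 : ((1 - K) * (↑u⁻¹ : HA A (E →L[ℂ] E) →L[ℂ] HA A (E →L[ℂ] E))) (LA m) = a - K a := by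
      rw [ha]
      rfl
    rw [← h2]
    exact h1
  have ha2 : a = LA (m + R (res a)) := by
    rw [map_add, ← hKa, ← ha1]
    abel
  have han : ‖a‖ < 1 := by
    have h1 : ‖a‖ ≤ ‖LA m‖ + ‖K a‖ := by
      have : a = LA m + K a := by rw [← ha1]; abel
      calc ‖a‖ = ‖LA m + K a‖ := by rw [← this]
        _ ≤ _ := norm_add_le _ _
    have h2 : ‖LA m‖ ≤ ‖LA‖ * δ :=
      (LA.le_opNorm _).trans (mul_le_mul_of_nonneg_left hmn.le hA0)
    have h3 := hKn a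
    linarith
  obtain ⟨b, hb⟩ : ∃ b, b = LB (m + R (res a)) := ⟨_, rfl⟩
  have hbn : ‖b‖ < 1 := by
    have h1 : ‖m + R (res a)‖ ≤ δ * (1 + ‖res‖) := by
      have h2 : ‖R (res a)‖ ≤ δ * ‖res‖ := by
        refine (hRn _).trans ?_
        refine mul_le_mul_of_nonneg_left ?_ hδ0.le
        refine (res.le_opNorm _).trans ?_
        have := mul_le_mul_of_nonneg_left han.le hr0
        linarith
      refine (norm_add_le _ _).trans ?_
      linarith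
    rw [hb]
    have h3 : ‖LB (m + R (res a))‖ ≤ ‖LB‖ * (δ * (1 + ‖res‖)) :=
      (LB.le_opNorm _).trans (mul_le_mul_of_nonneg_left h1 hB0)
    linarith
  have hunit : ∀ t : E →L[ℂ] E, ‖t‖ < 1 → IsUnit (1 + t) := by
    intro t ht
    have h1 := isUnit_one_sub_of_norm_lt_one (show ‖-t‖ < 1 by rwa [norm_neg])
    rwa [sub_neg_eq_add] at h1
  refine ⟨cst 1 + a, cst 1 + b, ?_, ?_, ?_⟩
  · intro z hz
    rw [ev_add, ev_cst _ hz]
    exact hunit _ (lt_of_le_of_lt (norm_ev_le a z) han)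
  · intro z hz
    rw [ev_add, ev_cst _ hz]
    exact hunit _ (lt_of_le_of_lt (norm_ev_le b z) hbn)
  · intro z hz
    have h1 := hL (m + R (res a)) z hz
    rw [← hb, ← ha2, ev_add, hR _ z hz, hres a z hz, hmev z hz] at h1
    rw [ev_add, ev_add, ev_cst _ (hCB hz), ev_cst _ (hCA hz)]
    have h2 : ev b z = ev a z + (ev N z - 1 + (ev N z - 1) * ev a z) := by
      rw [← h1]
      abel
    rw [h2]
    noncomm_ring

end TH
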