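import Pool.Agent.H94.TH.SPH

/-!
# SPB: the splitting operators

PROOF. Scalar case: `exists_CLM` for `T h z = -spl S w a b 0 h z` (to `HA (lo S w b) ℂ`) and
`T h z = -spl S w a b 1 h z` (to `HA (hi S w a) ℂ`). Additivity and homogeneity: `cau_add`, `cau_smul` (with
`spl_phi_adm`), bounds: `cau_bound`, `spl_phi_adm` (for `σ = 1` also `‖ev h z‖ ≤ ‖h‖`).
On `C = mid S w a b`: `-spl 1 h + spl 0 h = h`.
`E` finite dimensional: basis `b i` of `E` (`Module.finBasis ℂ E`), coordinate functionals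
`c i : E →L[ℂ] ℂ` (`LinearMap.toContinuousLinearMap`), `LA h = ∑ i, (LA₀ (c i ∘ h)) • b i`: the maps
`HA C E →L HA C ℂ` (`h ↦ c i ∘ h`) and `HA A ℂ →L HA A E` (`g ↦ g • b i`) are obtained from `exists_CLM`. -/

set_option autoImplicit false

namespace TH

open Complex Metric Set Filter Topology MeasureTheory ContDiff

variable {S : Set ℂ} {w : ℂ} {a b : ℝ} [CompactSpace (mid S w a b)] [CompactSpace (lo S w b)]
  [CompactSpace (hi S w a)]

omit [CompactSpace (lo S w b)] [CompactSpace (hi S w a)] in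
theorem SPB_add (hS : IsCompact S) (σ : ℂ) (g h : HA (mid S w a b) ℂ) (z : ℂ) :
    spl S w a b σ (g + h) z = spl S w a b σ g z + spl S w a b σ h z := by
  obtain ⟨R, -, hR⟩ := hS.isBounded.subset_ball_lt 0 (0 : ℂ)
  obtain ⟨K₀, hK⟩ := spl_phi_adm (w := w) (a := a) (b := b) hS hR
  have h1 := cau_add (hK g).1 (hK h).1 z
  have h2 : (fun t => Pool.Agent.H51.Carpet.dbar (chi w a b) t * ev (g + h) t) =
      fun t => Pool.Agent.H51.Carpet.dbar (chi w a b) t * ev g t +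
        Pool.Agent.H51.Carpet.dbar (chi w a b) t * ev h t := by
    funext t
    rw [ev_add]
    ring
  unfold spl
  rw [h2, h1, ev_add]
  ring

omit [CompactSpace (mid S w a b)] [CompactSpace (lo S w b)] [CompactSpace (hi S w a)] in
theorem SPB_smul (σ c : ℂ) (h : HA (mid S w a b) ℂ) (z : ℂ) :
    spl S w a b σ (c • h) z = c * spl S w a b σ h z := by
  have h1 := cau_smul c (fun t => Pool.Agent.H51.Carpet.dbar (chi w a b) t * ev h t) z
  have h2 : (fun t => Pool.Agent.H51.Carpet.dbar (chi w a b) t * ev (c • h) t) =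
      fun t => c * (Pool.Agent.H51.Carpet.dbar (chi w a b) t * ev h t) := by
    funext t
    rw [ev_smul, smul_eq_mul]
    ring
  unfold spl
  rw [h2, h1, ev_smul, smul_eq_mul]
  ring

omit [CompactSpace (lo S w b)] [CompactSpace (hi S w a)] in
theorem SPB_bound (hS : IsCompact S) (σ : ℂ) : ∃ K : ℝ, ∀ (h : HA (mid S w a b) ℂ), ∀ z ∈ S,
    ‖spl S w a b σ h z‖ ≤ K * ‖h‖ := by
  obtain ⟨R, -, hR⟩ := hS.isBounded.subset_ball_lt 0 (0 : ℂ)
  obtain ⟨K₀, hK⟩ := spl_phi_adm (w := w) (a := a) (b := b) hS hR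
  obtain ⟨K₁, -, hK₁⟩ := cau_bound R
  refine ⟨K₀ + ‖σ‖ + K₁ * K₀, fun h z hz => ?_⟩
  have h1 := (hK h).2.2 z
  have h2 := hK₁ _ (hK h).1 _ (hK h).2.1 z (hR hz)
  have h3 : ‖σ * ev h z‖ ≤ ‖σ‖ * ‖h‖ := by
    rw [norm_mul]
    exact mul_le_mul_of_nonneg_left (norm_ev_le h z) (norm_nonneg _)
  unfold spl
  have h4 : (chi w a b z - σ) * ev h z - cau (fun t => Pool.Agent.H51.Carpet.dbar (chi w a b) t *
      ev h t) z = chi w a b z * ev h z - σ * ev h z -
      cau (fun t => Pool.Agent.H51.Carpet.dbar (chi w a b) t * ev h t) z := by ring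
  rw [h4]
  have h5 := norm_sub_le (chi w a b z * ev h z - σ * ev h z)
    (cau (fun t => Pool.Agent.H51.Carpet.dbar (chi w a b) t * ev h t) z)
  have h6 := norm_sub_le (chi w a b z * ev h z) (σ * ev h z)
  calc _ ≤ K₀ * ‖h‖ + ‖σ‖ * ‖h‖ + K₁ * (K₀ * ‖h‖) := by linarith
    _ = (K₀ + ‖σ‖ + K₁ * K₀) * ‖h‖ := by ring

omit [CompactSpace (lo S w b)] [CompactSpace (hi S w a)] in
theorem SPB_clm (hS : IsCompact S) (σ : ℂ) {T : Set ℂ} [CompactSpace T] (hT : T ⊆ S)
    (hc : ∀ h : HA (mid S w a b) ℂ, ContinuousOn (spl S w a b σ h) T)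
    (hd : ∀ h : HA (mid S w a b) ℂ, DifferentiableOn ℂ (spl S w a b σ h) (interior T)) :
    ∃ L : HA (mid S w a b) ℂ →L[ℂ] HA T ℂ, ∀ h, ∀ z ∈ T, ev (L h) z = -spl S w a b σ h z := by
  obtain ⟨K, hK⟩ := SPB_bound (w := w) (a := a) (b := b) hS σ
  refine exists_CLM (K := K) (fun h z => -spl S w a b σ h z) (fun h => (hc h).neg)
    (fun h => (hd h).neg) ?_ ?_ ?_
  · intro g h z _
    show -spl S w a b σ (g + h) z = -spl S w a b σ g z + -spl S w a b σ h z
    rw [SPB_add hS]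
    ring
  · intro c h z _
    show -spl S w a b σ (c • h) z = c • -spl S w a b σ h z
    rw [SPB_smul, smul_eq_mul]
    ring
  · intro h z hz
    show ‖-spl S w a b σ h z‖ ≤ K * ‖h‖
    rw [norm_neg]
    exact hK h z (hT hz)

theorem split_scalar (hS : IsCompact S) (hw : w ≠ 0) (hab : a < b) :
    ∃ (LA : HA (mid S w a b) ℂ →L[ℂ] HA (lo S w b) ℂ)
      (LB : HA (mid S w a b) ℂ →L[ℂ] HA (hi S w a) ℂ),
      ∀ h, ∀ z ∈ mid S w a b, ev (LB h) z - ev (LA h) z = ev h z := by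
  obtain ⟨LA, hLA⟩ := SPB_clm (w := w) (a := a) (b := b) hS 0 (T := lo S w b) (fun z hz => hz.1)
    (fun h => spl_cont_lo hS hab h) (fun h => spl_holo_lo hS hw hab h)
  obtain ⟨LB, hLB⟩ := SPB_clm (w := w) (a := a) (b := b) hS 1 (T := hi S w a) (fun z hz => hz.1)
    (fun h => spl_cont_hi hS hab h) (fun h => spl_holo_hi hS hw hab h)
  refine ⟨LA, LB, fun h z hz => ?_⟩
  rw [hLA h z ⟨hz.1, hz.2.2⟩, hLB h z ⟨hz.1, hz.2.1⟩]
  unfold spl
  ring

omit [CompactSpace (mid S w a b)] [CompactSpace (lo S w b)] [CompactSpace (hi S w a)] in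
theorem SPB_ev_sum {T : Set ℂ} [CompactSpace T] {E : Type} [NormedAddCommGroup E] [NormedSpace ℂ E]
    {ι : Type} (s : Finset ι) (f : ι → HA T E) (z : ℂ) :
    ev (∑ i ∈ s, f i) z = ∑ i ∈ s, ev (f i) z := by
  exact map_sum (evL (S := T) (E := E) z) f s

omit [CompactSpace (mid S w a b)] [CompactSpace (lo S w b)] [CompactSpace (hi S w a)] in
theorem SPB_coord {T : Set ℂ} [CompactSpace T] {E : Type} [NormedAddCommGroup E] [NormedSpace ℂ E]
    (c : E →L[ℂ] ℂ) : ∃ P : HA T E →L[ℂ] HA T ℂ, ∀ h, ∀ z ∈ T, ev (P h) z = c (ev h z) := by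
  refine exists_CLM (K := ‖c‖) (fun h z => c (ev h z))
    (fun h => c.continuous.comp_continuousOn (ev_continuousOn h))
    (fun h => c.differentiable.comp_differentiableOn (ev_differentiableOn h)) ?_ ?_ ?_
  · intro g h z _
    show c (ev (g + h) z) = c (ev g z) + c (ev h z)
    rw [ev_add, map_add]
  · intro k h z _
    show c (ev (k • h) z) = k • c (ev h z)
    rw [ev_smul, map_smul]
  · intro h z _
    exact (c.le_opNorm _).trans (mul_le_mul_of_nonneg_left (norm_ev_le h z) (norm_nonneg _))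

omit [CompactSpace (mid S w a b)] [CompactSpace (lo S w b)] [CompactSpace (hi S w a)] in
theorem SPB_vec {T : Set ℂ} [CompactSpace T] {E : Type} [NormedAddCommGroup E] [NormedSpace ℂ E]
    (v : E) : ∃ G : HA T ℂ →L[ℂ] HA T E, ∀ g, ∀ z ∈ T, ev (G g) z = ev g z • v := by
  refine exists_CLM (K := ‖v‖) (fun g z => ev g z • v)
    (fun g => (ev_continuousOn g).smul continuousOn_const)
    (fun g => (ev_differentiableOn g).smul (differentiableOn_const v)) ?_ ?_ ?_
  · intro g h z _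
    show ev (g + h) z • v = ev g z • v + ev h z • v
    rw [ev_add, add_smul]
  · intro k h z _
    show ev (k • h) z • v = k • (ev h z • v)
    rw [ev_smul, smul_smul, smul_eq_mul]
  · intro h z _
    show ‖ev h z • v‖ ≤ ‖v‖ * ‖h‖
    rw [norm_smul, mul_comm]
    exact mul_le_mul_of_nonneg_left (norm_ev_le h z) (norm_nonneg _)

theorem split_fin {E : Type} [NormedAddCommGroup E] [NormedSpace ℂ E] [FiniteDimensional ℂ E]
    (hS : IsCompact S) (hw : w ≠ 0) (hab : a < b) :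
    ∃ (LA : HA (mid S w a b) E →L[ℂ] HA (lo S w b) E)
      (LB : HA (mid S w a b) E →L[ℂ] HA (hi S w a) E),
      ∀ h, ∀ z ∈ mid S w a b, ev (LB h) z - ev (LA h) z = ev h z := by
  obtain ⟨LA, LB, hL⟩ := split_scalar (S := S) (w := w) (a := a) (b := b) hS hw hab
  let B := Module.finBasis ℂ E
  have hP := fun i => SPB_coord (T := mid S w a b) (LinearMap.toContinuousLinearMap (B.coord i))
  choose P hP using hP
  have hGA := fun i => SPB_vec (T := lo S w b) (B i)
  choose GA hGA using hGA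
  have hGB := fun i => SPB_vec (T := hi S w a) (B i)
  choose GB hGB using hGB
  refine ⟨∑ i, (GA i).comp (LA.comp (P i)), ∑ i, (GB i).comp (LB.comp (P i)), fun h z hz => ?_⟩
  have hlo : z ∈ lo S w b := ⟨hz.1, hz.2.2⟩
  have hhi : z ∈ hi S w a := ⟨hz.1, hz.2.1⟩
  have e1 : (∑ i, (GA i).comp (LA.comp (P i))) h = ∑ i, GA i (LA (P i h)) := by
    rw [sum_apply]
    rfl
  have e2 : (∑ i, (GB i).comp (LB.comp (P i))) h = ∑ i, GB i (LB (P i h)) := by
    rw [sum_apply]
    rfl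
  rw [e1, e2, SPB_ev_sum, SPB_ev_sum, ← Finset.sum_sub_distrib]
  have e3 : ∀ i, ev (GB i (LB (P i h))) z - ev (GA i (LA (P i h))) z = B.coord i (ev h z) • B i := by
    intro i
    rw [hGB i _ z hhi, hGA i _ z hlo, ← sub_smul, hL (P i h) z hz, hP i h z hz]
    rfl
  rw [Finset.sum_congr rfl fun i _ => e3 i]
  exact B.sum_repr (ev h z)

end TH
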