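import Pool.Agent.H94.TH.CAP
import Pool.Agent.H94.TH.CAO
import Pool.Agent.H94.TH.SPB

/-!
# CAF: Cartan's lemma

PROOF. `C = mid S w a b` is compact, convex (`GEO`). `LA`, `LB` from `split_fin` (with the finite dimensional
space `E →L[ℂ] E`), `δ` from `split_near` (`mid_sub_lo`). Let `B₀` bound `‖(ev M z)⁻¹‖` on `C` (`exists_inv`), and
`ε = min (1/(2 B₀)) (δ/(2 B₀ + 1))/2` or so. `P` from `approx_unit` with this `ε`. For `z ∈ C`:
`‖(P z)⁻¹‖ ≤ 2 B₀` (`P = M (1 - M⁻¹ (M - P))`, `‖M⁻¹ (M - P)‖ ≤ 1/2`), so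
`‖M z (P z)⁻¹ - 1‖ = ‖(M z - P z)(P z)⁻¹‖ < δ`. `N z = ev M z * Ring.inverse (P z)` is in `HA C` (`exists_HA`;
`differentiableAt_inverse`); `split_near` gives `α'`, `β` with `β = N α'`. `α z = Ring.inverse (P z) * ev α' z`
is in `HA A` and invertible, and `M α = N P P⁻¹ α' = N α' = β` on `C`. -/

set_option autoImplicit false

namespace TH

open Complex Metric Set Filter Topology

variable {E : Type} [NormedAddCommGroup E] [NormedSpace ℂ E] [FiniteDimensional ℂ E]

theorem cartan {S : Set ℂ} (hS : IsCompact S) (hconv : Convex ℝ S) {w : ℂ} (hw : w ≠ 0) {a b : ℝ}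
    (hab : a < b) (hi' : (interior (mid S w a b)).Nonempty)
    (M : HA (mid S w a b) (E →L[ℂ] E)) (hM : ∀ z ∈ mid S w a b, IsUnit (ev M z)) :
    ∃ (α : HA (lo S w b) (E →L[ℂ] E)) (β : HA (hi S w a) (E →L[ℂ] E)),
      (∀ z ∈ lo S w b, IsUnit (ev α z)) ∧ (∀ z ∈ hi S w a, IsUnit (ev β z)) ∧
        ∀ z ∈ mid S w a b, ev β z = ev M z * ev α z := by
  have hcomp : CompleteSpace E := FiniteDimensional.complete ℂ E
  have hCc : IsCompact (mid S w a b) := isCompact_mid hS
  have i1 : CompactSpace (mid S w a b) := isCompact_iff_compactSpace.1 hCc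
  have i2 : CompactSpace (lo S w b) := isCompact_iff_compactSpace.1 (isCompact_lo hS)
  have i3 : CompactSpace (hi S w a) := isCompact_iff_compactSpace.1 (isCompact_hi hS)
  obtain ⟨LA, LB, hL⟩ := split_fin (E := E →L[ℂ] E) hS hw hab
  obtain ⟨δ, hδ, hsp⟩ := split_near mid_sub_lo mid_sub_hi LA LB hL
  obtain ⟨M', hM'⟩ := exists_inv M hM
  obtain ⟨B, hB1, hB⟩ := CAP_bdd hCc (ev_continuousOn M')
  have hB0 : 0 < B := by linarith
  obtain ⟨P, hPd, hPu, hP⟩ := approx_unit hCc (convex_mid hconv) hi' M hM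
    (ε := min (1 / (2 * B)) (δ / (2 * B))) (by positivity)
  have hinvd : Differentiable ℂ (fun z => Ring.inverse (P z)) := fun z =>
    (differentiableAt_inverse (hPu z)).comp z (hPd z)
  have hPi : ∀ z ∈ mid S w a b, ‖Ring.inverse (P z)‖ ≤ 2 * B := by
    intro z hz
    have e1 : Ring.inverse (P z) = ev M' z + ev M' z * ((ev M z - P z) * Ring.inverse (P z)) := by
      rw [sub_mul, Ring.mul_inverse_cancel _ (hPu z), mul_sub, ← mul_assoc, (hM' z hz).2, one_mul, mul_one]
      abel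
    have h1 : ‖Ring.inverse (P z)‖ ≤ B + 1 / 2 * ‖Ring.inverse (P z)‖ := by
      conv_lhs => rw [e1]
      refine (norm_add_le _ _).trans (add_le_add (hB z hz) ?_)
      calc ‖ev M' z * ((ev M z - P z) * Ring.inverse (P z))‖
          ≤ ‖ev M' z‖ * (‖ev M z - P z‖ * ‖Ring.inverse (P z)‖) :=
            (norm_mul_le _ _).trans (mul_le_mul_of_nonneg_left (norm_mul_le _ _) (norm_nonneg _))
        _ ≤ B * (1 / (2 * B) * ‖Ring.inverse (P z)‖) := by
            refine mul_le_mul (hB z hz) ?_ (by positivity) hB0.le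
            exact mul_le_mul_of_nonneg_right ((hP z hz).le.trans (min_le_left _ _)) (norm_nonneg _)
        _ = 1 / 2 * ‖Ring.inverse (P z)‖ := by field_simp
    linarith
  obtain ⟨N, hN⟩ := exists_HA (S := mid S w a b) (f := fun z => ev M z * Ring.inverse (P z))
    ((ev_continuousOn M).mul hinvd.continuous.continuousOn)
    ((ev_differentiableOn M).mul hinvd.differentiableOn)
  have hN1 : ∀ z ∈ mid S w a b, ‖ev N z - 1‖ < δ := by
    intro z hz
    have e1 : ev N z - 1 = (ev M z - P z) * Ring.inverse (P z) := by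
      rw [hN z hz, sub_mul, Ring.mul_inverse_cancel _ (hPu z)]
    rw [e1]
    have h1 : ‖ev M z - P z‖ < δ / (2 * B) := (hP z hz).trans_le (min_le_right _ _)
    calc ‖(ev M z - P z) * Ring.inverse (P z)‖ ≤ ‖ev M z - P z‖ * ‖Ring.inverse (P z)‖ := norm_mul_le _ _
      _ ≤ ‖ev M z - P z‖ * (2 * B) := mul_le_mul_of_nonneg_left (hPi z hz) (norm_nonneg _)
      _ < δ / (2 * B) * (2 * B) := mul_lt_mul_of_pos_right h1 (by positivity)
      _ = δ := div_mul_cancel₀ _ (by positivity)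
  obtain ⟨α', β, hα', hβ, hNαβ⟩ := hsp N hN1
  obtain ⟨α, hα⟩ := exists_HA (S := lo S w b) (f := fun z => Ring.inverse (P z) * ev α' z)
    (hinvd.continuous.continuousOn.mul (ev_continuousOn α'))
    (hinvd.differentiableOn.mul (ev_differentiableOn α'))
  refine ⟨α, β, ?_, hβ, ?_⟩
  · intro z hz
    rw [hα z hz]
    exact (hPu z).ringInverse.mul (hα' z hz)
  · intro z hz
    rw [hNαβ z hz, hN z hz, hα z (mid_sub_lo hz), mul_assoc]

end TH
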