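import Pool.Agent.H94.TH.Bas

/-!
# IVH: inverse of a pointwise invertible element of `HA S (E →L E)`

PROOF. `exists_HA` with `f z = Ring.inverse (ev M z)` (`E →L[ℂ] E` is a complete normed ring):
`Ring.inverse` is continuous at units (`NormedRing.inverse_continuousAt`) and differentiable
(`differentiableAt_inverse`, `hasFDerivAt_ringInverse`). `Ring.mul_inverse_cancel`,
`Ring.inverse_mul_cancel`. -/

set_option autoImplicit false

namespace TH

open Complex Metric Set Filter Topology ContDiff

theorem exists_inv {E : Type} [NormedAddCommGroup E] [NormedSpace ℂ E] [CompleteSpace E]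
    {S : Set ℂ} (M : HA S (E →L[ℂ] E)) (hM : ∀ z ∈ S, IsUnit (ev M z)) :
    ∃ M' : HA S (E →L[ℂ] E), ∀ z ∈ S, ev M z * ev M' z = 1 ∧ ev M' z * ev M z = 1 := by
  obtain ⟨M', hM'⟩ := exists_HA (S := S) (f := fun z => Ring.inverse (ev M z)) (by
      intro z hz
      have h1 : DifferentiableAt ℂ (Ring.inverse : (E →L[ℂ] E) → (E →L[ℂ] E)) (ev M z) :=
        differentiableAt_inverse (hM z hz)
      exact h1.continuousAt.comp_continuousWithinAt (ev_continuousOn M z hz)) (by
      intro z hz
      have h1 : DifferentiableAt ℂ (Ring.inverse : (E →L[ℂ] E) → (E →L[ℂ] E)) (ev M z) :=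
        differentiableAt_inverse (hM z (interior_subset hz))
      exact h1.comp_differentiableWithinAt z (ev_differentiableOn M z hz))
  refine ⟨M', fun z hz => ?_⟩
  rw [hM' z hz]
  exact ⟨Ring.mul_inverse_cancel _ (hM z hz), Ring.inverse_mul_cancel _ (hM z hz)⟩

/-- product of two operator valued functions -/
theorem exists_mul {E : Type} [NormedAddCommGroup E] [NormedSpace ℂ E]
    {S : Set ℂ} (M M' : HA S (E →L[ℂ] E)) :
    ∃ P : HA S (E →L[ℂ] E), ∀ z ∈ S, ev P z = ev M z * ev M' z :=
  exists_HA (S := S) (f := fun z => ev M z * ev M' z)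
    ((ev_continuousOn M).mul (ev_continuousOn M'))
    ((ev_differentiableOn M).mul (ev_differentiableOn M'))

end TH
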