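import Mathlib

/-!
# LGE: local logarithm in a Banach algebra

PROOF. `NormedSpace.exp` is analytic (`NormedSpace.exp_analytic`), so `ContDiffAt ℂ 1` at `0`, with derivative
`1 = id` there (`hasStrictFDerivAt_exp_zero`); `ContDiffAt.to_localInverse` /
`ContDiffAt.toOpenPartialHomeomorph` with `ContinuousLinearEquiv.refl ℂ A`: the local inverse at `exp 0 = 1` is
`ContDiffAt ℂ 1` at `1`, so differentiable on a ball about `1`. -/

set_option autoImplicit false

namespace TH

open Complex Metric Set Filter Topology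

theorem exists_log {A : Type} [NormedRing A] [NormedAlgebra ℂ A] [CompleteSpace A] :
    ∃ δ > 0, ∃ lg : A → A, DifferentiableOn ℂ lg (ball 1 δ) ∧ lg 1 = 0 ∧
      ∀ x ∈ ball (1 : A) δ, NormedSpace.exp (lg x) = x := by
  have ha : ContDiffAt ℂ 1 (NormedSpace.exp : A → A) 0 :=
    (NormedSpace.exp_analytic (𝕂 := ℂ) (0 : A)).contDiffAt
  have hd : HasFDerivAt (NormedSpace.exp : A → A)
      ((ContinuousLinearEquiv.refl ℂ A : A ≃L[ℂ] A) : A →L[ℂ] A) 0 :=
    (hasStrictFDerivAt_exp_zero (𝕂 := ℂ) (𝔸 := A)).hasFDerivAt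
  have h1 := ha.to_localInverse hd one_ne_zero
  have h2 := (ha.hasStrictFDerivAt' hd one_ne_zero).eventually_right_inverse
  have h3 := ha.localInverse_apply_image hd one_ne_zero
  rw [NormedSpace.exp_zero] at h1 h2 h3
  have h4 : ∀ᶠ y in 𝓝 (1 : A), DifferentiableAt ℂ (ha.localInverse hd one_ne_zero) y := by
    filter_upwards [h1.eventually (by simp)] with y hy
    exact hy.differentiableAt one_ne_zero
  obtain ⟨δ, hδ, hb⟩ := Metric.eventually_nhds_iff_ball.1 (h4.and h2)
  exact ⟨δ, hδ, ha.localInverse hd one_ne_zero,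
    fun y hy => (hb y hy).1.differentiableWithinAt, h3, fun y hy => (hb y hy).2⟩

end TH
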