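import Pool.Agent.H94.TH.RUD
import Pool.Agent.H94.TH.LGE
import Pool.Agent.H94.TH.IVH

/-!
# CAN: operator valued functions near `1` are uniform limits of entire invertible ones

`E` finite dimensional, `A = E →L[ℂ] E` (finite dimensional, complete normed algebra).

PROOF. `δ₀`, `lg` from `exists_log`, `δ = δ₀/2`. `ν z = lg (ev N z)` is continuous on `C` (values of `N` in
`closedBall 1 δ ⊆ ball 1 δ₀`), holomorphic inside, `exp (ν z) = ev N z`. `ν` is bounded by some `B` on `C`.
`exp` is uniformly continuous on the compact ball `closedBall 0 (B+1)` (`NormedSpace.exp_continuous`; `A` is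
proper), so there is `ε' ∈ (0, 1)` such that `‖x‖ ≤ B`, `‖x - y‖ < ε'` imply `‖exp x - exp y‖ < ε`.
`runge` gives `Q` entire with `‖ν z - Q z‖ < ε'` on `C`; `P = exp ∘ Q` is entire
(`NormedSpace.exp_analytic.differentiableAt`), `IsUnit (exp _)` (`NormedSpace.isUnit_exp`). -/

set_option autoImplicit false

namespace TH

open Complex Metric Set Filter Topology

variable {E : Type} [NormedAddCommGroup E] [NormedSpace ℂ E] [FiniteDimensional ℂ E]

private theorem CAN_exp_an {A : Type} [NormedRing A] [NormedAlgebra ℂ A] [CompleteSpace A]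
    (x : A) : AnalyticAt ℂ (NormedSpace.exp : A → A) x :=
  NormedSpace.exp_analytic x

private theorem CAN_unit {A : Type} [NormedRing A] [NormedAlgebra ℂ A] [CompleteSpace A]
    (x : A) : IsUnit (NormedSpace.exp x) :=
  NormedSpace.isUnit_exp_of_mem_ball (𝕂 := ℂ)
    ((NormedSpace.expSeries_radius_eq_top ℂ A).symm ▸ edist_lt_top _ _)

/-- `exp` is uniformly continuous on bounded sets of a proper algebra -/
private theorem CAN_unif {A : Type} [NormedRing A] [NormedAlgebra ℂ A] [CompleteSpace A]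
    [ProperSpace A] (B : ℝ) {ε : ℝ} (hε : 0 < ε) :
    ∃ ε' > 0, ∀ x y : A, ‖x‖ ≤ B → ‖x - y‖ < ε' →
      ‖NormedSpace.exp x - NormedSpace.exp y‖ < ε := by
  have hc : Continuous (NormedSpace.exp : A → A) :=
    continuous_iff_continuousAt.2 fun x => (CAN_exp_an x).continuousAt
  have hu := (isCompact_closedBall (0 : A) (B + 1)).uniformContinuousOn_of_continuous hc.continuousOn
  obtain ⟨δ, hδ, H⟩ := Metric.uniformContinuousOn_iff.1 hu ε hε
  refine ⟨min δ 1, lt_min hδ one_pos, fun x y hx hxy => ?_⟩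
  have h1 : ‖y‖ ≤ B + 1 := by
    have h2 : ‖y‖ ≤ ‖x‖ + ‖x - y‖ := by
      have h3 := norm_sub_le x (x - y)
      rwa [sub_sub_cancel] at h3
    have h4 := (lt_min_iff.1 hxy).2
    linarith
  have h5 := H x (by rw [mem_closedBall, dist_zero_right]; linarith) y
    (by rw [mem_closedBall, dist_zero_right]; exact h1)
    (by rw [dist_eq_norm]; exact (lt_min_iff.1 hxy).1)
  rwa [dist_eq_norm] at h5

theorem approx_near {C : Set ℂ} (hC : IsCompact C) (hc : Convex ℝ C)
    (hi : (interior C).Nonempty) :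
    ∃ δ > 0, ∀ N : HA C (E →L[ℂ] E), (∀ z ∈ C, ‖ev N z - 1‖ < δ) → ∀ ε > 0,
      ∃ P : ℂ → (E →L[ℂ] E), Differentiable ℂ P ∧ (∀ z, IsUnit (P z)) ∧
        ∀ z ∈ C, ‖ev N z - P z‖ < ε := by
  have : CompleteSpace E := FiniteDimensional.complete ℂ E
  have : ProperSpace (E →L[ℂ] E) := FiniteDimensional.proper ℂ (E →L[ℂ] E)
  obtain ⟨δ, hδ, lg, hlg, -, hexp⟩ := exists_log (A := E →L[ℂ] E)
  refine ⟨δ, hδ, fun N hN ε hε => ?_⟩
  have hmem : ∀ z ∈ C, ev N z ∈ ball (1 : E →L[ℂ] E) δ := fun z hz => by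
    rw [mem_ball, dist_eq_norm]
    exact hN z hz
  have hνc : ContinuousOn (fun z => lg (ev N z)) C :=
    hlg.continuousOn.comp (ev_continuousOn N) hmem
  have hνd : DifferentiableOn ℂ (fun z => lg (ev N z)) (interior C) :=
    hlg.comp (ev_differentiableOn N) fun z hz => hmem z (interior_subset hz)
  obtain ⟨B, hB⟩ := hC.exists_bound_of_continuousOn hνc
  obtain ⟨ε', hε', hu⟩ := CAN_unif (A := E →L[ℂ] E) B hε
  obtain ⟨Q, hQd, hQ⟩ := runge hC hc hi hνc hνd hε'
  refine ⟨fun z => NormedSpace.exp (Q z), ?_, fun z => CAN_unit _, fun z hz => ?_⟩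
  · intro z
    exact (CAN_exp_an (Q z)).differentiableAt.comp z (hQd z)
  · have h1 := hu (lg (ev N z)) (Q z) (hB z hz) (hQ z hz)
    rwa [hexp _ (hmem z hz)] at h1

end TH
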