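import Pool.Agent.H94.TH.CAN

/-!
# CAP: invertible operator valued functions are uniform limits of entire invertible ones

PROOF. Fix `c ∈ C`. For `t ∈ [0,1]` let `M_t z = ev M (c + t (z - c))` for `z ∈ C` (`c + t (z - c) ∈ C` by convexity):
an element of `HA C (E →L E)` (`exists_HA`; for `t > 0` and `z ∈ interior C` the point `c + t (z - c)` is in
`interior C`; for `t = 0` it is constant). `M'` from `exists_inv`; `B ≥ 1` bounds `‖ev M z‖`, `‖ev M' z‖` on `C`.
`δ` from `approx_near`. Uniform continuity of `ev M` on `C`: there is `m ≥ 1` such that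
`‖M_s z - M_t z‖ ≤ δ/(2B)` for `|s - t| ≤ 1/m`, `z ∈ C`. Let `t_k = k/m`. Claim: for all `k ≤ m` and all `ε > 0` there
is an entire invertible `P` with `‖M_{t_k} z - P z‖ < ε` on `C`. `k = 0`: `P = M c` constant. Step:
`N z = M_{t_{k+1}} z * (M_{t_k} z)⁻¹` is in `HA` (`exists_mul`, `M'` at the points `c + t_k (z - c)`) and
`‖N z - 1‖ ≤ ‖M_{t_{k+1}} z - M_{t_k} z‖ B < δ`, so `N` is approximated by entire invertible `P_N`; `M_{t_k}` by
`P_k`; the product `P_N P_k` is entire, invertible and approximates `N M_{t_k} = M_{t_{k+1}}`. -/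

set_option autoImplicit false

namespace TH

open Complex Metric Set Filter Topology

variable {E : Type} [NormedAddCommGroup E] [NormedSpace ℂ E] [FiniteDimensional ℂ E]

omit [FiniteDimensional ℂ E] in
theorem CAP_comp {C : Set ℂ} (M : HA C (E →L[ℂ] E)) {φ : ℂ → ℂ} (hφ : Differentiable ℂ φ)
    (h1 : MapsTo φ C C) (h2 : MapsTo φ (interior C) (interior C)) :
    ∃ N : HA C (E →L[ℂ] E), ∀ z ∈ C, ev N z = ev M (φ z) :=
  exists_HA (f := fun z => ev M (φ z)) ((ev_continuousOn M).comp hφ.continuous.continuousOn h1)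
    ((ev_differentiableOn M).comp hφ.differentiableOn h2)

omit [FiniteDimensional ℂ E] in
theorem CAP_bdd {C : Set ℂ} (hC : IsCompact C) {f : ℂ → (E →L[ℂ] E)} (hf : ContinuousOn f C) :
    ∃ B : ℝ, 1 ≤ B ∧ ∀ z ∈ C, ‖f z‖ ≤ B := by
  obtain ⟨B, hB⟩ := hC.exists_bound_of_continuousOn hf
  exact ⟨max 1 B, le_max_left _ _, fun z hz => (hB z hz).trans (le_max_right _ _)⟩

theorem approx_unit {C : Set ℂ} (hC : IsCompact C) (hc : Convex ℝ C)
    (hi : (interior C).Nonempty) (M : HA C (E →L[ℂ] E)) (hM : ∀ z ∈ C, IsUnit (ev M z)) {ε : ℝ}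
    (hε : 0 < ε) : ∃ P : ℂ → (E →L[ℂ] E), Differentiable ℂ P ∧ (∀ z, IsUnit (P z)) ∧
        ∀ z ∈ C, ‖ev M z - P z‖ < ε := by
  have hcomp : CompleteSpace E := FiniteDimensional.complete ℂ E
  obtain ⟨c, hcI⟩ := hi
  have hcC : c ∈ C := interior_subset hcI
  obtain ⟨M', hM'⟩ := exists_inv M hM
  obtain ⟨B, hB1, hB⟩ := CAP_bdd hC (ev_continuousOn M')
  obtain ⟨B2, hB21, hB2⟩ := CAP_bdd hC (ev_continuousOn M)
  obtain ⟨δ, hδ, hnear⟩ := approx_near (E := E) hC hc ⟨c, hcI⟩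
  -- the homothety
  set φ : ℝ → ℂ → ℂ := fun t z => c + (t : ℂ) * (z - c) with hφ
  have hφd : ∀ t, Differentiable ℂ (φ t) := fun t => by
    simp only [hφ]
    fun_prop
  have hφeq : ∀ t z, φ t z = (1 - t) • c + t • z := by
    intro t z
    simp only [hφ, Complex.real_smul]
    push_cast
    ring
  have hφC : ∀ t ∈ Icc (0 : ℝ) 1, MapsTo (φ t) C C := by
    intro t ht z hz
    rw [hφeq]
    exact hc hcC hz (by linarith [ht.2]) ht.1 (by ring)
  have hφI : ∀ t ∈ Icc (0 : ℝ) 1, MapsTo (φ t) (interior C) (interior C) := by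
    intro t ht z hz
    rw [hφeq]
    exact hc.interior hcI hz (by linarith [ht.2]) ht.1 (by ring)
  -- uniform continuity
  have huc := hC.uniformContinuousOn_of_continuous (ev_continuousOn M)
  rw [Metric.uniformContinuousOn_iff] at huc
  obtain ⟨ρ, hρ, huc⟩ := huc (δ / B) (by positivity)
  obtain ⟨R, hR⟩ := hC.exists_bound_of_continuousOn (f := fun z : ℂ => z - c) (by fun_prop)
  obtain ⟨m, hm⟩ := exists_nat_gt (|R| / ρ)
  have hm0 : (0 : ℝ) < m := lt_of_le_of_lt (by positivity) hm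
  have hstep : ∀ k : ℕ, ∀ z ∈ C, dist (φ ((k + 1 : ℕ) / m) z) (φ (k / m) z) < ρ := by
    intro k z hz
    have e1 : φ ((k + 1 : ℕ) / m) z - φ (k / m) z = ((1 / m : ℝ) : ℂ) * (z - c) := by
      simp only [hφ]
      push_cast
      ring
    rw [dist_eq_norm, e1, norm_mul, Complex.norm_real, Real.norm_eq_abs, abs_of_pos (by positivity)]
    have h1 : ‖z - c‖ ≤ |R| := (hR z hz).trans (le_abs_self R)
    have h2 : |R| < m * ρ := by rwa [div_lt_iff₀ hρ] at hm
    calc 1 / (m : ℝ) * ‖z - c‖ ≤ 1 / m * |R| := mul_le_mul_of_nonneg_left h1 (by positivity)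
      _ < ρ := by
          rw [one_div, inv_mul_lt_iff₀ hm0]
          exact h2
  have claim : ∀ k : ℕ, k ≤ m → ∀ ε > 0, ∃ P : ℂ → (E →L[ℂ] E), Differentiable ℂ P ∧
      (∀ z, IsUnit (P z)) ∧ ∀ z ∈ C, ‖ev M (φ (k / m) z) - P z‖ < ε := by
    intro k
    induction k with
    | zero =>
      intro _ ε hε
      refine ⟨fun _ => ev M c, differentiable_const _, fun _ => hM c hcC, fun z _ => ?_⟩
      have : φ ((0 : ℕ) / m) z = c := by simp [hφ]
      rw [this, sub_self, norm_zero]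
      exact hε
    | succ k ih =>
      intro hk ε hε
      have ht0 : (k : ℝ) / m ∈ Icc (0 : ℝ) 1 := by
        refine ⟨by positivity, ?_⟩
        rw [div_le_one hm0]
        exact_mod_cast (Nat.le_succ k).trans hk
      have ht1 : ((k + 1 : ℕ) : ℝ) / m ∈ Icc (0 : ℝ) 1 := by
        refine ⟨by positivity, ?_⟩
        rw [div_le_one hm0]
        exact_mod_cast hk
      obtain ⟨N1, hN1⟩ := CAP_comp M (hφd ((k + 1 : ℕ) / m)) (hφC _ ht1) (hφI _ ht1)
      obtain ⟨N2, hN2⟩ := CAP_comp M' (hφd (k / m)) (hφC _ ht0) (hφI _ ht0)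
      obtain ⟨N, hN⟩ := exists_mul N1 N2
      have hNev : ∀ z ∈ C, ev N z = ev M (φ ((k + 1 : ℕ) / m) z) * ev M' (φ (k / m) z) := by
        intro z hz
        rw [hN z hz, hN1 z hz, hN2 z hz]
      have hN1' : ∀ z ∈ C, ‖ev N z - 1‖ < δ := by
        intro z hz
        have hz0 := hφC _ ht0 hz
        have hz1 := hφC _ ht1 hz
        have e1 : ev N z - 1 = (ev M (φ ((k + 1 : ℕ) / m) z) - ev M (φ (k / m) z)) * ev M' (φ (k / m) z) := by
          rw [sub_mul, (hM' _ hz0).1, hNev z hz]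
        rw [e1]
        have h1 : ‖ev M (φ ((k + 1 : ℕ) / m) z) - ev M (φ (k / m) z)‖ < δ / B := by
          rw [← dist_eq_norm]
          exact huc _ hz1 _ hz0 (hstep k z hz)
        calc ‖(ev M (φ ((k + 1 : ℕ) / m) z) - ev M (φ (k / m) z)) * ev M' (φ (k / m) z)‖
            ≤ ‖ev M (φ ((k + 1 : ℕ) / m) z) - ev M (φ (k / m) z)‖ * ‖ev M' (φ (k / m) z)‖ := norm_mul_le _ _
          _ ≤ ‖ev M (φ ((k + 1 : ℕ) / m) z) - ev M (φ (k / m) z)‖ * B :=
              mul_le_mul_of_nonneg_left (hB _ hz0) (norm_nonneg _)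
          _ < δ / B * B := mul_lt_mul_of_pos_right h1 (by linarith)
          _ = δ := div_mul_cancel₀ _ (by linarith)
      obtain ⟨PN, hPNd, hPNu, hPN⟩ := hnear N hN1' (ε / (2 * B2)) (by positivity)
      obtain ⟨B3, hB31, hB3⟩ := CAP_bdd hC (hPNd.continuous.continuousOn (s := C))
      obtain ⟨Pk, hPkd, hPku, hPk⟩ := ih ((Nat.le_succ k).trans hk) (ε / (2 * B3)) (by positivity)
      refine ⟨fun z => PN z * Pk z, ?_, fun z => (hPNu z).mul (hPku z), ?_⟩
      · exact hPNd.mul hPkd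
      · intro z hz
        have hz0 := hφC _ ht0 hz
        have e1 : ev M (φ ((k + 1 : ℕ) / m) z) = ev N z * ev M (φ (k / m) z) := by
          rw [hNev z hz, mul_assoc, (hM' _ hz0).2, mul_one]
        have e2 : ev M (φ ((k + 1 : ℕ) / m) z) - PN z * Pk z =
            (ev N z - PN z) * ev M (φ (k / m) z) + PN z * (ev M (φ (k / m) z) - Pk z) := by
          rw [e1, sub_mul, mul_sub]
          abel
        rw [e2]
        have h1 : ‖(ev N z - PN z) * ev M (φ (k / m) z)‖ < ε / 2 := by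
          calc ‖(ev N z - PN z) * ev M (φ (k / m) z)‖
              ≤ ‖ev N z - PN z‖ * ‖ev M (φ (k / m) z)‖ := norm_mul_le _ _
            _ ≤ ‖ev N z - PN z‖ * B2 := mul_le_mul_of_nonneg_left (hB2 _ hz0) (norm_nonneg _)
            _ < ε / (2 * B2) * B2 := mul_lt_mul_of_pos_right (hPN z hz) (by linarith)
            _ = ε / 2 := by field_simp
        have h2 : ‖PN z * (ev M (φ (k / m) z) - Pk z)‖ < ε / 2 := by
          calc ‖PN z * (ev M (φ (k / m) z) - Pk z)‖
              ≤ ‖PN z‖ * ‖ev M (φ (k / m) z) - Pk z‖ := norm_mul_le _ _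
            _ ≤ B3 * ‖ev M (φ (k / m) z) - Pk z‖ := mul_le_mul_of_nonneg_right (hB3 z hz) (norm_nonneg _)
            _ < B3 * (ε / (2 * B3)) := mul_lt_mul_of_pos_left (hPk z hz) (by linarith)
            _ = ε / 2 := by field_simp
        calc _ ≤ _ := norm_add_le _ _
          _ < ε / 2 + ε / 2 := add_lt_add h1 h2
          _ = ε := by ring
  obtain ⟨P, hPd, hPu, hP⟩ := claim m le_rfl ε hε
  refine ⟨P, hPd, hPu, fun z hz => ?_⟩
  have h1 := hP z hz
  have e1 : φ ((m : ℝ) / m) z = z := by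
    rw [div_self hm0.ne']
    simp [hφ]
  rwa [e1] at h1

end TH
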