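import Mathlib

/-!
# CE: Cauchy estimates for holomorphic maps between normed spaces

PROOFS.
`norm_fderiv_le`: `opNorm_le_bound`. Let `v ≠ 0` (`v = 0` trivial). `g ζ = f (w₀ + ζ • v)` is differentiable
on `ball 0 (r/‖v‖)`, bounded by `M`, `deriv g 0 = fderiv ℂ f w₀ v` (chain rule). For `0 < R < r/‖v‖`
`Complex.norm_deriv_le_of_forall_mem_sphere_norm_le` gives `‖fderiv ℂ f w₀ v‖ ≤ M/R`; let `R → r/‖v‖`
(`le_of_forall_...` or `R = (r/‖v‖)(1-1/k)`): `‖fderiv ℂ f w₀ v‖ ≤ (M/r) ‖v‖`. (`M ≥ ‖f w₀‖ ≥ 0`.)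
`fderiv_lip`: `h = w - w'`, `‖h‖ < r/2`. On `ball w' (r/4)` let `g u = f (u + h) - f u`; `u`, `u + h` are in
`ball w₀ (r/2)` (convex), where `‖fderiv ℂ f‖ ≤ M/(r/2)` by `norm_fderiv_le` (ball of radius `r/2` about the
point), so `‖g u‖ ≤ (2 M/r) ‖h‖` (`Convex.norm_image_sub_le_of_norm_fderiv_le`-type mean value inequality, over `ℂ`),
and `norm_fderiv_le` for `g` at `w'` with radius `r/4` gives
`‖fderiv ℂ f w - fderiv ℂ f w'‖ = ‖fderiv ℂ g w'‖ ≤ (2 M/r) ‖h‖/(r/4) = 8 M/r² ‖h‖`.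
`taylor2`: mean value inequality for `u ↦ f u - fderiv ℂ f w u` on the segment from `w` to `w + δ`
(in `ball w₀ (r/4)`): derivative `fderiv ℂ f u - fderiv ℂ f w`, norm `≤ 8 M/r² ‖u - w‖ ≤ 8 M/r² ‖δ‖`
(`Convex.norm_image_sub_le_of_norm_hasFDerivWithin_le'`).
`contDiffOn_one`: near `w₀ ∈ U`, `f` is bounded (continuity) on a ball `ball w₀ r ⊆ U`, so `fderiv ℂ f` is
Lipschitz on `ball w₀ (r/4)` by `fderiv_lip`, hence continuous at `w₀`; `contDiffOn_one_iff_fderiv_of_isOpen`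
(or `contDiffOn_succ_iff_fderiv_of_isOpen` with `0 + 1`).
`hasStrictFDerivAt_of_differentiableOn`: from `contDiffOn_one` (`ContDiffAt.hasStrictFDerivAt`).
-/

set_option autoImplicit false

namespace TH

open Complex Metric Set Filter Topology ContDiff

variable {W F : Type} [NormedAddCommGroup W] [NormedSpace ℂ W] [NormedAddCommGroup F]
  [NormedSpace ℂ F]

theorem norm_fderiv_le {f : W → F} {w₀ : W} {r M : ℝ} (hr : 0 < r)
    (hf : DifferentiableOn ℂ f (ball w₀ r)) (hM : ∀ w ∈ ball w₀ r, ‖f w‖ ≤ M) :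
    ‖fderiv ℂ f w₀‖ ≤ M / r := by
  have hM0 : 0 ≤ M := (norm_nonneg _).trans (hM w₀ (mem_ball_self hr))
  have hd : DifferentiableAt ℂ f w₀ := hf.differentiableAt (isOpen_ball.mem_nhds (mem_ball_self hr))
  refine ContinuousLinearMap.opNorm_le_bound _ (by positivity) fun v => ?_
  rcases eq_or_ne v 0 with hv | hv
  · rw [hv]; simp
  have hv0 : 0 < ‖v‖ := norm_pos_iff.2 hv
  -- the bound for a fixed radius
  have key : ∀ R : ℝ, 0 < R → R * ‖v‖ < r → ‖fderiv ℂ f w₀ v‖ ≤ M / R := by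
    intro R hR hRr
    obtain ⟨g, hg⟩ : ∃ g : ℂ → F, g = fun ζ => f (w₀ + ζ • v) := ⟨_, rfl⟩
    have hin : ∀ ζ ∈ closedBall (0 : ℂ) R, w₀ + ζ • v ∈ ball w₀ r := by
      intro ζ hζ
      rw [mem_closedBall_zero_iff] at hζ
      rw [mem_ball_iff_norm, add_sub_cancel_left, norm_smul]
      exact (mul_le_mul_of_nonneg_right hζ hv0.le).trans_lt hRr
    have hlin : Differentiable ℂ (fun ζ : ℂ => w₀ + ζ • v) := by fun_prop
    have hgd : DifferentiableOn ℂ g (closure (ball (0 : ℂ) R)) := by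
      rw [hg, closure_ball _ hR.ne']
      exact hf.comp hlin.differentiableOn (fun ζ hζ => hin ζ hζ)
    have h1 := Complex.norm_deriv_le_of_forall_mem_sphere_norm_le hR hgd.diffContOnCl
      (C := M) (fun z hz => by
        rw [hg]
        exact hM _ (hin z (sphere_subset_closedBall hz)))
    have h2 : deriv g 0 = fderiv ℂ f w₀ v := by
      have h3 : HasDerivAt (fun ζ : ℂ => w₀ + ζ • v) v 0 := by
        simpa using ((hasDerivAt_id (0 : ℂ)).smul_const v).const_add w₀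
      have h4 : HasFDerivAt f (fderiv ℂ f w₀) (w₀ + (0 : ℂ) • v) := by
        rw [zero_smul, add_zero]
        exact hd.hasFDerivAt
      rw [hg]
      exact (h4.comp_hasDerivAt (0 : ℂ) h3).deriv
    rw [h2] at h1
    exact h1
  by_contra hcon
  push Not at hcon
  obtain ⟨A, hA⟩ : ∃ A, A = ‖fderiv ℂ f w₀ v‖ := ⟨_, rfl⟩
  rw [← hA] at hcon key
  have hA0 : 0 < A := lt_of_le_of_lt (by positivity) hcon
  have h1 : M / A < r / ‖v‖ := by
    rw [div_lt_div_iff₀ hA0 hv0]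
    rw [div_mul_eq_mul_div, div_lt_iff₀ hr] at hcon
    linarith
  obtain ⟨R, hR1, hR2⟩ := exists_between h1
  have hR0 : 0 < R := lt_of_le_of_lt (by positivity) hR1
  have h2 := key R hR0 (by rwa [lt_div_iff₀ hv0] at hR2)
  rw [le_div_iff₀ hR0] at h2
  rw [div_lt_iff₀ hA0] at hR1
  linarith

theorem fderiv_lip {f : W → F} {w₀ : W} {r M : ℝ} (hr : 0 < r)
    (hf : DifferentiableOn ℂ f (ball w₀ r)) (hM : ∀ w ∈ ball w₀ r, ‖f w‖ ≤ M)
    {w w' : W} (hw : w ∈ ball w₀ (r / 4)) (hw' : w' ∈ ball w₀ (r / 4)) :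
    ‖fderiv ℂ f w - fderiv ℂ f w'‖ ≤ 8 * M / r ^ 2 * ‖w - w'‖ := by
  have hM0 : 0 ≤ M := (norm_nonneg _).trans (hM w₀ (mem_ball_self hr))
  rw [mem_ball_iff_norm] at hw hw'
  have hdiff : ∀ x ∈ ball w₀ r, DifferentiableAt ℂ f x := fun x hx =>
    hf.differentiableAt (isOpen_ball.mem_nhds hx)
  have hsub : ball w₀ (r / 2) ⊆ ball w₀ r := ball_subset_ball (by linarith)
  -- bound of the derivative on the half ball
  have hb : ∀ x ∈ ball w₀ (r / 2), ‖fderiv ℂ f x‖ ≤ 2 * M / r := by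
    intro x hx
    have h1 : ball x (r / 2) ⊆ ball w₀ r := by
      apply ball_subset_ball'
      rw [mem_ball] at hx
      linarith
    have h2 := norm_fderiv_le (show 0 < r / 2 by linarith) (hf.mono h1) (fun z hz => hM z (h1 hz))
    refine h2.trans (le_of_eq ?_)
    field_simp
  have hlip : ∀ x ∈ ball w₀ (r / 2), ∀ y ∈ ball w₀ (r / 2), ‖f y - f x‖ ≤ 2 * M / r * ‖y - x‖ :=
    fun x hx y hy => (convex_ball w₀ (r / 2)).norm_image_sub_le_of_norm_fderiv_le
      (fun z hz => hdiff z (hsub hz)) hb hx hy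
  obtain ⟨h, hh⟩ : ∃ h, h = w - w' := ⟨_, rfl⟩
  have hu : ∀ u ∈ ball w' (r / 4), u ∈ ball w₀ (r / 2) ∧ u + h ∈ ball w₀ (r / 2) := by
    intro u hu
    rw [mem_ball_iff_norm] at hu
    rw [mem_ball_iff_norm, mem_ball_iff_norm]
    constructor
    · have : u - w₀ = (u - w') + (w' - w₀) := by abel
      rw [this]
      exact (norm_add_le _ _).trans_lt (by linarith)
    · have : u + h - w₀ = (u - w') + (w - w₀) := by rw [hh]; abel
      rw [this]
      exact (norm_add_le _ _).trans_lt (by linarith)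
  have htr : ∀ u : W, HasFDerivAt (fun u : W => u + h) (ContinuousLinearMap.id ℂ W) u := fun u =>
    (hasFDerivAt_id u).add_const h
  have hgd : DifferentiableOn ℂ (fun u => f (u + h) - f u) (ball w' (r / 4)) := by
    intro u hu'
    have h1 := (hdiff _ (hsub (hu u hu').2)).comp u (htr u).differentiableAt
    exact (h1.sub (hdiff _ (hsub (hu u hu').1))).differentiableWithinAt
  have hgb : ∀ u ∈ ball w' (r / 4), ‖f (u + h) - f u‖ ≤ 2 * M / r * ‖h‖ := by
    intro u hu'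
    have h1 := hlip u (hu u hu').1 (u + h) (hu u hu').2
    rwa [add_sub_cancel_left] at h1
  have h2 := norm_fderiv_le (show 0 < r / 4 by linarith) hgd hgb
  have hw'0 : w' ∈ ball w' (r / 4) := mem_ball_self (by linarith)
  have h3 : fderiv ℂ (fun u => f (u + h) - f u) w' = fderiv ℂ f w - fderiv ℂ f w' := by
    have e1 : w' + h = w := by rw [hh]; abel
    have h4 : HasFDerivAt f (fderiv ℂ f w) (w' + h) := by
      rw [e1]
      have := (hdiff _ (hsub (hu w' hw'0).2)).hasFDerivAt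
      rwa [e1] at this
    have h5 := (h4.comp w' (htr w')).sub (hdiff _ (hsub (hu w' hw'0).1)).hasFDerivAt
    rw [ContinuousLinearMap.comp_id] at h5
    exact h5.fderiv
  rw [h3] at h2
  rw [← hh]
  refine h2.trans (le_of_eq ?_)
  field_simp
  ring

theorem taylor2 {f : W → F} {w₀ : W} {r M : ℝ} (hr : 0 < r)
    (hf : DifferentiableOn ℂ f (ball w₀ r)) (hM : ∀ w ∈ ball w₀ r, ‖f w‖ ≤ M)
    {w δ : W} (hw : w ∈ ball w₀ (r / 4)) (hw' : w + δ ∈ ball w₀ (r / 4)) :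
    ‖f (w + δ) - f w - fderiv ℂ f w δ‖ ≤ 8 * M / r ^ 2 * ‖δ‖ ^ 2 := by
  have hM0 : 0 ≤ M := (norm_nonneg _).trans (hM w₀ (mem_ball_self hr))
  have hsub : ball w₀ (r / 4) ⊆ ball w₀ r := ball_subset_ball (by linarith)
  have hconv : Convex ℝ (ball w₀ (r / 4) ∩ closedBall w ‖δ‖) :=
    (convex_ball _ _).inter (convex_closedBall _ _)
  have h1 := hconv.norm_image_sub_le_of_norm_hasFDerivWithin_le' (𝕜 := ℂ) (f := f)
    (f' := fderiv ℂ f) (φ := fderiv ℂ f w) (C := 8 * M / r ^ 2 * ‖δ‖) (x := w) (y := w + δ)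
    (fun x hx => (hf.differentiableAt
      (isOpen_ball.mem_nhds (hsub hx.1))).hasFDerivAt.hasFDerivWithinAt)
    (fun x hx => (fderiv_lip hr hf hM hx.1 hw).trans (by
      have := hx.2
      rw [mem_closedBall_iff_norm] at this
      exact mul_le_mul_of_nonneg_left this (by positivity)))
    ⟨hw, mem_closedBall_self (norm_nonneg _)⟩
    ⟨hw', by rw [mem_closedBall_iff_norm, add_sub_cancel_left]⟩
  rw [add_sub_cancel_left] at h1
  refine h1.trans (le_of_eq ?_)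
  ring

theorem contDiffOn_one {f : W → F} {U : Set W} (hU : IsOpen U) (hf : DifferentiableOn ℂ f U) :
    ContDiffOn ℂ 1 f U := by
  rw [show (1 : WithTop ℕ∞) = 0 + 1 from (zero_add 1).symm, contDiffOn_succ_iff_fderiv_of_isOpen hU]
  refine ⟨hf, fun h => absurd h (by simp), ?_⟩
  rw [contDiffOn_zero]
  intro w₀ hw₀
  apply ContinuousAt.continuousWithinAt
  obtain ⟨r₁, hr₁, hball⟩ := Metric.isOpen_iff.1 hU w₀ hw₀
  have hc : ContinuousAt f w₀ := (hf.differentiableAt (hU.mem_nhds hw₀)).continuousAt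
  have h1 : ∀ᶠ w in 𝓝 w₀, ‖f w‖ < ‖f w₀‖ + 1 :=
    hc.norm.eventually (gt_mem_nhds (lt_add_one _))
  obtain ⟨r₂, hr₂, h2⟩ := Metric.eventually_nhds_iff_ball.1 h1
  obtain ⟨r, hr⟩ : ∃ r, r = min r₁ r₂ := ⟨_, rfl⟩
  have hr0 : 0 < r := by rw [hr]; exact lt_min hr₁ hr₂
  have s1 : ball w₀ r ⊆ U := (ball_subset_ball (by rw [hr]; exact min_le_left _ _)).trans hball
  have s2 : ∀ w ∈ ball w₀ r, ‖f w‖ ≤ ‖f w₀‖ + 1 := fun w hw =>
    (h2 w (ball_subset_ball (by rw [hr]; exact min_le_right _ _) hw)).le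
  have hlip := fun {w : W} (hw : w ∈ ball w₀ (r / 4)) =>
    fderiv_lip hr0 (hf.mono s1) s2 hw (mem_ball_self (by linarith))
  rw [Metric.continuousAt_iff]
  intro ε hε
  obtain ⟨C, hC⟩ : ∃ C, C = 8 * (‖f w₀‖ + 1) / r ^ 2 := ⟨_, rfl⟩
  have hC0 : 0 < C := by rw [hC]; positivity
  refine ⟨min (r / 4) (ε / C), by positivity, fun {w} hw => ?_⟩
  have h3 := hlip (w := w) (mem_ball.2 (hw.trans_le (min_le_left _ _)))
  rw [← hC] at h3
  rw [dist_eq_norm] at hw ⊢
  have h4 : C * ‖w - w₀‖ < ε := by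
    have := hw.trans_le (min_le_right _ _)
    rw [lt_div_iff₀ hC0] at this
    linarith
  exact h3.trans_lt h4

theorem hasStrictFDerivAt_of_differentiableOn {f : W → F} {U : Set W} (hU : IsOpen U)
    (hf : DifferentiableOn ℂ f U) {w : W} (hw : w ∈ U) :
    HasStrictFDerivAt f (fderiv ℂ f w) w :=
  ((contDiffOn_one hU hf).contDiffAt (hU.mem_nhds hw)).hasStrictFDerivAt one_ne_zero

end TH
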