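import Pool.Agent.H94.TH.TRD

/-!
# CHB: thickening in one chart

PROOF. `K = e '' (f '' S)` is compact (`f` continuous on `S`, `e` continuous on its source) in the open set `e.target`:
there is `r > 0` with `ball (e (f z)) r ⊆ e.target` for all `z ∈ S` (`IsCompact.exists_thickening_subset_open` or
`exists_cthickening_subset_open`; `S = ∅`: `r = 1`). `Φ z y = e.symm (e (f z) + y)`. `zero`: `left_inv`. `cont`: `e.symm`
is continuous on the target. For `e' ∈ atlas` with `Φ z y ∈ e'.source`: `e' (Φ z y') = (e' ∘ e.symm) (e (f z) + y')`, and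
`e' ∘ e.symm` is differentiable at `e (f z) + y = e (Φ z y)` (`tr_diff`, `right_inv`), `z ↦ e (f z)` is differentiable at
interior points (`hf.diff`). `inv`: the derivative at `y = 0` is `fderiv (e' ∘ e.symm) (e (f z))`, bijective (`tr_bij`). -/

set_option autoImplicit false

namespace TH

open Complex Metric Set Filter Topology Manifold ContDiff
open KB (V)

variable {n : ℕ} {X : Type} [MetricSpace X] [ChartedSpace (V n) X]

theorem thick_chart [IsManifold 𝓘(ℂ, V n) ω X] {S : Set ℂ} (hS : IsCompact S) {f : ℂ → X}
    (hf : KI.Hol n S f) {e : OpenPartialHomeomorph X (V n)} (he : e ∈ atlas (V n) X)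
    (hfe : ∀ z ∈ S, f z ∈ e.source) :
    ∃ (r : ℝ) (Φ : ℂ → V n → X), ThickOn S f r Φ := by
  have hgc : ContinuousOn (fun z => e (f z)) S := e.continuousOn.comp hf.cont fun z hz => hfe z hz
  obtain ⟨r, hr, hrt⟩ := (hS.image_of_continuousOn hgc).exists_thickening_subset_open e.open_target
    (by
      rintro _ ⟨z, hz, rfl⟩
      exact e.map_source (hfe z hz))
  have hball : ∀ z ∈ S, ∀ y ∈ ball (0 : V n) r, e (f z) + y ∈ e.target := by
    intro z hz y hy
    apply hrt
    have h1 : e (f z) ∈ (fun z => e (f z)) '' S := ⟨z, hz, rfl⟩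
    apply ball_subset_thickening h1 r
    rw [mem_ball_iff_norm, add_sub_cancel_left]
    exact mem_ball_zero_iff.1 hy
  refine ⟨r, fun z y => e.symm (e (f z) + y), ?_⟩
  constructor
  · exact hr
  · intro z hz
    rw [add_zero]
    exact e.left_inv (hfe z hz)
  · have h1 : ContinuousOn (fun q : ℂ × V n => e (f q.1) + q.2) (S ×ˢ ball 0 r) :=
      (hgc.comp continuousOn_fst fun q hq => hq.1).add continuousOn_snd
    exact e.continuousOn_symm.comp h1 fun q hq => hball q.1 hq.1 q.2 hq.2
  · intro z hz y hy e' he' hx'
    have hzS := interior_subset hz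
    have ht := hball z hzS y hy
    have h1 := tr_diff he he' (e.map_target ht) hx'
    rw [e.right_inv ht] at h1
    have h2 : DifferentiableAt ℂ (fun w => e (f w)) z := hf.diff z hz e he (hfe z hzS)
    have h3 : DifferentiableAt ℂ (fun q : ℂ × V n => e (f q.1)) (z, y) :=
      DifferentiableAt.comp (g := fun w => e (f w)) (z, y) h2 differentiableAt_fst
    have h4 : DifferentiableAt ℂ (fun q : ℂ × V n => e (f q.1) + q.2) (z, y) :=
      h3.add differentiableAt_snd
    exact DifferentiableAt.comp (g := fun y => e' (e.symm y)) (z, y) h1 h4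
  · intro z hz y hy e' he' hx'
    have ht := hball z hz y hy
    have h1 := tr_diff he he' (e.map_target ht) hx'
    rw [e.right_inv ht] at h1
    have h4 : DifferentiableAt ℂ (fun y' : V n => e (f z) + y') y :=
      (differentiableAt_const _).add differentiableAt_id
    exact DifferentiableAt.comp (g := fun y => e' (e.symm y)) y h1 h4
  · intro z hz e' he' hx'
    have h1 := fderiv_comp_add_left (𝕜 := ℂ) (f := fun y => e' (e.symm y)) (x := (0 : V n))
      (e (f z))
    beta_reduce at h1
    rw [h1, add_zero]
    exact tr_bij he he' (hfe z hz) hx'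

end TH
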