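import Pool.Agent.H51.Carpet.Cauchy
import Pool.Agent.H51.Carpet.Base

/-!
# CT: Cauchy transform, definitions

`cau φ z = ∫ ker t * φ (z - t)`, `ker t = 1/(π t)` (`Pool.Agent.H51.Carpet.ker`).
`Adm R φ`: `φ` is measurable, bounded and vanishes outside `ball 0 R`. -/

set_option autoImplicit false

namespace TH

open Complex Metric Set Filter Topology MeasureTheory
open Pool.Agent.H51

/-- the Cauchy transform -/
noncomputable def cau (φ : ℂ → ℂ) (z : ℂ) : ℂ := ∫ t, Carpet.ker t * φ (z - t)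

/-- measurable, bounded, vanishing outside `ball 0 R` -/
structure Adm (R : ℝ) (φ : ℂ → ℂ) : Prop where
  meas : Measurable φ
  bdd : ∃ M, ∀ z, ‖φ z‖ ≤ M
  supp : ∀ z ∉ ball (0 : ℂ) R, φ z = 0

end TH
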