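import Pool.Agent.H94.TH.CT

/-!
# CTA: Cauchy transform, integrability, bound, linearity

PROOFS. `ker` is integrable on balls (`Pool.Agent.H51.Carpet.integrableOn_ker`).
`Adm.integrable`: `t ↦ ker t * φ (z - t)` vanishes outside `ball 0 (R + ‖z‖)`, bounded by `M ‖ker t‖` there.
`cau_eq`: substitution `t ↦ z - t` (`integral_sub_left_eq_self`).
`cau_bound`: `K = ∫_{ball 0 (2R)} ‖ker‖ + 1`; for `z ∈ ball 0 R` the integrand vanishes off `ball 0 (2R)`
(`norm_integral_le_of_norm_le`), see the end of the proof of `solve` in `Carpet/Cauchy.lean`.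
`cau_add`, `cau_smul`: `integral_add` etc. -/

set_option autoImplicit false

namespace TH

open Complex Metric Set Filter Topology MeasureTheory
open Pool.Agent.H51

theorem CTA_meas : Measurable Carpet.ker := by
  unfold Carpet.ker
  fun_prop

theorem Adm.integrable {R : ℝ} {φ : ℂ → ℂ} (h : Adm R φ) (z : ℂ) :
    Integrable (fun t => Carpet.ker t * φ (z - t)) := by
  obtain ⟨M, hM⟩ := h.bdd
  have hsupp : Function.support (fun t => Carpet.ker t * φ (z - t)) ⊆ ball (0 : ℂ) (R + ‖z‖) := by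
    intro t ht
    by_contra hcon
    refine ht ?_
    have h1 : z - t ∉ ball (0 : ℂ) R := by
      intro h2
      refine hcon ?_
      rw [mem_ball_zero_iff] at h2 ⊢
      calc ‖t‖ = ‖z - (z - t)‖ := by congr 1; ring
        _ ≤ ‖z‖ + ‖z - t‖ := norm_sub_le _ _
        _ < R + ‖z‖ := by linarith
    simp only [h.supp _ h1, mul_zero]
  rw [← integrableOn_iff_integrable_of_support_subset hsupp]
  refine Integrable.mono' ((Carpet.integrableOn_ker (R + ‖z‖)).norm.mul_const M) ?_ ?_
  · exact (CTA_meas.mul (h.meas.comp (measurable_const.sub measurable_id))).aestronglyMeasurable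
  · refine Filter.Eventually.of_forall fun t => ?_
    rw [norm_mul]
    exact mul_le_mul_of_nonneg_left (hM _) (norm_nonneg _)

theorem Adm.integrable' {R : ℝ} {φ : ℂ → ℂ} (h : Adm R φ) (z : ℂ) :
    Integrable (fun t => Carpet.ker (z - t) * φ t) := by
  have h1 := (h.integrable z).comp_sub_left z
  simpa only [sub_sub_cancel] using h1

theorem cau_eq (φ : ℂ → ℂ) (z : ℂ) : cau φ z = ∫ t, Carpet.ker (z - t) * φ t := by
  have h1 := integral_sub_left_eq_self (fun t => Carpet.ker (z - t) * φ t) (volume : Measure ℂ) z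
  simp only [sub_sub_cancel] at h1
  exact h1

theorem cau_bound (R : ℝ) : ∃ K > 0, ∀ φ : ℂ → ℂ, Adm R φ → ∀ M, (∀ z, ‖φ z‖ ≤ M) →
    ∀ z ∈ ball (0 : ℂ) R, ‖cau φ z‖ ≤ K * M := by
  have hCnn : (0 : ℝ) ≤ ∫ t in ball (0 : ℂ) (2 * R), ‖Carpet.ker t‖ :=
    integral_nonneg fun _ => norm_nonneg _
  refine ⟨(∫ t in ball (0 : ℂ) (2 * R), ‖Carpet.ker t‖) + 1, by positivity, ?_⟩
  intro φ hφ M hM z hz
  have hM0 : 0 ≤ M := (norm_nonneg _).trans (hM 0)
  have hzR : ‖z‖ < R := by simpa using hz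
  have hsupp : ∀ t, t ∉ ball (0 : ℂ) (2 * R) → Carpet.ker t * φ (z - t) = 0 := by
    intro t ht
    rw [hφ.supp (z - t), mul_zero]
    intro hU'
    apply ht
    have h1 : ‖z - t‖ < R := by simpa using hU'
    rw [mem_ball_zero_iff]
    calc ‖t‖ = ‖z - (z - t)‖ := by congr 1; ring
      _ ≤ ‖z‖ + ‖z - t‖ := norm_sub_le _ _
      _ < 2 * R := by linarith
  rw [cau, ← setIntegral_eq_integral_of_forall_compl_eq_zero hsupp]
  calc ‖∫ t in ball (0 : ℂ) (2 * R), Carpet.ker t * φ (z - t)‖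
      ≤ ∫ t in ball (0 : ℂ) (2 * R), ‖Carpet.ker t‖ * M := by
        refine norm_integral_le_of_norm_le ((Carpet.integrableOn_ker _).norm.mul_const M) ?_
        refine Filter.Eventually.of_forall fun t => ?_
        rw [norm_mul]
        exact mul_le_mul_of_nonneg_left (hM _) (norm_nonneg _)
    _ = (∫ t in ball (0 : ℂ) (2 * R), ‖Carpet.ker t‖) * M := by rw [integral_mul_const]
    _ ≤ _ := mul_le_mul_of_nonneg_right (by linarith) hM0

theorem cau_add {R : ℝ} {φ ψ : ℂ → ℂ} (hφ : Adm R φ) (hψ : Adm R ψ) (z : ℂ) :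
    cau (fun t => φ t + ψ t) z = cau φ z + cau ψ z := by
  rw [cau, cau, cau, ← integral_add (hφ.integrable z) (hψ.integrable z)]
  refine integral_congr_ae (Filter.Eventually.of_forall fun t => ?_)
  simp only
  ring

theorem cau_smul (c : ℂ) (φ : ℂ → ℂ) (z : ℂ) : cau (fun t => c * φ t) z = c * cau φ z := by
  rw [cau, cau, ← integral_const_mul]
  refine integral_congr_ae (Filter.Eventually.of_forall fun t => ?_)
  simp only
  ring

end TH
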