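import Pool.Agent.H94.TH.CTA

/-!
# CTB: holomorphy of the Cauchy transform off the support

PROOF. Let `z₁ ∈ ball z₀ δ`, `η = (δ - ‖z₁ - z₀‖)/2`. For `z ∈ ball z₁ η`, `cau φ z = ∫ ker (z - t) * φ t`
(`cau_eq`), and `φ t = 0` unless `‖t - z₀‖ ≥ δ`, in which case `‖z - t‖ ≥ η`; so the integrand `F z t` has
`deriv (F · t) z = -(1/π) (z - t)⁻² * φ t` for all `t`, of norm `≤ π⁻¹ η⁻² ‖φ t‖`, integrable:
`hasDerivAt_integral_of_dominated_loc_of_deriv_le`. -/

set_option autoImplicit false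

namespace TH

open Complex Metric Set Filter Topology MeasureTheory
open Pool.Agent.H51

theorem CTB_phi_int {R : ℝ} {φ : ℂ → ℂ} (h : Adm R φ) : Integrable φ := by
  obtain ⟨M, hM⟩ := h.bdd
  have h1 : IntegrableOn φ (ball (0 : ℂ) R) := by
    refine Measure.integrableOn_of_bounded (M := M) ?_ h.meas.aestronglyMeasurable
      (Eventually.of_forall hM)
    exact measure_ball_lt_top.ne
  rw [← integrableOn_univ]
  exact (h1.of_forall_sdiff_eq_zero MeasurableSet.univ fun z hz => h.supp z hz.2)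

theorem CTB_meas_ker : Measurable Carpet.ker := by
  unfold Carpet.ker
  fun_prop

theorem CTB_ker_deriv {z : ℂ} (hz : z ≠ 0) :
    HasDerivAt Carpet.ker (-(Real.pi : ℂ)⁻¹ * (z ^ 2)⁻¹) z := by
  have h1 : Carpet.ker = fun z => (Real.pi : ℂ)⁻¹ * z⁻¹ := by
    funext z
    unfold Carpet.ker
    rw [mul_inv]
  rw [h1]
  have h2 := (hasDerivAt_inv hz).const_mul (Real.pi : ℂ)⁻¹
  refine h2.congr_deriv ?_
  ring

theorem cau_holo {R : ℝ} {φ : ℂ → ℂ} (h : Adm R φ) {z₀ : ℂ} {δ : ℝ}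
    (h0 : ∀ z ∈ ball z₀ δ, φ z = 0) : DifferentiableOn ℂ (cau φ) (ball z₀ δ) := by
  intro z₁ hz₁
  obtain ⟨η, hη⟩ : ∃ η, η = (δ - ‖z₁ - z₀‖) / 2 := ⟨_, rfl⟩
  rw [mem_ball_iff_norm] at hz₁
  have hη0 : 0 < η := by rw [hη]; linarith
  have hcau : cau φ = fun z => ∫ t, Carpet.ker (z - t) * φ t := funext fun z => cau_eq φ z
  -- the points of the support are far
  have hfar : ∀ z ∈ ball z₁ η, ∀ t, φ t ≠ 0 → η ≤ ‖z - t‖ := by
    intro z hz t ht
    rw [mem_ball_iff_norm] at hz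
    have h1 : δ ≤ ‖t - z₀‖ := by
      by_contra hcon
      push Not at hcon
      exact ht (h0 t (by rwa [mem_ball_iff_norm]))
    have h2 : ‖t - z₀‖ ≤ ‖z - t‖ + ‖z - z₁‖ + ‖z₁ - z₀‖ := by
      have h3 : t - z₀ = -(z - t) + (z - z₁) + (z₁ - z₀) := by ring
      rw [h3]
      refine (norm_add_le _ _).trans ?_
      refine add_le_add ((norm_add_le _ _).trans ?_) le_rfl
      rw [norm_neg]
    linarith
  have hmeas : ∀ z : ℂ, AEStronglyMeasurable (fun t => Carpet.ker (z - t) * φ t) volume :=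
    fun z => ((CTB_meas_ker.comp (measurable_const.sub measurable_id)).mul
      h.meas).aestronglyMeasurable
  have key := hasDerivAt_integral_of_dominated_loc_of_deriv_le (μ := (volume : Measure ℂ))
    (F := fun z t => Carpet.ker (z - t) * φ t)
    (F' := fun z t => (-(Real.pi : ℂ)⁻¹ * ((z - t) ^ 2)⁻¹) * φ t) (x₀ := z₁) (s := ball z₁ η)
    (bound := fun t => (Real.pi * η ^ 2)⁻¹ * ‖φ t‖) (ball_mem_nhds z₁ hη0)
    (Eventually.of_forall hmeas) (h.integrable' z₁) ?_ ?_ ((CTB_phi_int h).norm.const_mul _) ?_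
  · rw [hcau]
    exact key.2.differentiableAt.differentiableWithinAt
  · have h1 : Measurable fun t : ℂ => (-(Real.pi : ℂ)⁻¹ * ((z₁ - t) ^ 2)⁻¹) * φ t :=
      (measurable_const.mul (((measurable_const.sub measurable_id).pow_const 2).inv)).mul h.meas
    exact h1.aestronglyMeasurable
  · refine Eventually.of_forall fun t z hz => ?_
    by_cases ht : φ t = 0
    · rw [ht, mul_zero, norm_zero, mul_zero]
    · have h1 := hfar z hz t ht
      rw [norm_mul, norm_mul, norm_neg, norm_inv, norm_inv, Complex.norm_real,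
        Real.norm_of_nonneg Real.pi_pos.le, norm_pow, ← mul_inv]
      refine mul_le_mul_of_nonneg_right ?_ (norm_nonneg _)
      have h2 : η ^ 2 ≤ ‖z - t‖ ^ 2 := pow_le_pow_left₀ hη0.le h1 2
      have h3 : Real.pi * η ^ 2 ≤ Real.pi * ‖z - t‖ ^ 2 :=
        mul_le_mul_of_nonneg_left h2 Real.pi_pos.le
      exact inv_anti₀ (by positivity) h3
  · refine Eventually.of_forall fun t z hz => ?_
    by_cases ht : φ t = 0
    · simp only [ht, mul_zero]
      exact hasDerivAt_const z 0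
    · have h1 := hfar z hz t ht
      have h2 : z - t ≠ 0 := by
        intro h3
        rw [h3, norm_zero] at h1
        linarith
      have h3 : HasDerivAt (fun z => Carpet.ker (z - t)) (-(Real.pi : ℂ)⁻¹ * ((z - t) ^ 2)⁻¹) z := by
        have := (CTB_ker_deriv h2).comp z ((hasDerivAt_id z).sub_const t)
        rw [mul_one] at this
        exact this
      exact h3.mul_const _

end TH
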