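import Pool.Agent.H94.TH.CTA

/-!
# CTC: Cauchy transform, continuity

PROOF. `cau φ` is the uniform limit of the integrals over the complement of the ball of radius `1/(k+1)`
(the difference is `≤ M ∫_{ball} ‖ker‖`), which are continuous by dominated convergence. -/

set_option autoImplicit false

namespace TH

open Complex Metric Set Filter Topology MeasureTheory
open Pool.Agent.H51

/-- the kernel cut off near 0 -/
noncomputable def CTC_k (ε : ℝ) : ℂ → ℂ := (ball (0 : ℂ) ε)ᶜ.indicator Carpet.ker

theorem CTC_k_le {ε : ℝ} (hε : 0 < ε) (t : ℂ) : ‖CTC_k ε t‖ ≤ (Real.pi * ε)⁻¹ := by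
  unfold CTC_k
  by_cases h : t ∈ (ball (0 : ℂ) ε)ᶜ
  · rw [indicator_of_mem h]
    have h1 : ε ≤ ‖t‖ := by
      rw [mem_compl_iff, mem_ball_zero_iff, not_lt] at h
      exact h
    unfold Carpet.ker
    rw [norm_inv, norm_mul, Complex.norm_real, Real.norm_of_nonneg Real.pi_pos.le]
    have h2 : Real.pi * ε ≤ Real.pi * ‖t‖ := mul_le_mul_of_nonneg_left h1 Real.pi_pos.le
    exact inv_anti₀ (by positivity) h2
  · rw [indicator_of_notMem h, norm_zero]
    positivity

theorem CTC_k_cont {ε : ℝ} (hε : 0 < ε) {t : ℂ} (ht : ‖t‖ ≠ ε) : ContinuousAt (CTC_k ε) t := by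
  rcases ht.lt_or_gt with h | h
  · have h1 : CTC_k ε =ᶠ[𝓝 t] fun _ => 0 := by
      filter_upwards [isOpen_ball.mem_nhds (show t ∈ ball (0 : ℂ) ε by rwa [mem_ball_zero_iff])]
        with s hs
      unfold CTC_k
      rw [indicator_of_notMem]
      simpa using hs
    exact continuousAt_const.congr h1.symm
  · have h0 : t ≠ 0 := by
      intro h0
      rw [h0, norm_zero] at h
      linarith
    have h1 : CTC_k ε =ᶠ[𝓝 t] Carpet.ker := by
      have h2 : {s : ℂ | ε < ‖s‖} ∈ 𝓝 t := (isOpen_lt continuous_const continuous_norm).mem_nhds h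
      filter_upwards [h2] with s hs
      unfold CTC_k
      rw [indicator_of_mem]
      rw [mem_compl_iff, mem_ball_zero_iff, not_lt]
      exact le_of_lt hs
    refine ContinuousAt.congr ?_ h1.symm
    unfold Carpet.ker
    refine ContinuousAt.inv₀ (by fun_prop) ?_
    exact mul_ne_zero (by exact_mod_cast Real.pi_pos.ne') h0

theorem CTC_phi_int {R : ℝ} {φ : ℂ → ℂ} (h : Adm R φ) : Integrable φ := by
  obtain ⟨M, hM⟩ := h.bdd
  have h1 : IntegrableOn φ (ball (0 : ℂ) R) := by
    refine Measure.integrableOn_of_bounded (M := M) ?_ h.meas.aestronglyMeasurable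
      (Eventually.of_forall hM)
    exact measure_ball_lt_top.ne
  rw [← integrableOn_univ]
  exact (h1.of_forall_sdiff_eq_zero MeasurableSet.univ fun z hz => h.supp z hz.2)

theorem CTC_meas_ker : Measurable Carpet.ker := by
  unfold Carpet.ker
  fun_prop

theorem CTC_F_cont {R : ℝ} {φ : ℂ → ℂ} (h : Adm R φ) {ε : ℝ} (hε : 0 < ε) :
    Continuous fun z => ∫ t, CTC_k ε (z - t) * φ t := by
  rw [continuous_iff_continuousAt]
  intro z₀
  refine continuousAt_of_dominated (bound := fun t => (Real.pi * ε)⁻¹ * ‖φ t‖) ?_ ?_ ?_ ?_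
  · refine Eventually.of_forall fun z => ?_
    have h1 : Measurable (CTC_k ε) := CTC_meas_ker.indicator measurableSet_ball.compl
    exact ((h1.comp (measurable_const.sub measurable_id)).mul h.meas).aestronglyMeasurable
  · refine Eventually.of_forall fun z => Eventually.of_forall fun t => ?_
    rw [norm_mul]
    exact mul_le_mul_of_nonneg_right (CTC_k_le hε _) (norm_nonneg _)
  · exact (CTC_phi_int h).norm.const_mul _
  · have h1 : (volume : Measure ℂ) (sphere z₀ ε) = 0 := Measure.addHaar_sphere _ _ _
    have h2 : ∀ᵐ t : ℂ, t ∉ sphere z₀ ε := measure_eq_zero_iff_ae_notMem.1 h1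
    filter_upwards [h2] with t ht
    have h3 : ‖z₀ - t‖ ≠ ε := by
      intro h3
      apply ht
      rw [mem_sphere, dist_comm, dist_eq_norm]
      exact h3
    have h4 : ContinuousAt (fun z : ℂ => z - t) z₀ := by fun_prop
    exact (ContinuousAt.comp (f := fun z : ℂ => z - t) (g := CTC_k ε) (x := z₀)
      (CTC_k_cont hε h3) h4).mul continuousAt_const

theorem cau_continuous {R : ℝ} {φ : ℂ → ℂ} (h : Adm R φ) : Continuous (cau φ) := by
  obtain ⟨M, hM⟩ := h.bdd
  have hM0 : 0 ≤ M := (norm_nonneg _).trans (hM 0)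
  set e : ℕ → ℝ := fun k => 1 / ((k : ℝ) + 1) with he
  have he0 : ∀ k, 0 < e k := fun k => by simp only [he]; positivity
  -- the approximations
  have hlim : Tendsto (fun k => ∫ t in ball (0 : ℂ) (e k), ‖Carpet.ker t‖) atTop (𝓝 0) := by
    have h1 := tendsto_setIntegral_of_antitone (μ := (volume : Measure ℂ))
      (s := fun k => ball (0 : ℂ) (e k)) (f := fun t => ‖Carpet.ker t‖)
      (fun k => measurableSet_ball) (fun i j hij => ball_subset_ball (by
        simp only [he]
        gcongr)) ⟨0, (Carpet.integrableOn_ker _).norm⟩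
    have h2 : (⋂ k, ball (0 : ℂ) (e k)) = {0} := by
      ext z
      simp only [mem_iInter, mem_ball_zero_iff, mem_singleton_iff]
      constructor
      · intro hz
        by_contra hne
        have h3 : 0 < ‖z‖ := norm_pos_iff.2 hne
        obtain ⟨k, hk⟩ := exists_nat_one_div_lt h3
        exact absurd (hz k) (not_lt.2 hk.le)
      · rintro rfl k
        rw [norm_zero]
        exact he0 k
    rw [h2] at h1
    simpa using h1
  have hunif : TendstoUniformly (fun k z => ∫ t, CTC_k (e k) (z - t) * φ t) (cau φ) atTop := by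
    rw [Metric.tendstoUniformly_iff]
    intro ε hε
    have h1 : Tendsto (fun k => (∫ t in ball (0 : ℂ) (e k), ‖Carpet.ker t‖) * M) atTop (𝓝 0) := by
      simpa using hlim.mul_const M
    filter_upwards [h1.eventually_lt_const hε] with k hk z
    refine lt_of_le_of_lt ?_ hk
    have h2 : ∫ t, CTC_k (e k) (z - t) * φ t = ∫ t, CTC_k (e k) t * φ (z - t) := by
      rw [← integral_sub_left_eq_self (fun t => CTC_k (e k) t * φ (z - t)) volume z]
      refine integral_congr_ae (Eventually.of_forall fun t => ?_)
      simp only [sub_sub_cancel]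
    have h3 : ∫ t, CTC_k (e k) t * φ (z - t) =
        ∫ t in (ball (0 : ℂ) (e k))ᶜ, Carpet.ker t * φ (z - t) := by
      rw [← integral_indicator measurableSet_ball.compl]
      refine integral_congr_ae (Eventually.of_forall fun t => ?_)
      unfold CTC_k
      by_cases ht : t ∈ (ball (0 : ℂ) (e k))ᶜ
      · simp only [indicator_of_mem ht]
      · simp only [indicator_of_notMem ht, zero_mul]
    have h4 : cau φ z = (∫ t in ball (0 : ℂ) (e k), Carpet.ker t * φ (z - t)) +
        ∫ t in (ball (0 : ℂ) (e k))ᶜ, Carpet.ker t * φ (z - t) := by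
      unfold cau
      rw [integral_add_compl measurableSet_ball (h.integrable z)]
    rw [h2, h3, h4, dist_eq_norm, add_sub_cancel_right, ← integral_mul_const]
    refine norm_integral_le_of_norm_le ((Carpet.integrableOn_ker _).norm.mul_const M) ?_
    refine Eventually.of_forall fun t => ?_
    rw [norm_mul]
    exact mul_le_mul_of_nonneg_left (hM _) (norm_nonneg _)
  exact hunif.continuous (Eventually.of_forall fun k => CTC_F_cont h (he0 k)).frequently

end TH
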