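import Pool.Agent.H94.TH.CTB

/-!
# CTD: the Cauchy transform solves the d-bar equation

PROOFS.
`differentiableAt_of_dbar`: `differentiableAt_complex_iff_differentiableAt_real` and
`dbar F z = 1/2 (F_x + i F_y) = 0` iff `F_y = i F_x`; conversely `dbar_of_differentiableAt`.
`cau_dbar`: let `ψ` be a smooth real bump function equal to `1` on `ball z₀ (δ/3)`, with support in
`closedBall z₀ (2δ/3)` (`ContDiffBump`). `η = ψ φ` is `C¹` with compact support (it is `C¹` on `ball z₀ δ` and zero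
off `closedBall z₀ (2δ/3)`), so by `Pool.Agent.H51.Carpet.exists_solution`, `cau η` is `C¹` with
`dbar (cau η) = η`. `φ - η` is admissible (larger `R`) and vanishes on `ball z₀ (δ/3)`: `cau_holo`.
`cau φ = cau η + cau (φ - η)` (`cau_add`). -/

set_option autoImplicit false

namespace TH

open Complex Metric Set Filter Topology MeasureTheory ContDiff
open Pool.Agent.H51

theorem differentiableAt_of_dbar {F : ℂ → ℂ} {z : ℂ} (h : DifferentiableAt ℝ F z)
    (h0 : Carpet.dbar F z = 0) : DifferentiableAt ℂ F z := by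
  rw [differentiableAt_complex_iff_differentiableAt_real]
  refine ⟨h, ?_⟩
  unfold Carpet.dbar at h0
  have h1 : fderiv ℝ F z 1 + Complex.I * fderiv ℝ F z Complex.I = 0 := by
    rcases mul_eq_zero.1 h0 with h2 | h2
    · norm_num at h2
    · exact h2
  rw [smul_eq_mul]
  linear_combination (-Complex.I) * h1 + (fderiv ℝ F z Complex.I) * Complex.I_mul_I

theorem dbar_of_differentiableAt {F : ℂ → ℂ} {z : ℂ} (h : DifferentiableAt ℂ F z) :
    Carpet.dbar F z = 0 := by
  have h1 := (differentiableAt_complex_iff_differentiableAt_real.1 h).2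
  unfold Carpet.dbar
  rw [h1, smul_eq_mul]
  linear_combination (1 / 2 : ℂ) * fderiv ℝ F z 1 * Complex.I_mul_I

theorem cau_dbar {R : ℝ} {φ : ℂ → ℂ} (h : Adm R φ) {z₀ : ℂ} {δ : ℝ} (hδ : 0 < δ)
    (h1 : ContDiffOn ℝ 1 φ (ball z₀ δ)) :
    DifferentiableAt ℝ (cau φ) z₀ ∧ Carpet.dbar (cau φ) z₀ = φ z₀ := by
  obtain ⟨M, hM⟩ := h.bdd
  have hM0 : 0 ≤ M := (norm_nonneg _).trans (hM 0)
  let ψ : ContDiffBump z₀ := ⟨δ / 3, 2 * δ / 3, by positivity, by linarith⟩
  let η : ℂ → ℂ := fun z => ((ψ z : ℝ) : ℂ) * φ z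
  have hψ0 : ∀ z, z ∉ closedBall z₀ (2 * δ / 3) → ψ z = 0 := by
    intro z hz
    apply ψ.zero_of_le_dist
    rw [mem_closedBall, not_le] at hz
    exact hz.le
  have hη0 : ∀ z, z ∉ closedBall z₀ (2 * δ / 3) → η z = 0 := by
    intro z hz
    show ((ψ z : ℝ) : ℂ) * φ z = 0
    rw [hψ0 z hz]
    simp
  have hψ1 : ∀ z ∈ ball z₀ (δ / 3), ψ z = 1 := fun z hz =>
    ψ.one_of_mem_closedBall (ball_subset_closedBall hz)
  have hψc : ContDiff ℝ 1 (fun z => ((ψ z : ℝ) : ℂ)) :=
    Complex.ofRealCLM.contDiff.comp ψ.contDiff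
  have hηc : ContDiff ℝ 1 η := by
    rw [contDiff_iff_contDiffAt]
    intro z
    by_cases hz : z ∈ ball z₀ δ
    · exact hψc.contDiffAt.mul (h1.contDiffAt (isOpen_ball.mem_nhds hz))
    · have hz' : z ∈ (closedBall z₀ (2 * δ / 3))ᶜ := by
        intro h2
        apply hz
        rw [mem_closedBall] at h2
        rw [mem_ball]
        linarith
      have h2 : η =ᶠ[𝓝 z] fun _ => 0 := by
        filter_upwards [isClosed_closedBall.isOpen_compl.mem_nhds hz'] with w hw
        exact hη0 w hw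
      exact contDiffAt_const.congr_of_eventuallyEq h2
  have hηs : HasCompactSupport η :=
    HasCompactSupport.intro (isCompact_closedBall z₀ (2 * δ / 3)) hη0
  have hηn : ∀ z, ‖η z‖ ≤ M := by
    intro z
    show ‖((ψ z : ℝ) : ℂ) * φ z‖ ≤ M
    rw [norm_mul, Complex.norm_real, Real.norm_of_nonneg ψ.nonneg]
    calc ψ z * ‖φ z‖ ≤ 1 * M := mul_le_mul ψ.le_one (hM z) (norm_nonneg _) zero_le_one
      _ = M := one_mul M
  have hAη : Adm R η := by
    refine ⟨hηc.continuous.measurable, ⟨M, hηn⟩, fun z hz => ?_⟩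
    show ((ψ z : ℝ) : ℂ) * φ z = 0
    rw [h.supp z hz, mul_zero]
  have hAr : Adm R (fun z => φ z - η z) := by
    refine ⟨h.meas.sub hηc.continuous.measurable, ⟨M + M, fun z => ?_⟩, fun z hz => ?_⟩
    · exact (norm_sub_le _ _).trans (add_le_add (hM z) (hηn z))
    · show φ z - η z = 0
      rw [h.supp z hz, hAη.supp z hz, sub_zero]
  obtain ⟨P, hP1, hP2, hP3⟩ := Carpet.exists_solution η hηc hηs
  have hcη : cau η = P := by
    funext z
    exact (hP3 z).symm
  have hr0 : ∀ z ∈ ball z₀ (δ / 3), (fun z => φ z - η z) z = 0 := by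
    intro z hz
    show φ z - ((ψ z : ℝ) : ℂ) * φ z = 0
    rw [hψ1 z hz]
    simp
  have hz0 : z₀ ∈ ball z₀ (δ / 3) := mem_ball_self (by positivity)
  have hd2 : DifferentiableAt ℂ (cau (fun z => φ z - η z)) z₀ :=
    (cau_holo hAr hr0).differentiableAt (isOpen_ball.mem_nhds hz0)
  have hd1 : DifferentiableAt ℝ (cau η) z₀ := by
    rw [hcη]
    exact hP1.differentiable (by norm_num) z₀
  have hd2' : DifferentiableAt ℝ (cau (fun z => φ z - η z)) z₀ :=
    (differentiableAt_complex_iff_differentiableAt_real.1 hd2).1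
  have hsum : cau φ = fun z => cau η z + cau (fun z => φ z - η z) z := by
    funext z
    rw [← cau_add hAη hAr]
    congr 1
    funext t
    ring
  rw [hsum]
  refine ⟨hd1.add hd2', ?_⟩
  rw [Carpet.dbar_add hd1 hd2', dbar_of_differentiableAt hd2, hcη, hP2, add_zero]
  show ((ψ z₀ : ℝ) : ℂ) * φ z₀ = φ z₀
  rw [hψ1 z₀ hz0]
  simp

end TH
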