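import Pool.Agent.H94.TH.Bas
import Pool.Agent.H94.TH.CE

/-!
# EVJ: joint continuity and holomorphy of `(z, y) ↦ ev (a y) z`

PROOFS.
`ev_cont`: `‖ev (a y) z - ev (a y₀) z₀‖ ≤ ‖a y - a y₀‖ + ‖ev (a y₀) z - ev (a y₀) z₀‖` (`ev_sub`, `norm_ev_le`,
`ev_continuousOn`).
`ev_holo`: candidate derivative `(ζ, δ) ↦ ζ • deriv (ev (a y₀)) z₀ + ev (a' δ) z₀`, `a' = fderiv ℂ a y₀`
(a CLM: `evL z₀ ∘ a'`). Write
`ev (a y) z - ev (a y₀) z₀ - ζ • deriv .. - ev (a' δ) z₀`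
`= [ev (a y₀) z - ev (a y₀) z₀ - ζ • deriv (ev (a y₀)) z₀] + [ev (a y - a y₀ - a' δ) z] + [ev (a' δ) z - ev (a' δ) z₀]`
with `z = z₀ + ζ`, `y = y₀ + δ`. First `o(ζ)`, second `≤ ‖a y - a y₀ - a' δ‖ = o(δ)`, third: for
`closedBall z₀ (2 ε) ⊆ interior S`, every `g : HA A E` has `‖ev g z - ev g z₀‖ ≤ ‖g‖/ε ‖z - z₀‖` on
`ball z₀ ε` (`norm_fderiv_le` + mean value inequality), so it is `≤ ‖a'‖ ‖δ‖ ‖ζ‖/ε = o(‖(ζ, δ)‖)`. -/

set_option autoImplicit false

namespace TH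

open Complex Metric Set Filter Topology ContDiff Asymptotics
open KB (V)

variable {n : ℕ} {E : Type} [NormedAddCommGroup E] [NormedSpace ℂ E]

theorem ev_cont {A : Set ℂ} [CompactSpace A] {a : V n → HA A E} {r : ℝ}
    (ha : ContinuousOn a (ball 0 r)) :
    ContinuousOn (fun p : ℂ × V n => ev (a p.2) p.1) (A ×ˢ ball 0 r) := by
  rintro ⟨z₀, y₀⟩ ⟨hz₀, hy₀⟩
  simp only at hz₀ hy₀
  have h1 : Tendsto (fun p : ℂ × V n => a p.2) (𝓝[A ×ˢ ball 0 r] (z₀, y₀)) (𝓝 (a y₀)) := by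
    have h2 : Tendsto (fun p : ℂ × V n => p.2) (𝓝[A ×ˢ ball 0 r] (z₀, y₀)) (𝓝[ball 0 r] y₀) := by
      refine tendsto_nhdsWithin_iff.2 ⟨continuous_snd.continuousAt.mono_left nhdsWithin_le_nhds, ?_⟩
      filter_upwards [self_mem_nhdsWithin] with p hp
      exact hp.2
    exact (ha y₀ hy₀).tendsto.comp h2
  have h3 : Tendsto (fun p : ℂ × V n => ev (a y₀) p.1) (𝓝[A ×ˢ ball 0 r] (z₀, y₀))
      (𝓝 (ev (a y₀) z₀)) := by
    have h2 : Tendsto (fun p : ℂ × V n => p.1) (𝓝[A ×ˢ ball 0 r] (z₀, y₀)) (𝓝[A] z₀) := by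
      refine tendsto_nhdsWithin_iff.2 ⟨continuous_fst.continuousAt.mono_left nhdsWithin_le_nhds, ?_⟩
      filter_upwards [self_mem_nhdsWithin] with p hp
      exact hp.1
    exact (ev_continuousOn (a y₀) z₀ hz₀).tendsto.comp h2
  have h4 : Tendsto (fun p : ℂ × V n => ev (a p.2 - a y₀) p.1) (𝓝[A ×ˢ ball 0 r] (z₀, y₀))
      (𝓝 0) := by
    have h5 : Tendsto (fun p : ℂ × V n => ‖a p.2 - a y₀‖) (𝓝[A ×ˢ ball 0 r] (z₀, y₀)) (𝓝 0) :=
      tendsto_iff_norm_sub_tendsto_zero.1 h1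
    exact squeeze_zero_norm (fun p => norm_ev_le _ _) h5
  have h6 := h4.add h3
  rw [zero_add] at h6
  refine h6.congr ?_
  intro p
  rw [ev_sub, sub_add_cancel]

/-- Lipschitz estimate near an interior point, uniform in `g` -/
theorem EVJ_lip {A : Set ℂ} [CompactSpace A] {z₀ : ℂ} (hz₀ : z₀ ∈ interior A) :
    ∃ ε > 0, ∀ g : HA A E, ∀ z ∈ ball z₀ ε, ‖ev g z - ev g z₀‖ ≤ ‖g‖ / ε * ‖z - z₀‖ := by
  obtain ⟨d, hd, hsub⟩ := Metric.isOpen_iff.1 isOpen_interior z₀ hz₀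
  refine ⟨d / 2, by positivity, fun g z hz => ?_⟩
  have hdiff : ∀ x ∈ ball z₀ (d / 2), DifferentiableAt ℂ (ev g) x := fun x hx =>
    ev_differentiableAt g (hsub (ball_subset_ball (by linarith) hx))
  have hb : ∀ x ∈ ball z₀ (d / 2), ‖fderiv ℂ (ev g) x‖ ≤ ‖g‖ / (d / 2) := by
    intro x hx
    refine norm_fderiv_le (by positivity) ?_ (fun w _ => norm_ev_le g w)
    intro y hy
    refine (ev_differentiableAt g (hsub ?_)).differentiableWithinAt
    rw [mem_ball] at *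
    linarith [dist_triangle y x z₀]
  exact (convex_ball z₀ (d / 2)).norm_image_sub_le_of_norm_fderiv_le hdiff hb
    (mem_ball_self (by positivity)) hz

theorem ev_holo {A : Set ℂ} [CompactSpace A] {a : V n → HA A E} {y₀ : V n}
    (ha : DifferentiableAt ℂ a y₀) {z₀ : ℂ} (hz₀ : z₀ ∈ interior A) :
    DifferentiableAt ℂ (fun p : ℂ × V n => ev (a p.2) p.1) (z₀, y₀) := by
  obtain ⟨ε, hε, hlip⟩ := EVJ_lip (E := E) hz₀
  set a' : V n →L[ℂ] HA A E := fderiv ℂ a y₀ with ha'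
  have hd1 : HasFDerivAt a a' y₀ := ha.hasFDerivAt
  have hd2 : HasFDerivAt (ev (a y₀)) (fderiv ℂ (ev (a y₀)) z₀) z₀ :=
    (ev_differentiableAt (a y₀) hz₀).hasFDerivAt
  set D : ℂ →L[ℂ] E := fderiv ℂ (ev (a y₀)) z₀ with hD
  let L : ℂ × V n →L[ℂ] E := D.comp (ContinuousLinearMap.fst ℂ ℂ (V n)) +
    (evL z₀).comp (a'.comp (ContinuousLinearMap.snd ℂ ℂ (V n)))
  have hmain : HasFDerivAt (fun p : ℂ × V n => ev (a p.2) p.1) L (z₀, y₀) := by
    rw [hasFDerivAt_iff_isLittleO_nhds_zero]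
    have e : ∀ h : ℂ × V n, ev (a ((z₀, y₀) + h).2) ((z₀, y₀) + h).1 - ev (a (z₀, y₀).2) (z₀, y₀).1
        - L h = (ev (a y₀) (z₀ + h.1) - ev (a y₀) z₀ - D h.1) +
          (ev (a (y₀ + h.2) - a y₀ - a' h.2) (z₀ + h.1) +
          (ev (a' h.2) (z₀ + h.1) - ev (a' h.2) z₀)) := by
      intro h
      simp only [L, Prod.fst_add, Prod.snd_add, ContinuousLinearMap.add_apply,
        ContinuousLinearMap.comp_apply, ContinuousLinearMap.coe_fst', ContinuousLinearMap.coe_snd',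
        evL_apply, ev_sub]
      abel
    have hfun : (fun h : ℂ × V n => ev (a ((z₀, y₀) + h).2) ((z₀, y₀) + h).1
        - ev (a (z₀, y₀).2) (z₀, y₀).1 - L h) = fun h : ℂ × V n =>
        (ev (a y₀) (z₀ + h.1) - ev (a y₀) z₀ - D h.1) +
          (ev (a (y₀ + h.2) - a y₀ - a' h.2) (z₀ + h.1) +
          (ev (a' h.2) (z₀ + h.1) - ev (a' h.2) z₀)) := funext e
    rw [hfun]
    have o1 : (fun h : ℂ × V n => ev (a y₀) (z₀ + h.1) - ev (a y₀) z₀ - D h.1) =o[𝓝 0]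
        fun h : ℂ × V n => h := by
      have h1 := (hasFDerivAt_iff_isLittleO_nhds_zero.1 hd2)
      have h2 : Tendsto (fun h : ℂ × V n => h.1) (𝓝 0) (𝓝 0) := by
        have := (continuous_fst (X := ℂ) (Y := V n)).tendsto 0
        simpa using this
      have h3 := h1.comp_tendsto h2
      refine h3.trans_isBigO ?_
      exact isBigO_fst_prod'
    have o2 : (fun h : ℂ × V n => ev (a (y₀ + h.2) - a y₀ - a' h.2) (z₀ + h.1)) =o[𝓝 0]
        fun h : ℂ × V n => h := by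
      have h1 := (hasFDerivAt_iff_isLittleO_nhds_zero.1 hd1)
      have h2 : Tendsto (fun h : ℂ × V n => h.2) (𝓝 0) (𝓝 0) := by
        have := (continuous_snd (X := ℂ) (Y := V n)).tendsto 0
        simpa using this
      have h3 := h1.comp_tendsto h2
      have h4 : (fun h : ℂ × V n => a (y₀ + h.2) - a y₀ - a' h.2) =o[𝓝 0]
          fun h : ℂ × V n => h := by
        refine h3.trans_isBigO ?_
        exact isBigO_snd_prod'
      refine IsBigO.trans_isLittleO ?_ h4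
      exact IsBigO.of_bound 1 (Eventually.of_forall fun h => by
        rw [one_mul]; exact norm_ev_le _ _)
    have o3 : (fun h : ℂ × V n => ev (a' h.2) (z₀ + h.1) - ev (a' h.2) z₀) =o[𝓝 0]
        fun h : ℂ × V n => h := by
      have h1 : (fun h : ℂ × V n => ev (a' h.2) (z₀ + h.1) - ev (a' h.2) z₀) =O[𝓝 0]
          fun h : ℂ × V n => ‖h‖ ^ 2 := by
        refine IsBigO.of_bound (‖a'‖ / ε) ?_
        have h2 : ∀ᶠ h : ℂ × V n in 𝓝 0, ‖h‖ < ε := by
          have := (continuous_norm (E := ℂ × V n)).tendsto 0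
          rw [norm_zero] at this
          exact this.eventually (gt_mem_nhds hε)
        filter_upwards [h2] with h hh
        have h3 : z₀ + h.1 ∈ ball z₀ ε := by
          rw [mem_ball, dist_eq_norm, add_sub_cancel_left]
          exact lt_of_le_of_lt (norm_fst_le h) hh
        refine (hlip (a' h.2) _ h3).trans ?_
        rw [add_sub_cancel_left, norm_pow, norm_norm]
        have h4 : ‖a' h.2‖ ≤ ‖a'‖ * ‖h‖ := (a'.le_opNorm _).trans
          (mul_le_mul_of_nonneg_left (norm_snd_le h) (norm_nonneg _))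
        calc ‖a' h.2‖ / ε * ‖h.1‖ ≤ (‖a'‖ * ‖h‖) / ε * ‖h‖ := by
              refine mul_le_mul ?_ (norm_fst_le h) (norm_nonneg _) (by positivity)
              exact div_le_div_of_nonneg_right h4 hε.le
          _ = ‖a'‖ / ε * ‖h‖ ^ 2 := by ring
      refine h1.trans_isLittleO ?_
      have h4 : (fun x : ℝ => x ^ 2) =o[𝓝 0] fun x : ℝ => x := by
        simpa using isLittleO_pow_id (𝕜 := ℝ) (by norm_num : 1 < 2)
      have h5 : Tendsto (fun h : ℂ × V n => ‖h‖) (𝓝 0) (𝓝 0) := by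
        have := (continuous_norm (E := ℂ × V n)).tendsto 0
        rwa [norm_zero] at this
      exact (h4.comp_tendsto h5).trans_isBigO (isBigO_refl _ _).norm_left
    exact o1.add (o2.add o3)
  exact hmain.differentiableAt

end TH
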