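import Pool.Agent.H94.TH.Bas
import Pool.Agent.H94.TH.CE

/-!
# FDC: joint continuity of the derivative along the fibres

PROOFS.
`fib_bound`: `T ×ˢ closedBall 0 r'` is compact (`V n` is proper), `IsCompact.exists_bound_of_continuousOn`.
`fdc`: fix `(z₀, w₀)`, `z₀ ∈ T`, `‖w₀‖ < r`, `d = (r - ‖w₀‖)/2`. For `z ∈ T` and `w ∈ ball w₀ (d/2)`:
`‖fderiv (q z) w - fderiv (q z₀) w‖ = ‖fderiv (q z - q z₀) w‖ ≤ sup_{ball w₀ d} ‖q z u - q z₀ u‖ / (d/2)`
(`norm_fderiv_le` on `ball w (d/2) ⊆ ball w₀ d`), and the sup is small for `z` close to `z₀` since `q` is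
uniformly continuous on the compact set `T ×ˢ closedBall w₀ d`
(`IsCompact.uniformContinuousOn_of_continuous`). Moreover `w ↦ fderiv (q z₀) w` is continuous at `w₀`
(`contDiffOn_one`). -/

set_option autoImplicit false

namespace TH

open Complex Metric Set Filter Topology ContDiff
open KB (V)

variable {n : ℕ} {E : Type} [NormedAddCommGroup E] [NormedSpace ℂ E]

theorem fib_bound {T : Set ℂ} (hT : IsCompact T) {q : ℂ → V n → E} {r r' : ℝ} (hr : r' < r)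
    (hc : ContinuousOn (fun p : ℂ × V n => q p.1 p.2) (T ×ˢ ball 0 r)) :
    ∃ M > 0, ∀ z ∈ T, ∀ w ∈ closedBall (0 : V n) r', ‖q z w‖ ≤ M := by
  have hK : IsCompact (T ×ˢ closedBall (0 : V n) r') := hT.prod (isCompact_closedBall 0 r')
  obtain ⟨M, hM⟩ := hK.exists_bound_of_continuousOn
    (hc.mono (prod_mono Subset.rfl (closedBall_subset_ball hr)))
  exact ⟨max M 1, lt_max_of_lt_right one_pos, fun z hz w hw =>
    (hM (z, w) ⟨hz, hw⟩).trans (le_max_left _ _)⟩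

theorem fdc {T : Set ℂ} (hT : IsCompact T) {q : ℂ → V n → E} {r : ℝ}
    (hc : ContinuousOn (fun p : ℂ × V n => q p.1 p.2) (T ×ˢ ball 0 r))
    (hd : ∀ z ∈ T, DifferentiableOn ℂ (q z) (ball 0 r)) :
    ContinuousOn (fun p : ℂ × V n => fderiv ℂ (q p.1) p.2) (T ×ˢ ball 0 r) := by
  rintro ⟨z₀, w₀⟩ ⟨hz₀, hw₀⟩
  have hw₀' : ‖w₀‖ < r := mem_ball_zero_iff.1 hw₀
  obtain ⟨d, hd'⟩ : ∃ d, d = (r - ‖w₀‖) / 2 := ⟨_, rfl⟩
  have hd0 : 0 < d := by rw [hd']; linarith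
  have hsub : closedBall w₀ d ⊆ ball (0 : V n) r := by
    intro u hu
    rw [mem_closedBall, dist_eq_norm] at hu
    rw [mem_ball_zero_iff]
    calc ‖u‖ = ‖(u - w₀) + w₀‖ := by rw [sub_add_cancel]
      _ ≤ ‖u - w₀‖ + ‖w₀‖ := norm_add_le _ _
      _ < r := by linarith
  have hK : IsCompact (T ×ˢ closedBall w₀ d) := hT.prod (isCompact_closedBall w₀ d)
  have huc := hK.uniformContinuousOn_of_continuous (hc.mono (prod_mono Subset.rfl hsub))
  rw [Metric.uniformContinuousOn_iff] at huc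
  have hfc : ContinuousOn (fderiv ℂ (q z₀)) (ball 0 r) :=
    (contDiffOn_one isOpen_ball (hd z₀ hz₀)).continuousOn_fderiv_of_isOpen isOpen_ball le_rfl
  have hfc' := hfc.continuousAt (isOpen_ball.mem_nhds hw₀)
  rw [Metric.continuousAt_iff] at hfc'
  rw [Metric.continuousWithinAt_iff]
  intro ε hε
  obtain ⟨δ₁, hδ₁, h1⟩ := huc (ε / 4 * d) (by positivity)
  obtain ⟨δ₂, hδ₂, h2⟩ := hfc' (ε / 2) (by positivity)
  refine ⟨min δ₁ (min δ₂ (d / 2)), by positivity, ?_⟩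
  rintro ⟨z, w⟩ ⟨hz, hw⟩ hdist
  rw [Prod.dist_eq, max_lt_iff] at hdist
  obtain ⟨e1, e2⟩ := hdist
  simp only [lt_min_iff] at e1 e2
  have h3 := h2 e2.2.1
  have hbw : ball w (d / 2) ⊆ closedBall w₀ d := by
    intro u hu
    rw [mem_ball] at hu
    rw [mem_closedBall]
    calc dist u w₀ ≤ dist u w + dist w w₀ := dist_triangle _ _ _
      _ ≤ d := by linarith [e2.2.2]
  have hbw' : ball w (d / 2) ⊆ ball (0 : V n) r := hbw.trans hsub
  have hqz : DifferentiableAt ℂ (q z) w := (hd z hz).differentiableAt (isOpen_ball.mem_nhds hw)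
  have hqz₀ : DifferentiableAt ℂ (q z₀) w := (hd z₀ hz₀).differentiableAt (isOpen_ball.mem_nhds hw)
  have h4 : ‖fderiv ℂ (fun u => q z u - q z₀ u) w‖ ≤ ε / 4 * d / (d / 2) := by
    refine norm_fderiv_le (by positivity) (((hd z hz).mono hbw').sub ((hd z₀ hz₀).mono hbw')) ?_
    intro u hu
    have h5 := h1 (z, u) ⟨hz, hbw hu⟩ (z₀, u) ⟨hz₀, hbw hu⟩ (by
      rw [Prod.dist_eq, dist_self, max_lt_iff]
      exact ⟨e1.1, hδ₁⟩)
    rw [dist_eq_norm] at h5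
    exact h5.le
  have h6 : fderiv ℂ (fun u => q z u - q z₀ u) w = fderiv ℂ (q z) w - fderiv ℂ (q z₀) w :=
    fderiv_fun_sub hqz hqz₀
  have h7 : ε / 4 * d / (d / 2) = ε / 2 := by
    field_simp
    ring
  rw [h6, h7] at h4
  calc dist (fderiv ℂ (q z) w) (fderiv ℂ (q z₀) w₀)
      ≤ dist (fderiv ℂ (q z) w) (fderiv ℂ (q z₀) w) +
        dist (fderiv ℂ (q z₀) w) (fderiv ℂ (q z₀) w₀) := dist_triangle _ _ _
    _ < ε / 2 + ε / 2 := by
        rw [dist_eq_norm (fderiv ℂ (q z) w)]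
        exact add_lt_add_of_le_of_lt h4 h3
    _ = ε := by ring

end TH
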