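import Pool.Agent.H94.TH.FDC

/-!
# FDH: compositions `z ↦ q z (g z)` and derivatives along a section

PROOFS.
`fcomp`: `exists_HA`: `z ↦ q z (ev g z)` is continuous on `S` (composition of `hq.cont` with
`z ↦ (z, ev g z)`, `ev_continuousOn`) and differentiable at the interior points (`hq.holo`,
`ev_differentiableAt`).
`fdh`: `exists_HA` for `z ↦ fderiv ℂ (q z) (ev g z)`. Continuity on `S`: `fdc` (`S` compact:
`isCompact_iff_compactSpace`). Holomorphy on `interior S`: by `contDiffOn_clm_apply` (file
`Mathlib/Analysis/Calculus/ContDiff/FiniteDimension.lean`; `V n` is finite dimensional;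
`DifferentiableOn.contDiffOn` for open subsets of `ℂ`) it is enough that
`F z = fderiv ℂ (q z) (ev g z) v` is holomorphic on `interior S` for each `v : V n`. The image of the compact
set `S` under `ev g` is in `closedBall 0 r₁` for some `r₁ < r`; let `d = (r - r₁)/2`. For `k : ℕ`, `k` large,
`F_k z = k • (q z (ev g z + (1/k) • v) - q z (ev g z))` is holomorphic on `interior S`, and by `taylor2` with
centre `ev g z`, radius `d`, `M` from `fib_bound` (with `r' = r₁ + d`),
`‖F_k z - F z‖ ≤ 8 M/d² * ‖v‖²/k`, so `F_k → F` uniformly: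
`TendstoLocallyUniformlyOn.differentiableOn`. -/

set_option autoImplicit false

namespace TH

open Complex Metric Set Filter Topology ContDiff
open KB (V)

variable {n : ℕ} {E : Type} [NormedAddCommGroup E] [NormedSpace ℂ E]

theorem fcomp {S : Set ℂ} {q : ℂ → V n → E} {r : ℝ} (hq : Fib S r q) (g : HA S (V n))
    (hg : ∀ z ∈ S, ev g z ∈ ball (0 : V n) r) :
    ∃ h : HA S E, ∀ z ∈ S, ev h z = q z (ev g z) := by
  apply exists_HA (f := fun z => q z (ev g z))
  · exact hq.cont.comp (f := fun z => ((z, ev g z) : ℂ × V n))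
      (continuousOn_id.prodMk (ev_continuousOn g)) (fun z hz => ⟨hz, hg z hz⟩)
  · intro z hz
    have h1 := hq.holo z hz _ (hg z (interior_subset hz))
    have h2 : DifferentiableAt ℂ (fun z => ((z, ev g z) : ℂ × V n)) z :=
      differentiableAt_id.prodMk (ev_differentiableAt g hz)
    exact (DifferentiableAt.comp (f := fun z => ((z, ev g z) : ℂ × V n)) z h1 h2).differentiableWithinAt

theorem fdh [CompleteSpace E] {S : Set ℂ} [CompactSpace S] {q : ℂ → V n → E} {r : ℝ}
    (hq : Fib S r q) (g : HA S (V n)) (hg : ∀ z ∈ S, ev g z ∈ ball (0 : V n) r) :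
    ∃ D : HA S (V n →L[ℂ] E), ∀ z ∈ S, ev D z = fderiv ℂ (q z) (ev g z) := by
  have hSc : IsCompact S := isCompact_iff_compactSpace.2 inferInstance
  have hd0 : ∀ z ∈ S, DifferentiableOn ℂ (q z) (ball 0 r) :=
    fun z hz y hy => (hq.holy z hz y hy).differentiableWithinAt
  apply exists_HA (f := fun z => fderiv ℂ (q z) (ev g z))
  · exact (fdc hSc hq.cont hd0).comp (f := fun z => ((z, ev g z) : ℂ × V n))
      (continuousOn_id.prodMk (ev_continuousOn g)) (fun z hz => ⟨hz, hg z hz⟩)
  · rcases S.eq_empty_or_nonempty with hSe | hSne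
    · subst hSe
      rw [interior_empty]
      exact differentiableOn_empty
    obtain ⟨z₁, hz₁, hmax⟩ := hSc.exists_isMaxOn hSne (ev_continuousOn g).norm
    set r₁ : ℝ := ‖ev g z₁‖ with hr₁
    have hr₁r : r₁ < r := by simpa using hg z₁ hz₁
    have hle : ∀ z ∈ S, ‖ev g z‖ ≤ r₁ := fun z hz => hmax hz
    set d : ℝ := (r - r₁) / 2 with hd
    have hdpos : 0 < d := by rw [hd]; linarith
    obtain ⟨M, hM, hMb⟩ := fib_bound hSc (r' := r₁ + d) (by rw [hd]; linarith) hq.cont
    have key : ∀ z ∈ S, ∀ δ : V n, ‖δ‖ < d / 4 →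
        ‖q z (ev g z + δ) - q z (ev g z) - fderiv ℂ (q z) (ev g z) δ‖ ≤ 8 * M / d ^ 2 * ‖δ‖ ^ 2 := by
      intro z hz δ hδ
      apply taylor2 (w₀ := ev g z) hdpos
      · apply (hd0 z hz).mono
        intro w hw
        rw [mem_ball_zero_iff]
        rw [mem_ball, dist_eq_norm] at hw
        have h3 : ‖w‖ ≤ ‖w - ev g z‖ + ‖ev g z‖ := by
          simpa using norm_add_le (w - ev g z) (ev g z)
        have := hle z hz
        rw [hd] at hw
        linarith
      · intro w hw
        apply hMb z hz
        rw [mem_closedBall_zero_iff]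
        rw [mem_ball, dist_eq_norm] at hw
        have h3 : ‖w‖ ≤ ‖w - ev g z‖ + ‖ev g z‖ := by
          simpa using norm_add_le (w - ev g z) (ev g z)
        have := hle z hz
        linarith
      · rw [mem_ball, dist_self]
        linarith
      · rw [mem_ball, dist_eq_norm, add_sub_cancel_left]
        exact hδ
    have hF : ∀ v : V n, DifferentiableOn ℂ (fun z => fderiv ℂ (q z) (ev g z) v) (interior S) := by
      intro v
      have hev : ∀ᶠ k : ℕ in atTop, ‖((1 / (k : ℂ)) • v : V n)‖ < d / 4 ∧ (0 : ℝ) < k := by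
        have h1 : ∀ᶠ k : ℕ in atTop, 4 * ‖v‖ / d < (k : ℝ) :=
          tendsto_natCast_atTop_atTop.eventually_gt_atTop _
        filter_upwards [h1, eventually_gt_atTop 0] with k hk hk0
        have hk0' : (0 : ℝ) < k := Nat.cast_pos.2 hk0
        refine ⟨?_, hk0'⟩
        rw [norm_smul, norm_div, norm_one, Complex.norm_natCast, div_mul_eq_mul_div, one_mul,
          div_lt_iff₀ hk0']
        rw [div_lt_iff₀ hdpos] at hk
        nlinarith
      have hU : TendstoUniformlyOn
          (fun (k : ℕ) z => (k : ℂ) • (q z (ev g z + (1 / (k : ℂ)) • v) - q z (ev g z)))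
          (fun z => fderiv ℂ (q z) (ev g z) v) atTop (interior S) := by
        rw [Metric.tendstoUniformlyOn_iff]
        intro ε hε
        have h1 : ∀ᶠ k : ℕ in atTop, 8 * M / d ^ 2 * ‖v‖ ^ 2 / ε < (k : ℝ) :=
          tendsto_natCast_atTop_atTop.eventually_gt_atTop _
        filter_upwards [hev, h1] with k hk hk1 z hz
        obtain ⟨hk2, hk0⟩ := hk
        have hk0c : (k : ℂ) ≠ 0 := by
          intro h
          rw [Nat.cast_eq_zero] at h
          rw [h] at hk0
          simp at hk0
        have h2 := key z (interior_subset hz) _ hk2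
        rw [dist_eq_norm, ← norm_neg]
        have e1 : -(fderiv ℂ (q z) (ev g z) v -
            (k : ℂ) • (q z (ev g z + (1 / (k : ℂ)) • v) - q z (ev g z))) =
            (k : ℂ) • (q z (ev g z + (1 / (k : ℂ)) • v) - q z (ev g z) -
              fderiv ℂ (q z) (ev g z) ((1 / (k : ℂ)) • v)) := by
          rw [map_smul, smul_sub (k : ℂ) (q z (ev g z + (1 / (k : ℂ)) • v) - q z (ev g z)),
            smul_smul, mul_one_div_cancel hk0c, one_smul]
          abel
        rw [e1, norm_smul, Complex.norm_natCast]
        have h3 : ‖((1 / (k : ℂ)) • v : V n)‖ = ‖v‖ / k := by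
          rw [norm_smul, norm_div, norm_one, Complex.norm_natCast, div_mul_eq_mul_div, one_mul]
        rw [h3] at h2
        rw [div_lt_iff₀ hε] at hk1
        calc (k : ℝ) * ‖q z (ev g z + (1 / (k : ℂ)) • v) - q z (ev g z) -
              fderiv ℂ (q z) (ev g z) ((1 / (k : ℂ)) • v)‖
            ≤ k * (8 * M / d ^ 2 * (‖v‖ / k) ^ 2) := mul_le_mul_of_nonneg_left h2 hk0.le
          _ = 8 * M / d ^ 2 * ‖v‖ ^ 2 / k := by field_simp
          _ < ε := by
            rw [div_lt_iff₀ hk0]
            linarith
      refine hU.tendstoLocallyUniformlyOn.differentiableOn ?_ isOpen_interior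
      filter_upwards [hev] with k hk
      intro z hz
      have hzS := interior_subset hz
      have hb : ev g z + (1 / (k : ℂ)) • v ∈ ball (0 : V n) r := by
        rw [mem_ball_zero_iff]
        have h4 := norm_add_le (ev g z) ((1 / (k : ℂ)) • v)
        have h5 := hle z hzS
        have h6 := hk.1
        have h7 : d / 4 < r - r₁ := by rw [hd]; linarith
        linarith
      have h1 := hq.holo z hz _ (hg z hzS)
      have h2 : DifferentiableAt ℂ (fun z => ((z, ev g z) : ℂ × V n)) z :=
        differentiableAt_id.prodMk (ev_differentiableAt g hz)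
      have h3 := hq.holo z hz _ hb
      have h4 : DifferentiableAt ℂ (fun z => ((z, ev g z + (1 / (k : ℂ)) • v) : ℂ × V n)) z :=
        differentiableAt_id.prodMk ((ev_differentiableAt g hz).add_const _)
      have h5 := DifferentiableAt.comp (f := fun z => ((z, ev g z) : ℂ × V n)) z h1 h2
      have h6 := DifferentiableAt.comp (f := fun z => ((z, ev g z + (1 / (k : ℂ)) • v) : ℂ × V n))
        z h3 h4
      exact ((h6.sub h5).const_smul (k : ℂ)).differentiableWithinAt
    have hC : ContDiffOn ℂ 1 (fun z => fderiv ℂ (q z) (ev g z)) (interior S) := by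
      rw [contDiffOn_clm_apply]
      intro v
      exact (hF v).contDiffOn isOpen_interior
    exact hC.differentiableOn one_ne_zero

end TH
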