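import Pool.Agent.H94.TH.GLU
import Pool.Agent.H94.TH.CHB

/-! # FIN: induction over a grid, existence of thickenings -/

set_option autoImplicit false

namespace TH

open Complex Metric Set Filter Topology Manifold ContDiff
open KB (V)

theorem ind1 {P : ℝ → ℝ → Prop} {δ : ℝ} (hδ : 0 < δ) (hs : ∀ a b, b - a ≤ δ → P a b)
    (hg : ∀ a b s t, a ≤ s → s < t → t ≤ b → P a t → P s b → P a b) : ∀ a b, P a b := by
  have key : ∀ k : ℕ, ∀ a b, b - a ≤ (k + 1) * (δ / 2) → P a b := by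
    intro k
    induction k with
    | zero =>
      intro a b h
      exact hs a b (by push_cast at h; linarith)
    | succ k ih =>
      intro a b h
      by_cases h1 : b - a ≤ δ
      · exact hs a b h1
      · push Not at h1
        refine hg a b (b - δ) (b - δ / 2) (by linarith) (by linarith) (by linarith) ?_ ?_
        · apply ih
          push_cast at h
          linarith
        · exact hs _ _ (by linarith)
  intro a b
  obtain ⟨k, hk⟩ := exists_nat_gt ((b - a) / (δ / 2))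
  refine key k a b ?_
  rw [div_lt_iff₀ (by positivity)] at hk
  have h2 : (0 : ℝ) < δ / 2 := by positivity
  nlinarith

/-- rectangles in the closed disc -/
def rect (a b c d : ℝ) : Set ℂ :=
  {z ∈ closedBall (0 : ℂ) 1 | (a ≤ z.re ∧ z.re ≤ b) ∧ (c ≤ z.im ∧ z.im ≤ d)}

theorem isCompact_rect (a b c d : ℝ) : IsCompact (rect a b c d) := by
  have h : rect a b c d = closedBall (0 : ℂ) 1 ∩ ({z | a ≤ z.re} ∩ {z | z.re ≤ b} ∩
      ({z | c ≤ z.im} ∩ {z | z.im ≤ d})) := by
    ext z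
    simp only [rect, mem_ofPred_eq, mem_inter_iff]
  rw [h]
  refine (isCompact_closedBall _ _).inter_right ?_
  exact (((isClosed_le continuous_const continuous_re).inter
    (isClosed_le continuous_re continuous_const)).inter
    ((isClosed_le continuous_const continuous_im).inter
    (isClosed_le continuous_im continuous_const)))

theorem convex_rect (a b c d : ℝ) : Convex ℝ (rect a b c d) := by
  have h : rect a b c d = closedBall (0 : ℂ) 1 ∩ ({z | a ≤ z.re} ∩ {z | z.re ≤ b} ∩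
      ({z | c ≤ z.im} ∩ {z | z.im ≤ d})) := by
    ext z
    simp only [rect, mem_ofPred_eq, mem_inter_iff]
  rw [h]
  exact (convex_closedBall _ _).inter (((convex_halfSpace_re_ge a).inter
    (convex_halfSpace_re_le b)).inter ((convex_halfSpace_im_ge c).inter
    (convex_halfSpace_im_le d)))

theorem rect_sub (a b c d : ℝ) : rect a b c d ⊆ closedBall (0 : ℂ) 1 := fun _ hz => hz.1

theorem lo_rect_re {a b c d t : ℝ} (h : t ≤ b) : lo (rect a b c d) 1 t = rect a t c d := by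
  ext z
  simp only [lo, rect, mem_ofPred_eq, one_mul]
  constructor
  · rintro ⟨⟨h1, ⟨h2, h3⟩, h4⟩, h5⟩
    exact ⟨h1, ⟨h2, h5⟩, h4⟩
  · rintro ⟨h1, ⟨h2, h3⟩, h4⟩
    exact ⟨⟨h1, ⟨h2, h3.trans h⟩, h4⟩, h3⟩

theorem hi_rect_re {a b c d s : ℝ} (h : a ≤ s) : hi (rect a b c d) 1 s = rect s b c d := by
  ext z
  simp only [hi, rect, mem_ofPred_eq, one_mul]
  constructor
  · rintro ⟨⟨h1, ⟨h2, h3⟩, h4⟩, h5⟩
    exact ⟨h1, ⟨h5, h3⟩, h4⟩
  · rintro ⟨h1, ⟨h2, h3⟩, h4⟩
    exact ⟨⟨h1, ⟨h.trans h2, h3⟩, h4⟩, h2⟩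

theorem lo_rect_im {a b c d t : ℝ} (h : t ≤ d) :
    lo (rect a b c d) (-Complex.I) t = rect a b c t := by
  ext z
  simp only [lo, rect, mem_ofPred_eq]
  have e : (-Complex.I * z).re = z.im := by simp
  rw [e]
  constructor
  · rintro ⟨⟨h1, h2, h3, h4⟩, h5⟩
    exact ⟨h1, h2, h3, h5⟩
  · rintro ⟨h1, h2, h3, h4⟩
    exact ⟨⟨h1, h2, h3, h4.trans h⟩, h4⟩

theorem hi_rect_im {a b c d s : ℝ} (h : c ≤ s) :
    hi (rect a b c d) (-Complex.I) s = rect a b s d := by
  ext z
  simp only [hi, rect, mem_ofPred_eq]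
  have e : (-Complex.I * z).re = z.im := by simp
  rw [e]
  constructor
  · rintro ⟨⟨h1, h2, h3, h4⟩, h5⟩
    exact ⟨h1, h2, h5, h4⟩
  · rintro ⟨h1, h2, h3, h4⟩
    exact ⟨⟨h1, h2, h.trans h3, h4⟩, h3⟩

variable {n : ℕ} {X : Type} [MetricSpace X] [ChartedSpace (V n) X]

theorem small_charts {f : ℂ → X} (hf : ContinuousOn f (closedBall (0 : ℂ) 1)) :
    ∃ δ > 0, ∀ z₀ ∈ closedBall (0 : ℂ) 1, ∃ e ∈ atlas (V n) X,
      ∀ z ∈ closedBall (0 : ℂ) 1, dist z z₀ < δ → f z ∈ e.source := by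
  have hK : IsCompact (f '' closedBall (0 : ℂ) 1) :=
    (isCompact_closedBall _ _).image_of_continuousOn hf
  obtain ⟨δ₁, hδ₁, h1⟩ := lebesgue_number_lemma_of_metric (s := f '' closedBall (0 : ℂ) 1)
    (c := fun x : X => (chartAt (V n) x).source) hK
    (fun x => (chartAt (V n) x).open_source)
    (fun x _ => mem_iUnion.2 ⟨x, mem_chart_source (V n) x⟩)
  have hu := (isCompact_closedBall (0 : ℂ) 1).uniformContinuousOn_of_continuous hf
  rw [Metric.uniformContinuousOn_iff] at hu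
  obtain ⟨δ, hδ, h2⟩ := hu δ₁ hδ₁
  refine ⟨δ, hδ, fun z₀ hz₀ => ?_⟩
  obtain ⟨x, hx⟩ := h1 (f z₀) (mem_image_of_mem f hz₀)
  refine ⟨chartAt (V n) x, chart_mem_atlas (V n) x, fun z hz hd => hx ?_⟩
  exact h2 z hz z₀ hz₀ hd

theorem exists_thickOn [IsManifold 𝓘(ℂ, V n) ω X] {f : ℂ → X}
    (hf : KI.Hol n (closedBall (0 : ℂ) 1) f) :
    ∃ (r : ℝ) (Φ : ℂ → V n → X), ThickOn (closedBall (0 : ℂ) 1) f r Φ := by
  obtain ⟨δ, hδ, hch⟩ := small_charts (n := n) hf.cont
  have hsmall : ∀ a b c d, b - a ≤ δ / 3 → d - c ≤ δ / 3 →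
      (interior (rect a b c d)).Nonempty →
      ∃ (r : ℝ) (Φ : ℂ → V n → X), ThickOn (rect a b c d) f r Φ := by
    intro a b c d hab hcd hne
    obtain ⟨z₀, hz₀⟩ := hne
    have hz₀' := interior_subset hz₀
    obtain ⟨e, he, hsrc⟩ := hch z₀ hz₀'.1
    refine thick_chart (isCompact_rect a b c d) ⟨hf.cont.mono (rect_sub a b c d), ?_⟩ he ?_
    · intro z hz
      exact hf.diff z (interior_mono (rect_sub a b c d) hz)
    · intro z hz
      refine hsrc z hz.1 ?_
      rw [dist_eq]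
      have h1 : ‖z - z₀‖ ≤ |(z - z₀).re| + |(z - z₀).im| := Complex.norm_le_abs_re_add_abs_im _
      have h2 : |(z - z₀).re| ≤ δ / 3 := by
        rw [sub_re, abs_le]
        constructor <;> linarith [hz.2.1.1, hz.2.1.2, hz₀'.2.1.1, hz₀'.2.1.2]
      have h3 : |(z - z₀).im| ≤ δ / 3 := by
        rw [sub_im, abs_le]
        constructor <;> linarith [hz.2.2.1, hz.2.2.2, hz₀'.2.2.1, hz₀'.2.2.2]
      linarith
  have hcol : ∀ a b, b - a ≤ δ / 3 → ∀ c d, (interior (rect a b c d)).Nonempty →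
      ∃ (r : ℝ) (Φ : ℂ → V n → X), ThickOn (rect a b c d) f r Φ := by
    intro a b hab
    refine ind1 (P := fun c d => (interior (rect a b c d)).Nonempty →
      ∃ (r : ℝ) (Φ : ℂ → V n → X), ThickOn (rect a b c d) f r Φ) (δ := δ / 3) (by positivity)
      (fun c d hcd => hsmall a b c d hab hcd) ?_
    intro c d s t hcs hst htd hP1 hP2 hne
    refine glue (isCompact_rect a b c d) (convex_rect a b c d) (w := -Complex.I)
      (by simp) hst ?_ ?_ hne
    · rw [lo_rect_im htd]; exact hP1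
    · rw [hi_rect_im hcs]; exact hP2
  have hall : ∀ c d a b, (interior (rect a b c d)).Nonempty →
      ∃ (r : ℝ) (Φ : ℂ → V n → X), ThickOn (rect a b c d) f r Φ := by
    intro c d
    refine ind1 (P := fun a b => (interior (rect a b c d)).Nonempty →
      ∃ (r : ℝ) (Φ : ℂ → V n → X), ThickOn (rect a b c d) f r Φ) (δ := δ / 3) (by positivity)
      (fun a b hab => hcol a b hab c d) ?_
    intro a b s t has hst htb hP1 hP2 hne
    refine glue (isCompact_rect a b c d) (convex_rect a b c d) (w := 1)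
      one_ne_zero hst ?_ ?_ hne
    · rw [lo_rect_re htb]; exact hP1
    · rw [hi_rect_re has]; exact hP2
  have hfull : rect (-1) 1 (-1) 1 = closedBall (0 : ℂ) 1 := by
    ext z
    simp only [rect, mem_ofPred_eq, mem_closedBall_zero_iff]
    constructor
    · rintro ⟨h, -⟩; exact h
    · intro h
      have h1 := Complex.abs_re_le_norm z
      have h2 := Complex.abs_im_le_norm z
      rw [abs_le] at h1 h2
      exact ⟨h, ⟨by linarith [h1.1], by linarith [h1.2]⟩, by linarith [h2.1], by linarith [h2.2]⟩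
  have := hall (-1) 1 (-1) 1 (by
    rw [hfull, interior_closedBall (0 : ℂ) one_ne_zero]
    exact ⟨0, mem_ball_self one_pos⟩)
  rwa [hfull] at this

/-- every disc which is continuous on the closed disc and holomorphic inside has a thickening -/
theorem exists_thick [IsManifold 𝓘(ℂ, V n) ω X] {f : ℂ → X}
    (hf : KI.Hol n (closedBall (0 : ℂ) 1) f) :
    ∃ (r : ℝ) (Φ : ℂ → V n → X), KI.Thick f r Φ := by
  obtain ⟨r, Φ, h⟩ := exists_thickOn hf
  exact ⟨r, Φ, h.thick⟩

end TH
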