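import Pool.Agent.H94.TH.CE

/-!
# IFT: solving `a = L (N (y, a))` with parameters

PROOF. `H (y, a) = (y, a - L (N (y, a)))` is `ContDiffAt ℂ 1` at `0` with derivative the identity
(`fderiv N 0 = 0`). Apply the inverse function theorem: `ContDiffAt.toOpenPartialHomeomorph`,
`ContDiffAt.to_localInverse` with `f' = ContinuousLinearEquiv.refl ℂ (Y × EA)`: the local inverse `G` is
`ContDiffAt ℂ 1` at `0`, so differentiable on a neighbourhood (`ContDiffAt.eventually`,
`ContDiffAt.differentiableAt`), with derivative the identity at `0`, and `H (G p) = p` near `0`.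
Put `a y = (G (y, 0)).2`. From `H (G (y, 0)) = (y, 0)`: `(G (y,0)).1 = y` and `a y = L (N (y, a y))`.
The derivative of `a` at `0` is `δ ↦ (id (δ, 0)).2 = 0`. -/

set_option autoImplicit false

namespace TH

open Complex Metric Set Filter Topology ContDiff

theorem ift {Y EA EC : Type} [NormedAddCommGroup Y] [NormedSpace ℂ Y] [CompleteSpace Y]
    [NormedAddCommGroup EA] [NormedSpace ℂ EA] [CompleteSpace EA]
    [NormedAddCommGroup EC] [NormedSpace ℂ EC] (L : EC →L[ℂ] EA) {N : Y × EA → EC}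
    (hN : ContDiffAt ℂ 1 N 0) (hN0 : N 0 = 0) (hN1 : fderiv ℂ N 0 = 0) :
    ∃ r > 0, ∃ a : Y → EA, DifferentiableOn ℂ a (ball 0 r) ∧ a 0 = 0 ∧
      HasFDerivAt a (0 : Y →L[ℂ] EA) 0 ∧ ∀ y ∈ ball (0 : Y) r, a y = L (N (y, a y)) := by
  obtain ⟨H, hH⟩ : ∃ H : Y × EA → Y × EA, ∀ p, H p = (p.1, p.2 - L (N p)) :=
    ⟨fun p => (p.1, p.2 - L (N p)), fun _ => rfl⟩
  have hH' : H = fun p => (p.1, p.2 - L (N p)) := funext hH
  have hH0 : H 0 = 0 := by
    rw [hH, hN0, map_zero, sub_zero]
  have hHc : ContDiffAt ℂ 1 H 0 := by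
    rw [hH']
    exact contDiffAt_fst.prodMk (contDiffAt_snd.sub (L.contDiff.contDiffAt.comp _ hN))
  have hHd : HasFDerivAt H ((ContinuousLinearEquiv.refl ℂ (Y × EA) :
      (Y × EA) ≃L[ℂ] (Y × EA)) : (Y × EA) →L[ℂ] (Y × EA)) 0 := by
    have e1 : HasFDerivAt N (0 : Y × EA →L[ℂ] EC) 0 := by
      have := (hN.differentiableAt one_ne_zero).hasFDerivAt
      rwa [hN1] at this
    have e2 : HasFDerivAt (fun p => L (N p)) (L.comp (0 : Y × EA →L[ℂ] EC)) 0 :=
      L.hasFDerivAt.comp (0 : Y × EA) e1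
    rw [ContinuousLinearMap.comp_zero] at e2
    have e3 : HasFDerivAt (fun p : Y × EA => (p.1, p.2 - L (N p)))
        ((ContinuousLinearMap.fst ℂ Y EA).prod (ContinuousLinearMap.snd ℂ Y EA - 0)) 0 :=
      hasFDerivAt_fst.prodMk (hasFDerivAt_snd.sub e2)
    rw [hH']
    convert e3 using 1
    rw [sub_zero]
    rfl
  have hst := hHc.hasStrictFDerivAt' hHd one_ne_zero
  obtain ⟨G, hG⟩ : ∃ G, G = hHc.localInverse hHd one_ne_zero := ⟨_, rfl⟩
  have hGc : ContDiffAt ℂ 1 G 0 := by
    have e0 := hHc.to_localInverse hHd one_ne_zero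
    rw [hH0] at e0
    rw [hG]
    exact e0
  have hG0 : G 0 = 0 := by
    have := hHc.localInverse_apply_image hHd one_ne_zero
    rw [← hG, hH0] at this
    exact this
  have hGr : ∀ᶠ p in 𝓝 (0 : Y × EA), H (G p) = p := by
    have := hst.eventually_right_inverse
    rw [hH0] at this
    rw [hG]
    exact this
  have hGd : HasFDerivAt G (ContinuousLinearMap.id ℂ (Y × EA)) 0 := by
    have := hst.to_localInverse.hasFDerivAt
    rw [hH0] at this
    rw [hG]
    exact this
  have hGe : ∀ᶠ p in 𝓝 (0 : Y × EA), ContDiffAt ℂ 1 G p := hGc.eventually (by simp)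
  have hι : Tendsto (fun y : Y => (y, (0 : EA))) (𝓝 0) (𝓝 0) := by
    have : Continuous (fun y : Y => (y, (0 : EA))) := by fun_prop
    exact this.tendsto' 0 0 rfl
  have hev := hι.eventually (hGr.and hGe)
  obtain ⟨r, hr, hball⟩ := Metric.eventually_nhds_iff_ball.1 hev
  refine ⟨r, hr, fun y => (G (y, 0)).2, ?_, ?_, ?_, ?_⟩
  · intro y hy
    have e1 : DifferentiableAt ℂ G (y, 0) := (hball y hy).2.differentiableAt one_ne_zero
    have e2 : DifferentiableAt ℂ (fun y : Y => (y, (0 : EA))) y :=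
      differentiableAt_id.prodMk (differentiableAt_const _)
    exact (e1.comp y e2).snd.differentiableWithinAt
  · show (G (0, 0)).2 = 0
    have : G (0, 0) = 0 := hG0
    rw [this]
    rfl
  · have e1 : HasFDerivAt (fun y : Y => (y, (0 : EA))) (ContinuousLinearMap.inl ℂ Y EA) 0 :=
      hasFDerivAt_prodMk_left 0 0
    have e2 : HasFDerivAt (fun y : Y => G (y, 0))
        ((ContinuousLinearMap.id ℂ (Y × EA)).comp (ContinuousLinearMap.inl ℂ Y EA)) 0 :=
      HasFDerivAt.comp (g := G) (0 : Y) hGd e1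
    have e3 := e2.snd
    convert e3 using 1
    ext v
    simp
  · intro y hy
    have e1 := (hball y hy).1
    have e2 : (G (y, 0)).1 = y := by
      have := congrArg Prod.fst e1
      rw [hH] at this
      exact this
    have e3 : (G (y, 0)).2 - L (N (G (y, 0))) = 0 := by
      have := congrArg Prod.snd e1
      rw [hH] at this
      exact this
    have e4 : G (y, 0) = (y, (G (y, 0)).2) := Prod.ext e2 rfl
    show (G (y, 0)).2 = L (N (y, (G (y, 0)).2))
    rw [← e4]
    exact sub_eq_zero.1 e3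

end TH
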