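import Pool.Agent.H94.TH.SUP
import Pool.Agent.H94.TH.IFT

/-!
# FIX: the nonlinear splitting

PROOF. `N`, `ρ'` from `superposition` for `q` on `C`; `resA : HA A (V n) →L HA C (V n)` from `exists_res hCA`.
`N' (y, a) = N (cst y + resA a)` on `V n × HA A (V n)`: `ContDiffAt ℂ 1` at `0` (`contDiffOn_one` for `N` on
`ball 0 ρ'`, composed with a continuous linear map), `N' 0 = 0`, `fderiv N' 0 = 0` (chain rule).
`ift` with `L = LA` gives `r`, `a`. Shrink `r` so that `‖cst y + resA (a y)‖ < ρ'` and `‖y + ev (a y) z‖ < ρ`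
for all `z` (continuity of `a` at `0`, `norm_ev_le`). Put `b y = LB (N (cst y + resA (a y)))`:
differentiable on the ball, `b 0 = 0`, derivative `0` at `0` (chain rule, `fderiv N 0 = 0`).
For `z ∈ C`: `ev (b y) z - ev (a y) z = ev (N (cst y + resA (a y))) z = q z (y + ev (a y) z)` (`ev_cst`). -/

set_option autoImplicit false

namespace TH

open Complex Metric Set Filter Topology ContDiff
open KB (V)

variable {n : ℕ}

theorem fix {A B C : Set ℂ} [CompactSpace A] [CompactSpace B] [CompactSpace C] (hCA : C ⊆ A)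
    (LA : HA C (V n) →L[ℂ] HA A (V n)) (LB : HA C (V n) →L[ℂ] HA B (V n))
    (hL : ∀ h, ∀ z ∈ C, ev (LB h) z - ev (LA h) z = ev h z)
    {q : ℂ → V n → V n} {ρ : ℝ} (hρ : 0 < ρ) (hq : Fib C ρ q) (h0 : ∀ z ∈ C, q z 0 = 0)
    (h1 : ∀ z ∈ C, fderiv ℂ (q z) 0 = 0) :
    ∃ r > 0, ∃ (a : V n → HA A (V n)) (b : V n → HA B (V n)),
      DifferentiableOn ℂ a (ball 0 r) ∧ DifferentiableOn ℂ b (ball 0 r) ∧ a 0 = 0 ∧ b 0 = 0 ∧
      HasFDerivAt a (0 : V n →L[ℂ] HA A (V n)) 0 ∧ HasFDerivAt b (0 : V n →L[ℂ] HA B (V n)) 0 ∧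
      ∀ y ∈ ball (0 : V n) r, ∀ z ∈ C, ‖y + ev (a y) z‖ < ρ ∧
        ev (b y) z - ev (a y) z = q z (y + ev (a y) z) := by
  obtain ⟨N, ρ', hρ'0, -, hN, hNd, hN0, hN1⟩ := superposition hρ hq h0 h1
  obtain ⟨resA, hres⟩ := exists_res (E := V n) hCA
  obtain ⟨T, hT⟩ : ∃ T : V n × HA A (V n) →L[ℂ] HA C (V n), ∀ p, T p = cst p.1 + resA p.2 :=
    ⟨(cst (S := C)).comp (ContinuousLinearMap.fst ℂ _ _) +
      resA.comp (ContinuousLinearMap.snd ℂ _ _), fun _ => rfl⟩
  have hTev : ∀ (y : V n) (g : HA A (V n)), ∀ z ∈ C, ev (T (y, g)) z = y + ev g z := by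
    intro y g z hz
    rw [hT, ev_add, ev_cst _ hz, hres g z hz]
  have hNat : ∀ g : HA C (V n), ‖g‖ < ρ' → DifferentiableAt ℂ N g := by
    intro g hg
    exact hNd.differentiableAt (isOpen_ball.mem_nhds (mem_ball_zero_iff.2 hg))
  have hN00 : HasFDerivAt N (0 : HA C (V n) →L[ℂ] HA C (V n)) 0 := by
    have := (hNat 0 (by rw [norm_zero]; exact hρ'0)).hasFDerivAt
    rwa [hN1] at this
  have hc1 : ContDiffAt ℂ 1 (fun p => N (T p)) 0 := by
    have e1 : ContDiffAt ℂ 1 N (T 0) := by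
      rw [map_zero]
      exact (contDiffOn_one isOpen_ball hNd).contDiffAt
        (isOpen_ball.mem_nhds (mem_ball_self hρ'0))
    exact e1.comp (0 : V n × HA A (V n)) T.contDiff.contDiffAt
  have hc2 : fderiv ℂ (fun p => N (T p)) 0 = 0 := by
    have e1 : HasFDerivAt N (0 : HA C (V n) →L[ℂ] HA C (V n)) (T 0) := by
      rw [map_zero]
      exact hN00
    have e2 : HasFDerivAt (fun p => N (T p)) ((0 : HA C (V n) →L[ℂ] HA C (V n)).comp T) 0 :=
      e1.comp (0 : V n × HA A (V n)) T.hasFDerivAt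
    rw [e2.fderiv, ContinuousLinearMap.zero_comp]
  obtain ⟨r, hr, a, had, ha0, ha1, ha⟩ := ift LA hc1 (by show N (T 0) = 0; rw [map_zero, hN0]) hc2
  obtain ⟨g, hg⟩ : ∃ g : V n → HA C (V n), ∀ y, g y = T (y, a y) := ⟨_, fun _ => rfl⟩
  have hg' : g = fun y => T (y, a y) := funext hg
  have hg0 : g 0 = 0 := by
    rw [hg, ha0]
    exact map_zero T
  have hgd : ∀ y ∈ ball (0 : V n) r, DifferentiableAt ℂ g y := by
    intro y hy
    rw [hg']
    exact T.differentiableAt.comp y (differentiableAt_id.prodMk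
      (had.differentiableAt (isOpen_ball.mem_nhds hy)))
  have hgc : ContinuousAt g 0 := (hgd 0 (mem_ball_self hr)).continuousAt
  have hac : ContinuousAt a 0 := ha1.continuousAt
  have hev1 : ∀ᶠ y in 𝓝 (0 : V n), ‖g y‖ < ρ' := by
    have e1 : Tendsto (fun y => ‖g y‖) (𝓝 0) (𝓝 ‖g 0‖) := hgc.norm
    rw [hg0, norm_zero] at e1
    exact e1.eventually (gt_mem_nhds hρ'0)
  have hev2 : ∀ᶠ y in 𝓝 (0 : V n), ‖y‖ + ‖a y‖ < ρ := by
    have e1 : Tendsto (fun y : V n => ‖y‖ + ‖a y‖) (𝓝 0) (𝓝 (‖(0 : V n)‖ + ‖a 0‖)) :=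
      continuousAt_id.norm.add hac.norm
    rw [ha0, norm_zero, norm_zero, add_zero] at e1
    exact e1.eventually (gt_mem_nhds hρ)
  obtain ⟨r₁, hr₁, hball⟩ := Metric.eventually_nhds_iff_ball.1 (hev1.and hev2)
  have hbd : ∀ y ∈ ball (0 : V n) (min r r₁),
      DifferentiableAt ℂ (fun y => LB (N (g y))) y := by
    intro y hy
    have e1 := hball y (ball_subset_ball (min_le_right _ _) hy)
    exact LB.differentiableAt.comp y ((hNat _ e1.1).comp y
      (hgd y (ball_subset_ball (min_le_left _ _) hy)))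
  refine ⟨min r r₁, lt_min hr hr₁, a, fun y => LB (N (g y)),
    had.mono (ball_subset_ball (min_le_left _ _)),
    fun y hy => (hbd y hy).differentiableWithinAt, ha0, ?_, ha1, ?_, ?_⟩
  · show LB (N (g 0)) = 0
    rw [hg0, hN0, map_zero]
  · have e1 : HasFDerivAt N (0 : HA C (V n) →L[ℂ] HA C (V n)) (g 0) := by
      rw [hg0]
      exact hN00
    have e2 : HasFDerivAt (fun y => N (g y))
        ((0 : HA C (V n) →L[ℂ] HA C (V n)).comp (fderiv ℂ g 0)) 0 :=
      e1.comp (0 : V n) (hgd 0 (mem_ball_self hr)).hasFDerivAt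
    have e3 : HasFDerivAt (fun y => LB (N (g y)))
        (LB.comp ((0 : HA C (V n) →L[ℂ] HA C (V n)).comp (fderiv ℂ g 0))) 0 :=
      LB.hasFDerivAt.comp (0 : V n) e2
    rw [ContinuousLinearMap.zero_comp, ContinuousLinearMap.comp_zero] at e3
    exact e3
  · intro y hy z hz
    obtain ⟨e1, e2⟩ := hball y (ball_subset_ball (min_le_right _ _) hy)
    have e3 := norm_ev_le (a y) z
    refine ⟨?_, ?_⟩
    · calc ‖y + ev (a y) z‖ ≤ ‖y‖ + ‖ev (a y) z‖ := norm_add_le _ _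
        _ ≤ ‖y‖ + ‖a y‖ := by linarith
        _ < ρ := e2
    · have e4 : ev (a y) z = ev (LA (N (g y))) z := by
        rw [hg y]
        exact congrArg (fun h => ev h z) (ha y (ball_subset_ball (min_le_left _ _) hy))
      have e5 : q z (y + ev (a y) z) = ev (N (g y)) z := by
        rw [hN (g y) e1 z hz, hg y, hTev y (a y) z hz]
      rw [e5, e4]
      exact hL (N (g y)) z hz

end TH
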