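import Pool.Agent.H94.TH.Bas

/-!
# GEO: the parts `lo`, `hi`, `mid` of a set

PROOFS. Elementary. `z ↦ (w * z).re` is continuous and affine.
`mem_interior_*`: `interior S ∩ {z | (w * z).re < b}` is open and contained in `lo S w b`, etc.
`interior_lo_re`: if `w ≠ 0` and `z ∈ interior (lo S w b)` then `(w * z).re < b`: otherwise `(w * z).re = b` and
`z + t * conj w`, `t > 0` small, is in `lo S w b` but `(w * (z + t conj w)).re = b + t ‖w‖² > b`.
`mid_interior`: `S` convex compact with nonempty interior, `lo S w b ≠ S`, `hi S w a ≠ S`: there are `z₁ ∈ S`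
with `(w z₁).re > b`, `z₂ ∈ S` with `(w z₂).re < a`. `S ⊆ closure (interior S)`
(`Convex.closure_interior_eq_closure_of_nonempty_interior`), so we may take `z₁, z₂ ∈ interior S`, and the
segment is in `interior S` (`Convex.interior`); take the point of the segment where `(w z).re = (a+b)/2`
(intermediate value theorem, or explicit) and apply `mem_interior_mid`. -/

set_option autoImplicit false

namespace TH

open Complex Metric Set Filter Topology

variable {S : Set ℂ} {w : ℂ} {a b : ℝ}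

theorem GEO_cont (w : ℂ) : Continuous fun z : ℂ => (w * z).re :=
  Complex.continuous_re.comp (continuous_const.mul continuous_id)

theorem isCompact_lo (hS : IsCompact S) : IsCompact (lo S w b) := by
  have h : lo S w b = S ∩ {z | (w * z).re ≤ b} := rfl
  rw [h]
  exact hS.inter_right (isClosed_le (GEO_cont w) continuous_const)

theorem isCompact_hi (hS : IsCompact S) : IsCompact (hi S w a) := by
  have h : hi S w a = S ∩ {z | a ≤ (w * z).re} := rfl
  rw [h]
  exact hS.inter_right (isClosed_le continuous_const (GEO_cont w))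

theorem isCompact_mid (hS : IsCompact S) : IsCompact (mid S w a b) := by
  have h : mid S w a b = S ∩ ({z | a ≤ (w * z).re} ∩ {z | (w * z).re ≤ b}) := rfl
  rw [h]
  exact hS.inter_right ((isClosed_le continuous_const (GEO_cont w)).inter
    (isClosed_le (GEO_cont w) continuous_const))

theorem GEO_affine (w x y : ℂ) (s t : ℝ) :
    (w * (s • x + t • y)).re = s * (w * x).re + t * (w * y).re := by
  simp only [Complex.real_smul, Complex.mul_re, Complex.add_re, Complex.add_im, Complex.ofReal_re,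
    Complex.ofReal_im, Complex.mul_im]
  ring

theorem convex_mid (hS : Convex ℝ S) : Convex ℝ (mid S w a b) := by
  intro x hx y hy s t hs ht hst
  obtain ⟨hx, hx1, hx2⟩ := hx
  obtain ⟨hy, hy1, hy2⟩ := hy
  refine ⟨hS hx hy hs ht hst, ?_, ?_⟩
  · rw [GEO_affine]
    have e : a = s * a + t * a := by rw [← add_mul, hst, one_mul]
    rw [e]
    exact add_le_add (mul_le_mul_of_nonneg_left hx1 hs) (mul_le_mul_of_nonneg_left hy1 ht)
  · rw [GEO_affine]
    have e : b = s * b + t * b := by rw [← add_mul, hst, one_mul]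
    rw [e]
    exact add_le_add (mul_le_mul_of_nonneg_left hx2 hs) (mul_le_mul_of_nonneg_left hy2 ht)

theorem mid_sub_lo : mid S w a b ⊆ lo S w b := fun _ hz => ⟨hz.1, hz.2.2⟩

theorem mid_sub_hi : mid S w a b ⊆ hi S w a := fun _ hz => ⟨hz.1, hz.2.1⟩

theorem mem_interior_lo {z : ℂ} (hz : z ∈ interior S) (h : (w * z).re < b) :
    z ∈ interior (lo S w b) := by
  refine mem_interior.2 ⟨interior S ∩ {z | (w * z).re < b}, ?_, ?_, hz, h⟩
  · intro y hy
    exact ⟨interior_subset hy.1, le_of_lt hy.2⟩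
  · exact isOpen_interior.inter (isOpen_lt (GEO_cont w) continuous_const)

theorem mem_interior_hi {z : ℂ} (hz : z ∈ interior S) (h : a < (w * z).re) :
    z ∈ interior (hi S w a) := by
  refine mem_interior.2 ⟨interior S ∩ {z | a < (w * z).re}, ?_, ?_, hz, h⟩
  · intro y hy
    exact ⟨interior_subset hy.1, le_of_lt hy.2⟩
  · exact isOpen_interior.inter (isOpen_lt continuous_const (GEO_cont w))

theorem mem_interior_mid {z : ℂ} (hz : z ∈ interior S) (h : a < (w * z).re)
    (h' : (w * z).re < b) : z ∈ interior (mid S w a b) := by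
  have e : mid S w a b = lo S w b ∩ hi S w a := by
    ext y
    exact ⟨fun hy => ⟨mid_sub_lo hy, mid_sub_hi hy⟩, fun hy => ⟨hy.1.1, hy.2.2, hy.1.2⟩⟩
  rw [e, interior_inter]
  exact ⟨mem_interior_lo hz h', mem_interior_hi hz h⟩

/-- moving in the direction `c * conj w` -/
theorem GEO_move (w z : ℂ) (c : ℝ) :
    (w * (z + c • (starRingEnd ℂ) w)).re = (w * z).re + c * ‖w‖ ^ 2 := by
  rw [← Complex.normSq_eq_norm_sq, Complex.normSq_apply]
  simp only [Complex.real_smul, Complex.mul_re, Complex.add_re, Complex.add_im, Complex.ofReal_re,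
    Complex.ofReal_im, Complex.mul_im, Complex.conj_re, Complex.conj_im]
  ring

/-- in a neighbourhood of `z` one can move a bit in a direction -/
theorem GEO_small {T : Set ℂ} {z : ℂ} (hz : z ∈ interior T) (v : ℂ) :
    ∃ c : ℝ, 0 < c ∧ z + c • v ∈ T ∧ z + (-c) • v ∈ T := by
  have h1 : Tendsto (fun c : ℝ => z + c • v) (𝓝 0) (𝓝 z) := by
    have : Continuous fun c : ℝ => z + c • v := by fun_prop
    have h2 := this.tendsto 0
    simpa using h2
  have h3 : ∀ᶠ c : ℝ in 𝓝 0, z + c • v ∈ T := h1 (mem_interior_iff_mem_nhds.1 hz)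
  obtain ⟨ε, hε, h4⟩ := Metric.eventually_nhds_iff.1 h3
  refine ⟨ε / 2, by linarith, h4 ?_, h4 ?_⟩
  · rw [Real.dist_0_eq_abs, abs_of_pos (by linarith)]
    linarith
  · rw [Real.dist_0_eq_abs, abs_neg, abs_of_pos (by linarith)]
    linarith

theorem interior_lo_re (hw : w ≠ 0) {z : ℂ} (hz : z ∈ interior (lo S w b)) :
    z ∈ interior S ∧ (w * z).re < b := by
  refine ⟨interior_mono (fun y hy => hy.1) hz, ?_⟩
  obtain ⟨c, hc, h1, -⟩ := GEO_small hz ((starRingEnd ℂ) w)
  have h2 := h1.2
  rw [GEO_move] at h2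
  have h3 : 0 < ‖w‖ := norm_pos_iff.2 hw
  have h4 : 0 < c * ‖w‖ ^ 2 := by positivity
  linarith

theorem interior_hi_re (hw : w ≠ 0) {z : ℂ} (hz : z ∈ interior (hi S w a)) :
    z ∈ interior S ∧ a < (w * z).re := by
  refine ⟨interior_mono (fun y hy => hy.1) hz, ?_⟩
  obtain ⟨c, hc, -, h1⟩ := GEO_small hz ((starRingEnd ℂ) w)
  have h2 := h1.2
  rw [GEO_move] at h2
  have h3 : 0 < ‖w‖ := norm_pos_iff.2 hw
  have h4 : 0 < c * ‖w‖ ^ 2 := by positivity
  linarith

/-- a point of the interior in an open set meeting `S` -/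
theorem GEO_pick (hS : IsCompact S) (hc : Convex ℝ S) (hi' : (interior S).Nonempty)
    {U : Set ℂ} (hU : IsOpen U) {z : ℂ} (hz : z ∈ S) (hzU : z ∈ U) :
    ∃ y ∈ interior S, y ∈ U := by
  have h1 : closure (interior S) = closure S :=
    hc.closure_interior_eq_closure_of_nonempty_interior hi'
  have h2 : z ∈ closure (interior S) := by
    rw [h1]
    exact subset_closure hz
  have _ := hS
  obtain ⟨y, hyU, hyS⟩ := mem_closure_iff.1 h2 U hU hzU
  exact ⟨y, hyS, hyU⟩

theorem mid_interior (hS : IsCompact S) (hc : Convex ℝ S) (hi' : (interior S).Nonempty)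
    (hw : w ≠ 0) (hab : a < b) (h1 : lo S w b ≠ S) (h2 : hi S w a ≠ S) :
    (interior (mid S w a b)).Nonempty := by
  have _ := hw
  obtain ⟨z₁, hz₁, hb₁⟩ : ∃ z ∈ S, b < (w * z).re := by
    by_contra hcon
    push Not at hcon
    exact h1 (Subset.antisymm (fun z hz => hz.1) fun z hz => ⟨hz, hcon z hz⟩)
  obtain ⟨z₂, hz₂, ha₂⟩ : ∃ z ∈ S, (w * z).re < a := by
    by_contra hcon
    push Not at hcon
    exact h2 (Subset.antisymm (fun z hz => hz.1) fun z hz => ⟨hz, hcon z hz⟩)
  obtain ⟨y₁, hy₁, hyb⟩ := GEO_pick hS hc hi' (isOpen_lt continuous_const (GEO_cont w)) hz₁ hb₁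
  obtain ⟨y₂, hy₂, hya⟩ := GEO_pick hS hc hi' (isOpen_lt (GEO_cont w) continuous_const) hz₂ ha₂
  simp only [mem_ofPred_eq] at hyb hya
  have hp : 0 < (w * y₁).re - (w * y₂).re := by linarith
  obtain ⟨p, hp'⟩ : ∃ p, p = (w * y₁).re - (w * y₂).re := ⟨_, rfl⟩
  rw [← hp'] at hp
  have hs : 0 ≤ ((a + b) / 2 - (w * y₂).re) / p := div_nonneg (by linarith) hp.le
  have ht : 0 ≤ ((w * y₁).re - (a + b) / 2) / p := div_nonneg (by linarith) hp.le
  have hst : ((a + b) / 2 - (w * y₂).re) / p + ((w * y₁).re - (a + b) / 2) / p = 1 := by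
    rw [← add_div, div_eq_one_iff_eq hp.ne']
    linarith
  have hin := hc.interior hy₁ hy₂ hs ht hst
  have hval : (w * ((((a + b) / 2 - (w * y₂).re) / p) • y₁ +
      (((w * y₁).re - (a + b) / 2) / p) • y₂)).re = (a + b) / 2 := by
    rw [GEO_affine, div_mul_eq_mul_div, div_mul_eq_mul_div, ← add_div, div_eq_iff hp.ne', hp']
    ring
  refine ⟨_, mem_interior_mid hin ?_ ?_⟩
  · rw [hval]
    linarith
  · rw [hval]
    linarith

end TH
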