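import Pool.Agent.H94.TH.GEO

/-!
# PAS: pasting two thickenings which agree on the overlap

PROOF. `Θ z y = Φ z y` if `z ∈ lo S w b`, else `Ψ z y` (`open Classical`). On `hi S w a`, `Θ = Ψ` (on
`lo S w b ∩ hi S w a = mid S w a b` by `hm`), for `y ∈ ball 0 r`. `S = lo S w b ∪ hi S w a` (`a < b`), both relatively closed in
`S` (`(w * z).re ≤ b` closed condition), so `Θ` is continuous on `S ×ˢ ball 0 r` (`ContinuousOn.union_of_isClosed` with
`S` replaced..; or pointwise: `ContinuousWithinAt` on the union of two sets: `continuousWithinAt_union`, using that a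
point of `S` not in `lo S w b` has a neighbourhood (in `ℂ`) disjoint from `lo S w b`).
`holo`: `z ∈ interior S`; if `(w z).re < b`, then `z ∈ interior (lo S w b)` (`mem_interior_lo`) and `Θ = Φ` near `z`;
otherwise `a < b ≤ (w z).re`, `z ∈ interior (hi S w a)` and `Θ = Ψ` near `(z, y)`. Others: pointwise in `z`. -/

set_option autoImplicit false

namespace TH

open Complex Metric Set Filter Topology Manifold ContDiff
open KB (V)

variable {n : ℕ} {X : Type} [MetricSpace X] [ChartedSpace (V n) X]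

private theorem PAS_closed {w : ℂ} {b : ℝ} :
    IsClosed {p : ℂ × V n | (w * p.1).re ≤ b} :=
  isClosed_le (Complex.continuous_re.comp (continuous_const.mul continuous_fst)) continuous_const

private theorem PAS_closed' {w : ℂ} {a : ℝ} :
    IsClosed {p : ℂ × V n | a ≤ (w * p.1).re} :=
  isClosed_le continuous_const (Complex.continuous_re.comp (continuous_const.mul continuous_fst))

theorem paste {S : Set ℂ} {w : ℂ} {a b : ℝ} (hab : a < b) {f : ℂ → X} {r : ℝ}
    {Φ Ψ : ℂ → V n → X} (hΦ : ThickOn (lo S w b) f r Φ) (hΨ : ThickOn (hi S w a) f r Ψ)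
    (hm : ∀ z ∈ mid S w a b, ∀ y ∈ ball (0 : V n) r, Φ z y = Ψ z y) :
    ∃ Θ : ℂ → V n → X, ThickOn S f r Θ := by
  classical
  let Θ : ℂ → V n → X := fun z y => if z ∈ lo S w b then Φ z y else Ψ z y
  have hlo : ∀ z ∈ lo S w b, ∀ y, Θ z y = Φ z y := fun z hz y => if_pos hz
  have hnlo : ∀ z, z ∉ lo S w b → ∀ y, Θ z y = Ψ z y := fun z hz y => if_neg hz
  have hhi : ∀ z ∈ hi S w a, ∀ y ∈ ball (0 : V n) r, Θ z y = Ψ z y := by
    intro z hz y hy
    by_cases h : z ∈ lo S w b
    · rw [hlo z h, hm z ⟨hz.1, hz.2, h.2⟩ y hy]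
    · exact hnlo z h y
  have hcov : ∀ z ∈ S, z ∉ lo S w b → z ∈ hi S w a := by
    intro z hz h
    refine ⟨hz, ?_⟩
    by_contra hc
    exact h ⟨hz, by linarith [not_le.1 hc]⟩
  refine ⟨Θ, hΦ.pos, ?_, ?_, ?_, ?_, ?_⟩
  · intro z hz
    by_cases h : z ∈ lo S w b
    · rw [hlo z h]
      exact hΦ.zero z h
    · rw [hnlo z h]
      exact hΨ.zero z (hcov z hz h)
  · -- continuity
    have hc1 : ContinuousOn (fun q : ℂ × V n => Θ q.1 q.2) (lo S w b ×ˢ ball 0 r) :=
      hΦ.cont.congr fun q hq => hlo q.1 hq.1 q.2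
    have hc2 : ContinuousOn (fun q : ℂ × V n => Θ q.1 q.2) (hi S w a ×ˢ ball 0 r) :=
      hΨ.cont.congr fun q hq => hhi q.1 hq.1 q.2 hq.2
    have hsub : S ×ˢ ball (0 : V n) r ⊆ (lo S w b ×ˢ ball 0 r) ∪ (hi S w a ×ˢ ball 0 r) := by
      rintro ⟨z, y⟩ ⟨hz, hy⟩
      by_cases h : z ∈ lo S w b
      · exact Or.inl ⟨h, hy⟩
      · exact Or.inr ⟨hcov z hz h, hy⟩
    intro p hp
    refine ContinuousWithinAt.mono ?_ hsub
    refine continuousWithinAt_union.2 ⟨?_, ?_⟩
    · by_cases h : p.1 ∈ lo S w b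
      · exact hc1 p ⟨h, hp.2⟩
      · refine continuousWithinAt_of_notMem_closure fun hcl => h ⟨hp.1, ?_⟩
        have h1 : closure (lo S w b ×ˢ ball (0 : V n) r) ⊆ {p : ℂ × V n | (w * p.1).re ≤ b} :=
          closure_minimal (fun q hq => hq.1.2) PAS_closed
        exact h1 hcl
    · by_cases h : p.1 ∈ hi S w a
      · exact hc2 p ⟨h, hp.2⟩
      · refine continuousWithinAt_of_notMem_closure fun hcl => h ⟨hp.1, ?_⟩
        have h1 : closure (hi S w a ×ˢ ball (0 : V n) r) ⊆ {p : ℂ × V n | a ≤ (w * p.1).re} :=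
          closure_minimal (fun q hq => hq.1.2) PAS_closed'
        exact h1 hcl
  · -- joint holomorphy
    intro z hz y hy e he hs
    by_cases hlt : (w * z).re < b
    · have hzi : z ∈ interior (lo S w b) := mem_interior_lo hz hlt
      have hz' : z ∈ lo S w b := interior_subset hzi
      rw [hlo z hz'] at hs
      refine (hΦ.holo z hzi y hy e he hs).congr_of_eventuallyEq ?_
      have h1 : ∀ᶠ q : ℂ × V n in 𝓝 (z, y), q.1 ∈ interior (lo S w b) :=
        continuous_fst.continuousAt.eventually (isOpen_interior.mem_nhds hzi)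
      filter_upwards [h1] with q hq
      show e (Θ q.1 q.2) = e (Φ q.1 q.2)
      rw [hlo q.1 (interior_subset hq)]
    · have hzi : z ∈ interior (hi S w a) := mem_interior_hi hz (by linarith [not_lt.1 hlt])
      have hz' : z ∈ hi S w a := interior_subset hzi
      rw [hhi z hz' y hy] at hs
      refine (hΨ.holo z hzi y hy e he hs).congr_of_eventuallyEq ?_
      have h1 : ∀ᶠ q : ℂ × V n in 𝓝 (z, y), q.1 ∈ interior (hi S w a) :=
        continuous_fst.continuousAt.eventually (isOpen_interior.mem_nhds hzi)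
      have h2 : ∀ᶠ q : ℂ × V n in 𝓝 (z, y), q.2 ∈ ball (0 : V n) r :=
        continuous_snd.continuousAt.eventually (isOpen_ball.mem_nhds hy)
      filter_upwards [h1, h2] with q hq hq2
      show e (Θ q.1 q.2) = e (Ψ q.1 q.2)
      rw [hhi q.1 (interior_subset hq) q.2 hq2]
  · -- holomorphy in `y`
    intro z hz y hy e he hs
    by_cases h : z ∈ lo S w b
    · have h1 : Θ z = Φ z := funext fun y' => hlo z h y'
      rw [h1] at hs ⊢
      exact hΦ.holy z h y hy e he hs
    · have h1 : Θ z = Ψ z := funext fun y' => hnlo z h y'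
      rw [h1] at hs ⊢
      exact hΨ.holy z (hcov z hz h) y hy e he hs
  · intro z hz e he hs
    by_cases h : z ∈ lo S w b
    · have h1 : Θ z = Φ z := funext fun y' => hlo z h y'
      rw [h1]
      exact hΦ.inv z h e he hs
    · have h1 : Θ z = Ψ z := funext fun y' => hnlo z h y'
      rw [h1]
      exact hΨ.inv z (hcov z hz h) e he hs

end TH
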