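import Pool.Agent.H94.TH.FDH

/-!
# QFI: the normalized transition map

`q z y = β'(z) (γ z (α(z) y)) - y`, where `β'(z) Dγ_z(0) α(z) = 1`.

PROOF. Choose `ρ' > 0` with `‖ev α z y‖ < ρ` for `‖y‖ < ρ'` (`‖ev α z‖ ≤ ‖α‖`, `norm_ev_le`). Continuity:
composition of `hγ.cont` with `(z, y) ↦ (z, ev α z y)`, then apply `ev β' z` (`ContinuousOn.clm_apply`). Joint
holomorphy over `interior C` and holomorphy in `y`: compositions (`DifferentiableAt.clm_apply`,
`ev_differentiableAt`). `q z 0 = 0`. `fderiv (q z) 0 = ev β' z ∘ fderiv (γ z) 0 ∘ ev α z - id = 0` (chain rule at `0`;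
`hβ : ev β' z * (fderiv ℂ (γ z) 0 * ev α z) = 1`). -/

set_option autoImplicit false

namespace TH

open Complex Metric Set Filter Topology ContDiff
open KB (V)

variable {n : ℕ}

theorem q_fib {C : Set ℂ} [CompactSpace C] {γ : ℂ → V n → V n} {ρ : ℝ} (hρ : 0 < ρ)
    (hγ : Fib C ρ γ) (h0 : ∀ z ∈ C, γ z 0 = 0) (α β' : HA C (V n →L[ℂ] V n))
    (hβ : ∀ z ∈ C, ev β' z * (fderiv ℂ (γ z) 0 * ev α z) = 1) :
    ∃ ρ' > 0, (∀ z ∈ C, ∀ y ∈ ball (0 : V n) ρ', ev α z y ∈ ball (0 : V n) ρ) ∧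
      Fib C ρ' (fun z y => ev β' z (γ z (ev α z y)) - y) ∧
      (∀ z ∈ C, ev β' z (γ z (ev α z 0)) - 0 = 0) ∧
      ∀ z ∈ C, fderiv ℂ (fun y => ev β' z (γ z (ev α z y)) - y) 0 = 0 := by
  obtain ⟨K, hK⟩ : ∃ K : ℝ, K = ‖α‖ + 1 := ⟨_, rfl⟩
  have hK0 : 0 < K := by rw [hK]; positivity
  have hin : ∀ z, ∀ y ∈ ball (0 : V n) (ρ / K), ev α z y ∈ ball (0 : V n) ρ := by
    intro z y hy
    rw [mem_ball_zero_iff, lt_div_iff₀ hK0] at hy
    rw [mem_ball_zero_iff]
    have h1 : ‖ev α z y‖ ≤ ‖ev α z‖ * ‖y‖ := ContinuousLinearMap.le_opNorm _ _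
    have h2 : ‖ev α z‖ * ‖y‖ ≤ K * ‖y‖ := by
      refine mul_le_mul_of_nonneg_right ?_ (norm_nonneg _)
      rw [hK]
      linarith [norm_ev_le α z]
    linarith
  have hz0 : ∀ z, ev α z 0 = 0 := fun z => map_zero _
  refine ⟨ρ / K, by positivity, fun z _ y hy => hin z y hy, ⟨?_, ?_, ?_⟩, ?_, ?_⟩
  · -- continuity
    have c1 : ContinuousOn (fun p : ℂ × V n => ev α p.1 p.2) (C ×ˢ ball 0 (ρ / K)) :=
      ((ev_continuousOn α).comp continuous_fst.continuousOn (fun p hp => hp.1)).clm_apply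
        continuous_snd.continuousOn
    have c2 : ContinuousOn (fun p : ℂ × V n => γ p.1 (ev α p.1 p.2)) (C ×ˢ ball 0 (ρ / K)) :=
      hγ.cont.comp (continuous_fst.continuousOn.prodMk c1) (fun p hp => ⟨hp.1, hin _ _ hp.2⟩)
    exact (((ev_continuousOn β').comp continuous_fst.continuousOn (fun p hp => hp.1)).clm_apply
      c2).sub continuous_snd.continuousOn
  · -- joint holomorphy
    intro z hz y hy
    have c1 : DifferentiableAt ℂ (fun p : ℂ × V n => ev α p.1 p.2) (z, y) := by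
      have h1 : DifferentiableAt ℂ (fun p : ℂ × V n => ev α p.1) (z, y) :=
        (ev_differentiableAt α hz).comp (z, y) differentiableAt_fst
      exact h1.clm_apply differentiableAt_snd
    have c2 : DifferentiableAt ℂ (fun p : ℂ × V n => γ p.1 (ev α p.1 p.2)) (z, y) :=
      DifferentiableAt.comp (z, y) (g := fun p : ℂ × V n => γ p.1 p.2)
        (f := fun p : ℂ × V n => (p.1, ev α p.1 p.2))
        (hγ.holo z hz (ev α z y) (hin z y hy)) (differentiableAt_fst.prodMk c1)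
    have c3 : DifferentiableAt ℂ (fun p : ℂ × V n => ev β' p.1) (z, y) :=
      (ev_differentiableAt β' hz).comp (z, y) differentiableAt_fst
    exact (c3.clm_apply c2).sub differentiableAt_snd
  · -- holomorphy in `y`
    intro z hz y hy
    have c2 : DifferentiableAt ℂ (fun y : V n => γ z (ev α z y)) y :=
      DifferentiableAt.comp y (hγ.holy z hz (ev α z y) (hin z y hy))
        (ev α z).differentiableAt
    exact ((ev β' z).differentiableAt.comp y c2).sub differentiableAt_id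
  · intro z hz
    rw [hz0, h0 z hz, map_zero, sub_zero]
  · intro z hz
    have h1 : HasFDerivAt (γ z) (fderiv ℂ (γ z) 0) (ev α z 0) := by
      rw [hz0]
      exact (hγ.holy z hz 0 (mem_ball_self hρ)).hasFDerivAt
    have h2 := h1.comp (0 : V n) (ev α z).hasFDerivAt
    have h3 := ((ev β' z).hasFDerivAt (x := γ z (ev α z 0))).comp (0 : V n) h2
    have h4 := h3.sub (hasFDerivAt_id (0 : V n))
    have h5 : (ev β' z).comp ((fderiv ℂ (γ z) 0).comp (ev α z)) -
        ContinuousLinearMap.id ℂ (V n) = 0 := by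
      have h6 := hβ z hz
      have h7 : (ev β' z).comp ((fderiv ℂ (γ z) 0).comp (ev α z)) =
          ContinuousLinearMap.id ℂ (V n) := h6
      rw [h7, sub_self]
    rw [h5] at h4
    exact h4.fderiv

end TH
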