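import Mathlib

/-!
# IMP: implicit functions are differentiable

PROOF. `Λ = hF.localInverse` (`HasStrictFDerivAt.localInverse`): `HasStrictFDerivAt Λ L.symm (F w₀)`
(`HasStrictFDerivAt.to_localInverse`), `Λ (F w₀) = w₀`, `∀ᶠ v in 𝓝 (F w₀), F (Λ v) = v`
(`eventually_right_inverse`), `Λ` is continuous at `F w₀`, so `∀ᶠ s in 𝓝 s₀, Λ (g s) ∈ O` and `F (Λ (g s)) = g s`;
so `γ s = Λ (g s)` near `s₀` (`hγ`), and `Λ ∘ g` is differentiable at `s₀`. -/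

set_option autoImplicit false

namespace TH

open Filter Topology

theorem imp {Z W W' : Type} [NormedAddCommGroup Z] [NormedSpace ℂ Z] [NormedAddCommGroup W]
    [NormedSpace ℂ W] [CompleteSpace W] [NormedAddCommGroup W'] [NormedSpace ℂ W'] {F : W → W'}
    {w₀ : W} {L : W ≃L[ℂ] W'} (hF : HasStrictFDerivAt F (L : W →L[ℂ] W') w₀) {g : Z → W'} {s₀ : Z}
    (hg : DifferentiableAt ℂ g s₀) (hg0 : g s₀ = F w₀) {γ : Z → W} {O : Set W} (hO : O ∈ 𝓝 w₀)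
    (hγ : ∀ᶠ s in 𝓝 s₀, ∀ w ∈ O, F w = g s → γ s = w) : DifferentiableAt ℂ γ s₀ := by
  obtain ⟨Λ, hΛ⟩ : ∃ Λ, Λ = hF.localInverse F L w₀ := ⟨_, rfl⟩
  have h1 : HasStrictFDerivAt Λ (L.symm : W' →L[ℂ] W) (F w₀) := by
    rw [hΛ]
    exact hF.to_localInverse
  have h2 : Λ (F w₀) = w₀ := by
    rw [hΛ]
    exact hF.localInverse_apply_image
  have h3 : ∀ᶠ v in 𝓝 (F w₀), F (Λ v) = v := by
    rw [hΛ]
    exact hF.eventually_right_inverse
  have hgc : Tendsto g (𝓝 s₀) (𝓝 (F w₀)) := by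
    rw [← hg0]
    exact hg.continuousAt
  have hΛc : Tendsto Λ (𝓝 (F w₀)) (𝓝 w₀) := by
    have := h1.hasFDerivAt.continuousAt
    rwa [ContinuousAt, h2] at this
  have h4 : ∀ᶠ s in 𝓝 s₀, Λ (g s) ∈ O := (hΛc.comp hgc).eventually hO
  have h5 : γ =ᶠ[𝓝 s₀] fun s => Λ (g s) := by
    filter_upwards [h4, hgc.eventually h3, hγ] with s k1 k2 k3
    exact k3 _ k1 k2
  have h6 : DifferentiableAt ℂ (fun s => Λ (g s)) s₀ := by
    have h7 : DifferentiableAt ℂ Λ (g s₀) := by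
      rw [hg0]
      exact h1.hasFDerivAt.differentiableAt
    exact h7.comp s₀ hg
  exact h5.differentiableAt_iff.2 h6

end TH
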