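import Pool.Agent.H94.TH.TRA
import Pool.Agent.H94.TH.IMP

/-!
# TRH: holomorphy of the transition map `γ` between two thickenings

`γ z y ∈ ball 0 ρ` with `Ψ z (γ z y) = Φ z y`, unique by `Good`.

PROOFS.
`tr_holo`: `z₀ ∈ interior C`, `x₀ = Ψ z₀ w₀ = Φ z₀ y₀`, `e = chartAt (V n) x₀`. On the open set
`U = {(z, w) ∈ interior C ×ˢ ball 0 ρ | Ψ z w ∈ e.source}` (open: `hΨ.cont`) the map `(z, w) ↦ e (Ψ z w)` is
differentiable (`hΨ.holo`), so `F (z, w) = (z, e (Ψ z w))` is strictly differentiable at `(z₀, w₀)`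
(`hasStrictFDerivAt_of_differentiableOn`), with derivative `(ζ, δ) ↦ (ζ, D (ζ, δ))`, `D (0, δ) =
fderiv (fun w => e (Ψ z₀ w)) w₀ δ` bijective by `Good`; so the derivative is bijective, a
`ContinuousLinearEquiv` (finite dimension). `imp` with `g (z, y) = (z, e (Φ z y))` (differentiable: `hΦ.holo`),
`γ' (z, y) = (z, γ z y)`, `O` = a neighbourhood of `(z₀, w₀)` contained in `U`: if `(z', w) ∈ O` and
`(z', e (Ψ z' w)) = (z, e (Φ z y))` then `z' = z`, `Ψ z w = Φ z y` (both in `e.source`), `w = γ z y` (`Good`, `w ∈ ball 0 ρ`).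
`tr_holy`: the same for fixed `z₀ ∈ C` (not nec. interior): `F w = e (Ψ z₀ w)`, `g y = e (Φ z₀ y)`, `hΨ.holy`, `hΦ.holy`. -/

set_option autoImplicit false

namespace TH

open Complex Metric Set Filter Topology Manifold ContDiff
open KB (V)

variable {n : ℕ} {X : Type} [MetricSpace X] [ChartedSpace (V n) X]

private theorem TRH_equiv {E : Type} [NormedAddCommGroup E] [NormedSpace ℂ E]
    [FiniteDimensional ℂ E] (D : E →L[ℂ] E) (h : Function.Injective D) :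
    ∃ L : E ≃L[ℂ] E, (L : E →L[ℂ] E) = D := by
  refine ⟨(LinearEquiv.ofInjectiveEndo (D : E →ₗ[ℂ] E) h).toContinuousLinearEquiv, ?_⟩
  ext v
  rfl

theorem tr_holo [IsManifold 𝓘(ℂ, V n) ω X] {C : Set ℂ} (hC : IsCompact C) {f : ℂ → X}
    {r r' ρ ρ' : ℝ} {Φ Ψ : ℂ → V n → X} (hΦ : ThickOn C f r' Φ) (hΨ : ThickOn C f r Ψ)
    (hρ : ρ ≤ r) (hg : Good C ρ Ψ) (hρ' : ρ' ≤ r') {γ : ℂ → V n → V n}
    (hγ : ∀ z ∈ C, ∀ y ∈ ball (0 : V n) ρ', γ z y ∈ ball (0 : V n) ρ ∧ Ψ z (γ z y) = Φ z y)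
    {z₀ : ℂ} (hz₀ : z₀ ∈ interior C) {y₀ : V n} (hy₀ : y₀ ∈ ball (0 : V n) ρ') :
    DifferentiableAt ℂ (fun p : ℂ × V n => γ p.1 p.2) (z₀, y₀) := by
  obtain ⟨hw₀, hw₁⟩ := hγ z₀ (interior_subset hz₀) y₀ hy₀
  obtain ⟨w₀, hww⟩ : ∃ w₀, w₀ = γ z₀ y₀ := ⟨_, rfl⟩
  rw [← hww] at hw₀ hw₁
  obtain ⟨e, he, hxe⟩ : ∃ e ∈ atlas (V n) X, Φ z₀ y₀ ∈ e.source :=
    ⟨chartAt (V n) (Φ z₀ y₀), chart_mem_atlas _ _, mem_chart_source _ _⟩
  have hxe' : Ψ z₀ w₀ ∈ e.source := by rw [hw₁]; exact hxe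
  obtain ⟨U, hUdef⟩ : ∃ U : Set (ℂ × V n), U = (interior C ×ˢ ball (0 : V n) ρ) ∩
    (fun q : ℂ × V n => Ψ q.1 q.2) ⁻¹' e.source := ⟨_, rfl⟩
  have hU : IsOpen U := by
    rw [hUdef]
    refine ContinuousOn.isOpen_inter_preimage ?_ (isOpen_interior.prod isOpen_ball) e.open_source
    exact hΨ.cont.mono (prod_mono interior_subset (ball_subset_ball hρ))
  have hmem : (z₀, w₀) ∈ U := by
    rw [hUdef]
    exact ⟨⟨hz₀, hw₀⟩, hxe'⟩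
  have hGd : ∀ q ∈ U, DifferentiableAt ℂ (fun q : ℂ × V n => e (Ψ q.1 q.2)) q := by
    intro q hq
    rw [hUdef] at hq
    exact hΨ.holo q.1 hq.1.1 q.2 (ball_subset_ball hρ hq.1.2) e he hq.2
  have hFd : DifferentiableOn ℂ (fun q : ℂ × V n => (q.1, e (Ψ q.1 q.2))) U := by
    intro q hq
    exact (differentiableAt_fst.prodMk (hGd q hq)).differentiableWithinAt
  have hF := hasStrictFDerivAt_of_differentiableOn hU hFd hmem
  have hD : fderiv ℂ (fun q : ℂ × V n => (q.1, e (Ψ q.1 q.2))) (z₀, w₀) =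
      (ContinuousLinearMap.fst ℂ ℂ (V n)).prod
        (fderiv ℂ (fun q : ℂ × V n => e (Ψ q.1 q.2)) (z₀, w₀)) := by
    have h1 : HasFDerivAt (fun q : ℂ × V n => (q.1, e (Ψ q.1 q.2)))
        ((ContinuousLinearMap.fst ℂ ℂ (V n)).prod
        (fderiv ℂ (fun q : ℂ × V n => e (Ψ q.1 q.2)) (z₀, w₀))) (z₀, w₀) :=
      hasFDerivAt_fst.prodMk (hGd _ hmem).hasFDerivAt
    exact h1.fderiv
  have hD2 : fderiv ℂ (fun w' => e (Ψ z₀ w')) w₀ =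
      (fderiv ℂ (fun q : ℂ × V n => e (Ψ q.1 q.2)) (z₀, w₀)).comp
        (ContinuousLinearMap.inr ℂ ℂ (V n)) := by
    have h1 : HasFDerivAt (fun w' => e (Ψ z₀ w'))
        ((fderiv ℂ (fun q : ℂ × V n => e (Ψ q.1 q.2)) (z₀, w₀)).comp
        (ContinuousLinearMap.inr ℂ ℂ (V n))) w₀ :=
      HasFDerivAt.comp (g := fun q : ℂ × V n => e (Ψ q.1 q.2)) (f := fun w' => (z₀, w')) w₀
        (hGd _ hmem).hasFDerivAt (hasFDerivAt_prodMk_right z₀ w₀)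
    exact h1.fderiv
  have hbij := (hg z₀ (interior_subset hz₀)).2 w₀ hw₀ e he hxe'
  have hinj : Function.Injective (fderiv ℂ (fun q : ℂ × V n => (q.1, e (Ψ q.1 q.2))) (z₀, w₀)) := by
    rw [injective_iff_map_eq_zero]
    intro p hp
    rw [hD] at hp
    have h1 : p.1 = 0 := congrArg Prod.fst hp
    have h2 : fderiv ℂ (fun q : ℂ × V n => e (Ψ q.1 q.2)) (z₀, w₀) p = 0 := congrArg Prod.snd hp
    have h3 : p = (0, p.2) := by rw [← h1]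
    have h4 : fderiv ℂ (fun w' => e (Ψ z₀ w')) w₀ p.2 = 0 := by
      rw [hD2]
      show fderiv ℂ (fun q : ℂ × V n => e (Ψ q.1 q.2)) (z₀, w₀) (0, p.2) = 0
      rw [← h3]
      exact h2
    have h5 : p.2 = 0 := hbij.1 (by rw [h4, map_zero])
    rw [h3, h5]
    rfl
  obtain ⟨L, hL⟩ := TRH_equiv _ hinj
  rw [← hL] at hF
  have hΦc : ContinuousAt (fun q : ℂ × V n => Φ q.1 q.2) (z₀, y₀) := by
    refine hΦ.cont.continuousAt ?_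
    refine mem_of_superset ((isOpen_interior.prod isOpen_ball).mem_nhds
      (show (z₀, y₀) ∈ interior C ×ˢ ball (0 : V n) r' from ⟨hz₀, ball_subset_ball hρ' hy₀⟩)) ?_
    exact prod_mono interior_subset Subset.rfl
  have hev0 : ∀ᶠ p in 𝓝 (z₀, y₀), p ∈ interior C ×ˢ ball (0 : V n) ρ' :=
    (isOpen_interior.prod isOpen_ball).mem_nhds
      (show (z₀, y₀) ∈ interior C ×ˢ ball (0 : V n) ρ' from ⟨hz₀, hy₀⟩)
  have hev : ∀ᶠ p in 𝓝 (z₀, y₀), p ∈ interior C ×ˢ ball (0 : V n) ρ' ∧ Φ p.1 p.2 ∈ e.source :=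
    hev0.and (hΦc.eventually (e.open_source.mem_nhds hxe))
  have key : DifferentiableAt ℂ (fun p : ℂ × V n => (p.1, γ p.1 p.2)) (z₀, y₀) := by
    refine imp (F := fun q : ℂ × V n => (q.1, e (Ψ q.1 q.2))) hF
      (g := fun p : ℂ × V n => (p.1, e (Φ p.1 p.2))) ?_ ?_ (hU.mem_nhds hmem) ?_
    · exact differentiableAt_fst.prodMk (hΦ.holo z₀ hz₀ y₀ (ball_subset_ball hρ' hy₀) e he hxe)
    · show (z₀, e (Φ z₀ y₀)) = (z₀, e (Ψ z₀ w₀))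
      rw [hw₁]
    · filter_upwards [hev] with p hp w hw heq
      have h1 : w.1 = p.1 := (Prod.mk.inj heq).1
      have h2 : e (Ψ w.1 w.2) = e (Φ p.1 p.2) := (Prod.mk.inj heq).2
      rw [hUdef] at hw
      have h3 : Ψ w.1 w.2 = Φ p.1 p.2 := e.injOn hw.2 hp.2 h2
      obtain ⟨h4, h5⟩ := hγ p.1 (interior_subset hp.1.1) p.2 hp.1.2
      rw [h1] at h3
      have h6 : γ p.1 p.2 = w.2 :=
        (hg p.1 (interior_subset hp.1.1)).1 h4 hw.1.2 (by rw [h5, h3])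
      show (p.1, γ p.1 p.2) = w
      rw [h6, ← h1]
  exact key.snd

theorem tr_holy [IsManifold 𝓘(ℂ, V n) ω X] {C : Set ℂ} {f : ℂ → X}
    {r r' ρ ρ' : ℝ} {Φ Ψ : ℂ → V n → X} (hΦ : ThickOn C f r' Φ) (hΨ : ThickOn C f r Ψ)
    (hρ : ρ ≤ r) (hg : Good C ρ Ψ) (hρ' : ρ' ≤ r') {γ : ℂ → V n → V n}
    (hγ : ∀ z ∈ C, ∀ y ∈ ball (0 : V n) ρ', γ z y ∈ ball (0 : V n) ρ ∧ Ψ z (γ z y) = Φ z y)
    {z₀ : ℂ} (hz₀ : z₀ ∈ C) {y₀ : V n} (hy₀ : y₀ ∈ ball (0 : V n) ρ') :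
    DifferentiableAt ℂ (γ z₀) y₀ := by
  obtain ⟨hw₀, hw₁⟩ := hγ z₀ hz₀ y₀ hy₀
  obtain ⟨w₀, hww⟩ : ∃ w₀, w₀ = γ z₀ y₀ := ⟨_, rfl⟩
  rw [← hww] at hw₀ hw₁
  obtain ⟨e, he, hxe⟩ : ∃ e ∈ atlas (V n) X, Φ z₀ y₀ ∈ e.source :=
    ⟨chartAt (V n) (Φ z₀ y₀), chart_mem_atlas _ _, mem_chart_source _ _⟩
  have hxe' : Ψ z₀ w₀ ∈ e.source := by rw [hw₁]; exact hxe
  obtain ⟨U, hUdef⟩ : ∃ U : Set (V n), U = ball (0 : V n) ρ ∩ (Ψ z₀) ⁻¹' e.source := ⟨_, rfl⟩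
  have hΨc : ContinuousOn (Ψ z₀) (ball 0 r) := by
    have h1 : ContinuousOn (fun w : V n => (z₀, w)) (ball 0 r) := by fun_prop
    exact hΨ.cont.comp h1 fun w hw => ⟨hz₀, hw⟩
  have hΦc : ContinuousOn (Φ z₀) (ball 0 r') := by
    have h1 : ContinuousOn (fun w : V n => (z₀, w)) (ball 0 r') := by fun_prop
    exact hΦ.cont.comp h1 fun w hw => ⟨hz₀, hw⟩
  have hU : IsOpen U := by
    rw [hUdef]
    exact (hΨc.mono (ball_subset_ball hρ)).isOpen_inter_preimage isOpen_ball e.open_source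
  have hmem : w₀ ∈ U := by
    rw [hUdef]
    exact ⟨hw₀, hxe'⟩
  have hFd : DifferentiableOn ℂ (fun w => e (Ψ z₀ w)) U := by
    intro w hw
    rw [hUdef] at hw
    exact (hΨ.holy z₀ hz₀ w (ball_subset_ball hρ hw.1) e he hw.2).differentiableWithinAt
  have hF := hasStrictFDerivAt_of_differentiableOn hU hFd hmem
  obtain ⟨L, hL⟩ := TRH_equiv _ ((hg z₀ hz₀).2 w₀ hw₀ e he hxe').1
  rw [← hL] at hF
  have hy₁ := ball_subset_ball hρ' hy₀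
  have hev0 : ∀ᶠ y in 𝓝 y₀, y ∈ ball (0 : V n) ρ' := isOpen_ball.mem_nhds hy₀
  have hev : ∀ᶠ y in 𝓝 y₀, y ∈ ball (0 : V n) ρ' ∧ Φ z₀ y ∈ e.source :=
    hev0.and
      ((hΦc.continuousAt (isOpen_ball.mem_nhds hy₁)).eventually (e.open_source.mem_nhds hxe))
  refine imp (F := fun w => e (Ψ z₀ w)) hF (g := fun y => e (Φ z₀ y))
    (hΦ.holy z₀ hz₀ y₀ hy₁ e he hxe) (by show e (Φ z₀ y₀) = e (Ψ z₀ w₀); rw [hw₁])
    (hU.mem_nhds hmem) ?_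
  filter_upwards [hev] with y hy w hw heq
  rw [hUdef] at hw
  have h3 : Ψ z₀ w = Φ z₀ y := e.injOn hw.2 hy.2 heq
  obtain ⟨h4, h5⟩ := hγ z₀ hz₀ y hy.1
  exact (hg z₀ hz₀).1 h4 hw.1 (by rw [h5, h3])

end TH
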