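import Pool.Agent.H94.TH.TRC
import Pool.Agent.H94.TH.TRH

/-! # TRN: the transition map between two thickenings (assembly) -/

set_option autoImplicit false

namespace TH

open Complex Metric Set Filter Topology Manifold ContDiff
open KB (V)

variable {n : ℕ} {X : Type} [MetricSpace X] [ChartedSpace (V n) X]

theorem exists_trans [IsManifold 𝓘(ℂ, V n) ω X] {C : Set ℂ} (hC : IsCompact C) {f : ℂ → X}
    {r r' : ℝ} {Φ Ψ : ℂ → V n → X} (hΦ : ThickOn C f r Φ) (hΨ : ThickOn C f r' Ψ) :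
    ∃ ρ > 0, ρ ≤ r ∧ ∃ γ : ℂ → V n → V n, Fib C ρ γ ∧ (∀ z ∈ C, γ z 0 = 0) ∧
      (∀ z ∈ C, ∀ y ∈ ball (0 : V n) ρ, γ z y ∈ ball (0 : V n) r' ∧ Ψ z (γ z y) = Φ z y) ∧
      ∀ z ∈ C, Function.Bijective (fderiv ℂ (γ z) 0) := by
  obtain ⟨ρ, hρ0, hρ, hg⟩ := exists_good hC hΨ
  obtain ⟨ρ', hρ'0, hρ', hs⟩ := global_surj hC hΦ hΨ hρ0 hρ hg
  classical
  let γ : ℂ → V n → V n := fun z y =>
    if h : ∃ w ∈ ball (0 : V n) ρ, Ψ z w = Φ z y then h.choose else 0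
  have hγ : ∀ z ∈ C, ∀ y ∈ ball (0 : V n) ρ', γ z y ∈ ball (0 : V n) ρ ∧ Ψ z (γ z y) = Φ z y := by
    intro z hz y hy
    have h := hs z hz y hy
    have h1 : γ z y = h.choose := dif_pos h
    rw [h1]
    exact h.choose_spec
  have h0 : ∀ z ∈ C, γ z 0 = 0 := by
    intro z hz
    obtain ⟨h1, h2⟩ := hγ z hz 0 (mem_ball_self hρ'0)
    refine (hg z hz).1 h1 (mem_ball_self hρ0) ?_
    rw [h2, hΦ.zero z hz, hΨ.zero z hz]
  refine ⟨ρ', hρ'0, hρ', γ, ⟨tr_cont hC hΦ hΨ hρ hg hρ' hγ, ?_, ?_⟩, h0, ?_, ?_⟩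
  · intro z hz y hy
    exact tr_holo hC hΦ hΨ hρ hg hρ' hγ hz hy
  · intro z hz y hy
    exact tr_holy hΦ hΨ hρ hg hρ' hγ hz hy
  · intro z hz y hy
    exact ⟨ball_subset_ball hρ (hγ z hz y hy).1, (hγ z hz y hy).2⟩
  · intro z hz
    exact tr_bijective hΦ hΨ hρ'0 (fun z hz y hy => (hγ z hz y hy).2) hz (h0 z hz)
      (tr_holy hΦ hΨ hρ hg hρ' hγ hz (mem_ball_self hρ'0))

end TH
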