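import Pool.Agent.H94.TH.REP
import Pool.Agent.H94.TH.PAS
import Pool.Agent.H94.TH.QFI
import Pool.Agent.H94.TH.CAF
import Pool.Agent.H94.TH.FIX
import Pool.Agent.H94.TH.TRN

/-! # GLU: the gluing lemma (assembly) -/

set_option autoImplicit false

namespace TH

open Complex Metric Set Filter Topology Manifold ContDiff
open KB (V)

variable {n : ℕ} {X : Type} [MetricSpace X] [ChartedSpace (V n) X]

theorem glue_core [IsManifold 𝓘(ℂ, V n) ω X] {S : Set ℂ} (hS : IsCompact S)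
    (hconv : Convex ℝ S) {w : ℂ} (hw : w ≠ 0) {a b : ℝ} (hab : a < b)
    (hint : (interior (mid S w a b)).Nonempty) {f : ℂ → X}
    {rA rB : ℝ} {Φ Ψ : ℂ → V n → X} (hΦ : ThickOn (lo S w b) f rA Φ)
    (hΨ : ThickOn (hi S w a) f rB Ψ) :
    ∃ (r : ℝ) (Θ : ℂ → V n → X), ThickOn S f r Θ := by
  haveI : CompactSpace (lo S w b) := isCompact_iff_compactSpace.1 (isCompact_lo hS)
  haveI : CompactSpace (hi S w a) := isCompact_iff_compactSpace.1 (isCompact_hi hS)
  haveI : CompactSpace (mid S w a b) := isCompact_iff_compactSpace.1 (isCompact_mid hS)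
  have hΦC : ThickOn (mid S w a b) f rA Φ := hΦ.mono mid_sub_lo hΦ.pos le_rfl
  have hΨC : ThickOn (mid S w a b) f rB Ψ := hΨ.mono mid_sub_hi hΨ.pos le_rfl
  obtain ⟨ρ, hρ0, hρ, γ, hγ, hγ0, hγm, hγb⟩ := exists_trans (isCompact_mid hS) hΦC hΨC
  -- the derivative of the transition map along the zero section
  obtain ⟨M, hM⟩ := fdh hγ 0 (fun z _ => by rw [ev_zero]; exact mem_ball_self hρ0)
  have hM' : ∀ z ∈ mid S w a b, ev M z = fderiv ℂ (γ z) 0 := fun z hz => by
    rw [hM z hz, ev_zero]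
  have hMu : ∀ z ∈ mid S w a b, IsUnit (ev M z) := by
    intro z hz
    have h1 := hγb z hz
    rw [← hM' z hz] at h1
    exact (ContinuousLinearMap.isUnit_iff_bijective).2 h1
  obtain ⟨α, β, hα, hβ, hαβ⟩ := cartan hS hconv hw hab hint M hMu
  obtain ⟨β', hβ'⟩ := exists_inv β hβ
  -- restrictions to the overlap
  obtain ⟨resA, hresA⟩ := exists_res (S := lo S w b) (E := V n →L[ℂ] V n)
    (mid_sub_lo (S := S) (w := w) (a := a) (b := b))
  obtain ⟨resB, hresB⟩ := exists_res (S := hi S w a) (E := V n →L[ℂ] V n)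
    (mid_sub_hi (S := S) (w := w) (a := a) (b := b))
  have hβM : ∀ z ∈ mid S w a b,
      ev (resB β') z * (fderiv ℂ (γ z) 0 * ev (resA α) z) = 1 := by
    intro z hz
    rw [hresA α z hz, hresB β' z hz, ← hM' z hz, ← hαβ z hz]
    exact (hβ' z (mid_sub_hi hz)).2
  obtain ⟨ρ', hρ'0, hρα, hq, hq0, hq1⟩ := q_fib hρ0 hγ hγ0 (resA α) (resB β') hβM
  obtain ⟨LA, LB, hL⟩ := split_fin (S := S) (w := w) (a := a) (b := b) (E := V n) hS hw hab
  obtain ⟨r, hr, aa, bb, da, db, a0, b0, a1, b1, hfix⟩ :=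
    fix (mid_sub_lo (S := S) (w := w) (a := a) (b := b)) LA LB hL hρ'0 hq hq0 hq1
  obtain ⟨r₁, hr₁, hr₁r, hT₁⟩ := reparam hΦ hα hr da a0 a1
  obtain ⟨r₂, hr₂, hr₂r, hT₂⟩ := reparam hΨ hβ hr db b0 b1
  obtain ⟨Θ, hΘ⟩ := paste hab (hT₁.mono Subset.rfl (lt_min hr₁ hr₂) (min_le_left _ _))
    (hT₂.mono Subset.rfl (lt_min hr₁ hr₂) (min_le_right _ _)) (by
      intro z hz y hy
      have hyr : y ∈ ball (0 : V n) r :=
        ball_subset_ball ((min_le_left _ _).trans hr₁r) hy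
      obtain ⟨h1, h2⟩ := hfix y hyr z hz
      have h3 : ev α z (y + ev (aa y) z) ∈ ball (0 : V n) ρ := by
        have := hρα z hz (y + ev (aa y) z) (by rwa [mem_ball_zero_iff])
        rwa [hresA α z hz] at this
      rw [← (hγm z hz _ h3).2]
      congr 1
      rw [hresA α z hz, hresB β' z hz] at h2
      have h4 : y + ev (bb y) z = ev β' z (γ z (ev α z (y + ev (aa y) z))) := by
        have h5 : ev (bb y) z = ev (aa y) z +
            (ev β' z (γ z (ev α z (y + ev (aa y) z))) - (y + ev (aa y) z)) := by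
          rw [← h2]; abel
        rw [h5]; abel
      rw [h4]
      have h6 := (hβ' z (mid_sub_hi hz)).1
      have h7 := congrArg (fun T : V n →L[ℂ] V n => T (γ z (ev α z (y + ev (aa y) z)))) h6
      simp only [ContinuousLinearMap.mul_apply', ContinuousLinearMap.one_apply] at h7
      exact h7.symm)
  exact ⟨_, Θ, hΘ⟩

/-- the gluing lemma -/
theorem glue [IsManifold 𝓘(ℂ, V n) ω X] {S : Set ℂ} (hS : IsCompact S)
    (hconv : Convex ℝ S) {w : ℂ} (hw : w ≠ 0) {a b : ℝ} (hab : a < b) {f : ℂ → X}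
    (hA : (interior (lo S w b)).Nonempty → ∃ (r : ℝ) (Φ : ℂ → V n → X), ThickOn (lo S w b) f r Φ)
    (hB : (interior (hi S w a)).Nonempty → ∃ (r : ℝ) (Φ : ℂ → V n → X), ThickOn (hi S w a) f r Φ)
    (hint : (interior S).Nonempty) :
    ∃ (r : ℝ) (Θ : ℂ → V n → X), ThickOn S f r Θ := by
  by_cases h1 : lo S w b = S
  · rw [h1] at hA
    exact hA hint
  by_cases h2 : hi S w a = S
  · rw [h2] at hB
    exact hB hint
  have hm := mid_interior hS hconv hint hw hab h1 h2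
  obtain ⟨rA, Φ, hΦ⟩ := hA (hm.mono (interior_mono mid_sub_lo))
  obtain ⟨rB, Ψ, hΨ⟩ := hB (hm.mono (interior_mono mid_sub_hi))
  exact glue_core hS hconv hw hab hm hΦ hΨ

end TH
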