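import Pool.Agent.H94.TH.FDC

/-!
# IVP: inverse function theorem with a continuous parameter

PROOF. `L₀ : V n ≃L[ℂ] V n` with `(L₀ : V n →L V n) = fderiv ℂ (H z₀) 0` (`LinearEquiv.ofBijective`,
`LinearEquiv.toContinuousLinearEquiv`, finite dimension; or `ContinuousLinearEquiv.ofBijective`). `c = ‖L₀.symm‖⁻¹/2`
(if `V n` is trivial everything is trivial: `Subsingleton`). By `fdc` (continuity at `(z₀, 0)` within
`T ×ˢ ball 0 ρ`) there are `ρ₁ ∈ (0, ρ]` and a neighbourhood of `z₀` in `T` on which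
`‖fderiv ℂ (H z) w - L₀‖ ≤ c` for `w ∈ ball 0 ρ₁`. Mean value inequality:
`ApproximatesLinearOn (H z) L₀ (ball 0 ρ₁) c` (`Convex.norm_image_sub_le_of_norm_hasFDerivWithin_le'`), so `H z` is
injective on `ball 0 ρ₁` (`ApproximatesLinearOn.injOn`) and
`ApproximatesLinearOn.surjOn_closedBall_of_nonlinearRightInverse` gives, for `ρ' < min ρ₁ ρ₂`,
`closedBall (H z 0) ((‖L₀.symm‖⁻¹ - c) ρ') ⊆ H z '' closedBall 0 ρ'`; `H z 0 → H z₀ 0` as `z → z₀` in `T` (`hc`).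
`fderiv ℂ (H z) w` is injective: `‖D v‖ ≥ ‖L₀ v‖ - c ‖v‖ ≥ c ‖v‖` (`‖v‖ ≤ ‖L₀.symm‖ ‖L₀ v‖`), hence bijective
(`LinearMap.injective_iff_surjective`). -/

set_option autoImplicit false

namespace TH

open Complex Metric Set Filter Topology ContDiff
open KB (V)

variable {n : ℕ}

theorem IVP_bij {L₀ : V n ≃L[ℂ] V n} {D : V n →L[ℂ] V n} {c : ℝ}
    (hc : c * ‖(L₀.symm : V n →L[ℂ] V n)‖ < 1) (h : ‖D - (L₀ : V n →L[ℂ] V n)‖ ≤ c) :
    Function.Bijective D := by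
  have hinj : Function.Injective (D : V n →ₗ[ℂ] V n) := by
    rw [← LinearMap.ker_eq_bot, LinearMap.ker_eq_bot']
    intro v hv
    have hv' : D v = 0 := hv
    by_contra hne
    have hpos : 0 < ‖v‖ := norm_pos_iff.mpr hne
    have h1 : ‖v‖ ≤ ‖(L₀.symm : V n →L[ℂ] V n)‖ * ‖L₀ v‖ := by
      have := (L₀.symm : V n →L[ℂ] V n).le_opNorm (L₀ v)
      simpa using this
    have h2 : ‖L₀ v‖ ≤ c * ‖v‖ := by
      have h3 := (D - (L₀ : V n →L[ℂ] V n)).le_opNorm v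
      rw [ContinuousLinearMap.sub_apply, hv', zero_sub, norm_neg] at h3
      exact h3.trans (mul_le_mul_of_nonneg_right h hpos.le)
    have h3 : ‖v‖ ≤ ‖(L₀.symm : V n →L[ℂ] V n)‖ * (c * ‖v‖) :=
      h1.trans (mul_le_mul_of_nonneg_left h2 (norm_nonneg _))
    have h4 : ‖(L₀.symm : V n →L[ℂ] V n)‖ * (c * ‖v‖) < 1 * ‖v‖ := by
      calc ‖(L₀.symm : V n →L[ℂ] V n)‖ * (c * ‖v‖)
          = (c * ‖(L₀.symm : V n →L[ℂ] V n)‖) * ‖v‖ := by ring
        _ < 1 * ‖v‖ := mul_lt_mul_of_pos_right hc hpos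
    linarith
  exact ⟨hinj, LinearMap.injective_iff_surjective.mp hinj⟩

theorem invp {T : Set ℂ} (hT : IsCompact T) {z₀ : ℂ} (hz₀ : z₀ ∈ T) {H : ℂ → V n → V n} {ρ : ℝ}
    (hρ : 0 < ρ) (hc : ContinuousOn (fun p : ℂ × V n => H p.1 p.2) (T ×ˢ ball 0 ρ))
    (hd : ∀ z ∈ T, DifferentiableOn ℂ (H z) (ball 0 ρ))
    (hb : Function.Bijective (fderiv ℂ (H z₀) 0)) :
    ∃ ρ₁ > 0, ρ₁ ≤ ρ ∧
      (∀ᶠ z in 𝓝[T] z₀, InjOn (H z) (ball 0 ρ₁) ∧
        ∀ w ∈ ball (0 : V n) ρ₁, Function.Bijective (fderiv ℂ (H z) w)) ∧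
      ∀ ρ₂ > 0, ∃ ε > 0, ∀ᶠ z in 𝓝[T] z₀, ∀ v ∈ ball (H z₀ 0) ε, ∃ w ∈ ball (0 : V n) ρ₂,
        H z w = v := by
  rcases subsingleton_or_nontrivial (V n) with hs | hs
  · refine ⟨ρ, hρ, le_rfl, Filter.Eventually.of_forall fun z =>
      ⟨fun x _ y _ _ => Subsingleton.elim x y, fun w _ =>
        ⟨fun x y _ => Subsingleton.elim x y, fun y => ⟨0, Subsingleton.elim _ _⟩⟩⟩, ?_⟩
    intro ρ₂ hρ₂
    exact ⟨1, one_pos, Filter.Eventually.of_forall fun z v _ =>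
      ⟨0, mem_ball_self hρ₂, Subsingleton.elim _ _⟩⟩
  -- the equivalence
  let L₀ : V n ≃L[ℂ] V n :=
    (LinearEquiv.ofBijective (fderiv ℂ (H z₀) 0 : V n →ₗ[ℂ] V n) hb).toContinuousLinearEquiv
  have hL₀ : (L₀ : V n →L[ℂ] V n) = fderiv ℂ (H z₀) 0 := by
    ext v
    rfl
  set N : NNReal := ‖(L₀.symm : V n →L[ℂ] V n)‖₊ with hN
  have hNpos : 0 < N := L₀.nnnorm_symm_pos
  have hNr : ‖(L₀.symm : V n →L[ℂ] V n)‖ = (N : ℝ) := rfl
  have hNpos' : (0 : ℝ) < N := by exact_mod_cast hNpos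
  set c : NNReal := N⁻¹ / 2 with hcd
  have hcpos : 0 < c := by positivity
  have hcr : (c : ℝ) = (N : ℝ)⁻¹ / 2 := by rw [hcd]; push_cast; rfl
  have hcpos' : (0 : ℝ) < c := by exact_mod_cast hcpos
  have hcN : (c : ℝ) * N < 1 := by
    rw [hcr]; field_simp; norm_num
  have hclt : c < N⁻¹ := by
    rw [hcd]
    exact NNReal.half_lt_self (inv_pos.mpr hNpos).ne'
  -- continuity of the derivative
  have h0 : ((z₀, 0) : ℂ × V n) ∈ T ×ˢ ball (0 : V n) ρ := ⟨hz₀, mem_ball_self hρ⟩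
  have hD := (fdc hT hc hd) _ h0
  have hev : ∀ᶠ p in 𝓝[T ×ˢ ball (0 : V n) ρ] ((z₀, 0) : ℂ × V n),
      dist (fderiv ℂ (H p.1) p.2) (fderiv ℂ (H z₀) 0) < c :=
    (Metric.tendsto_nhds.mp hD) c hcpos'
  rw [nhdsWithin_prod_eq, (isOpen_ball).nhdsWithin_eq (mem_ball_self hρ)] at hev
  obtain ⟨pa, hpa, pb, hpb, hab⟩ := Filter.eventually_prod_iff.mp hev
  obtain ⟨ρ', hρ', hρb⟩ := Metric.eventually_nhds_iff_ball.mp hpb
  set ρ₁ := min ρ ρ' with hρ₁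
  have hρ₁pos : 0 < ρ₁ := lt_min hρ hρ'
  have happ : ∀ᶠ z in 𝓝[T] z₀, z ∈ T ∧
      (∀ w ∈ ball (0 : V n) ρ₁, ‖fderiv ℂ (H z) w - (L₀ : V n →L[ℂ] V n)‖ ≤ c) ∧
      ApproximatesLinearOn (H z) (L₀ : V n →L[ℂ] V n) (ball 0 ρ₁) c := by
    filter_upwards [hpa, self_mem_nhdsWithin] with z hz hzT
    have h1 : ∀ w ∈ ball (0 : V n) ρ₁, ‖fderiv ℂ (H z) w - (L₀ : V n →L[ℂ] V n)‖ ≤ c := by
      intro w hw
      have := hab hz (hρb w (ball_subset_ball (min_le_right _ _) hw))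
      rw [dist_eq_norm] at this
      rw [hL₀]
      exact this.le
    refine ⟨hzT, h1, ?_⟩
    intro x hx y hy
    have hdz : ∀ w ∈ ball (0 : V n) ρ₁,
        HasFDerivWithinAt (H z) (fderiv ℂ (H z) w) (ball 0 ρ₁) w := by
      intro w hw
      have hw' : w ∈ ball (0 : V n) ρ := ball_subset_ball (min_le_left _ _) hw
      exact ((hd z hzT).differentiableAt (isOpen_ball.mem_nhds hw')).hasFDerivAt.hasFDerivWithinAt
    exact (convex_ball (0 : V n) ρ₁).norm_image_sub_le_of_norm_hasFDerivWithin_le' hdz h1 hy hx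
  refine ⟨ρ₁, hρ₁pos, min_le_left _ _, ?_, ?_⟩
  · filter_upwards [happ] with z hz
    refine ⟨hz.2.2.injOn (Or.inr hclt), fun w hw => ?_⟩
    exact IVP_bij (L₀ := L₀) (by rw [hNr]; exact hcN) (hz.2.1 w hw)
  · intro ρ₂ hρ₂
    set r := min ρ₁ ρ₂ / 2 with hr
    have hmin : 0 < min ρ₁ ρ₂ := lt_min hρ₁pos hρ₂
    have hrpos : 0 < r := by positivity
    have hr1 : r < ρ₁ := by
      have := min_le_left ρ₁ ρ₂
      linarith
    have hr2 : r < ρ₂ := by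
      have := min_le_right ρ₁ ρ₂
      linarith
    refine ⟨c * r / 2, by positivity, ?_⟩
    have hz0 : Tendsto (fun z => H z 0) (𝓝[T] z₀) (𝓝 (H z₀ 0)) := by
      have h1 : Tendsto (fun z : ℂ => ((z, 0) : ℂ × V n)) (𝓝[T] z₀)
          (𝓝[T ×ˢ ball (0 : V n) ρ] ((z₀, 0) : ℂ × V n)) := by
        refine tendsto_nhdsWithin_iff.mpr ⟨?_, ?_⟩
        · exact ((Continuous.prodMk_left (0 : V n)).tendsto z₀).mono_left nhdsWithin_le_nhds
        · filter_upwards [self_mem_nhdsWithin] with z hz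
          exact ⟨hz, mem_ball_self hρ⟩
      exact (hc _ h0).tendsto.comp h1
    have hnear := (Metric.tendsto_nhds.mp hz0) (c * r / 2) (by positivity)
    filter_upwards [happ, hnear] with z hz hzn v hv
    have hsurj := hz.2.2.surjOn_closedBall_of_nonlinearRightInverse
      L₀.toNonlinearRightInverse (ε := r) (b := 0) hrpos.le
      (closedBall_subset_ball hr1)
    have hv' : v ∈ closedBall (H z 0)
        (((L₀.toNonlinearRightInverse.nnnorm : ℝ)⁻¹ - c) * r) := by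
      have e1 : ((L₀.toNonlinearRightInverse.nnnorm : ℝ)⁻¹ - c) * r = c * r := by
        have : (L₀.toNonlinearRightInverse.nnnorm : ℝ) = (N : ℝ) := rfl
        rw [this, hcr]
        ring
      rw [e1, mem_closedBall]
      rw [mem_ball] at hv
      calc dist v (H z 0) ≤ dist v (H z₀ 0) + dist (H z₀ 0) (H z 0) := dist_triangle _ _ _
        _ ≤ c * r / 2 + c * r / 2 := by
          rw [dist_comm (H z₀ 0) (H z 0)]
          exact add_le_add hv.le hzn.le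
        _ = c * r := by ring
    obtain ⟨w, hw, hwv⟩ := hsurj hv'
    exact ⟨w, closedBall_subset_ball hr2 hw, hwv⟩

end TH
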