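import Pool.Agent.H94.TH.Bas

/-!
# TRD: changes of charts

PROOFS.
`tr_diff`: the transition map `e.symm ≫ₕ e'` is in `contDiffGroupoid ω 𝓘(ℂ, V n)`
(`StructureGroupoid.compatible`), so `ContDiffOn ℂ ω (e' ∘ e.symm) ((e.symm ≫ₕ e').source)`
(`contDiffGroupoid`, `contDiffPregroupoid`, `mfld_simps`; see also `Pool/Agent/H49/KI/TopCH.lean`,
`trans_analyticAt`), the source is open and contains `e x`.
`tr_bij`: `(e ∘ e'.symm) ∘ (e' ∘ e.symm) = id` near `e x` and the other way round: chain rule.
`chart_change`: near `s`, `e' (Γ s') = (e' ∘ e.symm) (e (Γ s'))` (`Γ s' ∈ e.source` by continuity, `left_inv`).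
`fderiv_chart_change`: the derivative of the latter. -/

set_option autoImplicit false

namespace TH

open Complex Metric Set Filter Topology Manifold ContDiff
open KB (V)

variable {n : ℕ} {X : Type} [TopologicalSpace X] [ChartedSpace (V n) X]

theorem tr_diff [IsManifold 𝓘(ℂ, V n) ω X] {e e' : OpenPartialHomeomorph X (V n)}
    (he : e ∈ atlas (V n) X) (he' : e' ∈ atlas (V n) X) {x : X} (hx : x ∈ e.source)
    (hx' : x ∈ e'.source) : DifferentiableAt ℂ (fun y => e' (e.symm y)) (e x) := by
  have h := (contDiffGroupoid ω 𝓘(ℂ, V n)).compatible he he'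
  have h1 : ContDiffOn ℂ ω (e' ∘ e.symm) (e.symm.trans e').source := by
    rw [contDiffGroupoid, mem_groupoid_of_pregroupoid] at h
    have h2 := h.1
    simp only [contDiffPregroupoid, modelWithCornersSelf_coe, modelWithCornersSelf_coe_symm,
      Function.id_comp, Function.comp_id, range_id, inter_univ, preimage_id,
      OpenPartialHomeomorph.coe_trans] at h2
    exact h2
  have hmem : e x ∈ (e.symm.trans e').source := by
    rw [OpenPartialHomeomorph.trans_source]
    refine ⟨e.map_source hx, ?_⟩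
    show e.symm (e x) ∈ e'.source
    rw [e.left_inv hx]
    exact hx'
  exact (h1.differentiableOn (by simp)).differentiableAt
    ((e.symm.trans e').open_source.mem_nhds hmem)

theorem tr_bij [IsManifold 𝓘(ℂ, V n) ω X] {e e' : OpenPartialHomeomorph X (V n)}
    (he : e ∈ atlas (V n) X) (he' : e' ∈ atlas (V n) X) {x : X} (hx : x ∈ e.source)
    (hx' : x ∈ e'.source) :
    Function.Bijective (fderiv ℂ (fun y => e' (e.symm y)) (e x)) := by
  have h1 := tr_diff he he' hx hx'
  have h2 := tr_diff he' he hx' hx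
  have key : ∀ {a b : OpenPartialHomeomorph X (V n)}, x ∈ a.source → x ∈ b.source →
      DifferentiableAt ℂ (fun y => b (a.symm y)) (a x) →
      DifferentiableAt ℂ (fun y => a (b.symm y)) (b x) →
      (fderiv ℂ (fun y => a (b.symm y)) (b x)).comp (fderiv ℂ (fun y => b (a.symm y)) (a x)) =
        ContinuousLinearMap.id ℂ (V n) := by
    intro a b ha hb h1 h2
    have e0 : b (a.symm (a x)) = b x := by rw [a.left_inv ha]
    have h2' : HasFDerivAt (fun y => a (b.symm y)) (fderiv ℂ (fun y => a (b.symm y)) (b x))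
        (b (a.symm (a x))) := by
      rw [e0]
      exact h2.hasFDerivAt
    have h3 := h2'.comp (a x) h1.hasFDerivAt
    have h4 : (fun y => a (b.symm y)) ∘ (fun y => b (a.symm y)) =ᶠ[𝓝 (a x)] id := by
      have hmem : a x ∈ (a.symm.trans b).source := by
        rw [OpenPartialHomeomorph.trans_source]
        refine ⟨a.map_source ha, ?_⟩
        show a.symm (a x) ∈ b.source
        rw [a.left_inv ha]
        exact hb
      filter_upwards [(a.symm.trans b).open_source.mem_nhds hmem] with y hy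
      rw [OpenPartialHomeomorph.trans_source] at hy
      have hy1 : y ∈ a.target := hy.1
      have hy2 : a.symm y ∈ b.source := hy.2
      show a (b.symm (b (a.symm y))) = y
      rw [b.left_inv hy2, a.right_inv hy1]
    have h5 : HasFDerivAt ((fun y => a (b.symm y)) ∘ (fun y => b (a.symm y)))
        (ContinuousLinearMap.id ℂ (V n)) (a x) := (hasFDerivAt_id (a x)).congr_of_eventuallyEq h4
    exact h3.unique h5
  have k1 := key hx hx' h1 h2
  have k2 := key hx' hx h2 h1
  refine Function.bijective_iff_has_inverse.2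
    ⟨fderiv ℂ (fun y => e (e'.symm y)) (e' x), fun v => ?_, fun v => ?_⟩
  · exact congrArg (fun L : V n →L[ℂ] V n => L v) k1
  · exact congrArg (fun L : V n →L[ℂ] V n => L v) k2

omit [ChartedSpace (V n) X] in
private theorem TRD_ev {Z : Type} [TopologicalSpace Z] {Γ : Z → X} {s : Z} (hΓ : ContinuousAt Γ s)
    {e e' : OpenPartialHomeomorph X (V n)} (hx : Γ s ∈ e.source) :
    (fun s' => e' (Γ s')) =ᶠ[𝓝 s] (fun y => e' (e.symm y)) ∘ (fun s' => e (Γ s')) := by
  filter_upwards [hΓ.preimage_mem_nhds (e.open_source.mem_nhds hx)] with t ht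
  show e' (Γ t) = e' (e.symm (e (Γ t)))
  rw [e.left_inv ht]

theorem chart_change [IsManifold 𝓘(ℂ, V n) ω X] {Z : Type} [NormedAddCommGroup Z]
    [NormedSpace ℂ Z] {Γ : Z → X} {s : Z} (hΓ : ContinuousAt Γ s)
    {e e' : OpenPartialHomeomorph X (V n)} (he : e ∈ atlas (V n) X) (he' : e' ∈ atlas (V n) X)
    (hx : Γ s ∈ e.source) (hx' : Γ s ∈ e'.source)
    (h : DifferentiableAt ℂ (fun s' => e (Γ s')) s) :
    DifferentiableAt ℂ (fun s' => e' (Γ s')) s := by
  exact ((tr_diff he he' hx hx').comp s h).congr_of_eventuallyEq (TRD_ev hΓ hx)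

theorem fderiv_chart_change [IsManifold 𝓘(ℂ, V n) ω X] {Z : Type} [NormedAddCommGroup Z]
    [NormedSpace ℂ Z] {Γ : Z → X} {s : Z} (hΓ : ContinuousAt Γ s)
    {e e' : OpenPartialHomeomorph X (V n)} (he : e ∈ atlas (V n) X) (he' : e' ∈ atlas (V n) X)
    (hx : Γ s ∈ e.source) (hx' : Γ s ∈ e'.source)
    (h : DifferentiableAt ℂ (fun s' => e (Γ s')) s) :
    fderiv ℂ (fun s' => e' (Γ s')) s =
      (fderiv ℂ (fun y => e' (e.symm y)) (e (Γ s))).comp (fderiv ℂ (fun s' => e (Γ s')) s) := by
  rw [(TRD_ev hΓ hx).fderiv_eq]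
  exact fderiv_comp s (tr_diff he he' hx hx') h

end TH
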