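import Pool.Agent.H94.TH.EVJ
import Pool.Agent.H94.TH.TRD

/-!
# REP: reparametrization of a thickening

`Φ' z y = Φ z (α z (y + a(y)(z)))`.

PROOF. Choose `r' ≤ r`, `r' > 0` with `‖ev α z (y + ev (a y) z)‖ < rA` for `z ∈ A`, `y ∈ ball 0 r'` (`a` is continuous at `0`,
`a 0 = 0`, `‖ev α z‖ ≤ ‖α‖`). Let `κ (z, y) = (z, ev α z (y + ev (a y) z))`: continuous on `A ×ˢ ball 0 r'` with values in
`A ×ˢ ball 0 rA` (`ev_cont`, `ev_continuousOn`), differentiable at `(z, y)` for `z ∈ interior A` (`ev_holo`,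
`ev_differentiableAt`, `DifferentiableAt.clm_apply`), and for fixed `z ∈ A` differentiable in `y`
(`evL z ∘ a`). `zero`: `a 0 = 0`. `cont`, `holo`, `holy`: compositions with `hΦ`.
`inv`: the derivative at `0` of `y ↦ ev α z (y + ev (a y) z)` is `ev α z` (`a' = 0`), bijective (`IsUnit`), composed with
`hΦ.inv` (chain rule at the point `0`). -/

set_option autoImplicit false

namespace TH

open Complex Metric Set Filter Topology Manifold ContDiff
open KB (V)

variable {n : ℕ} {X : Type} [MetricSpace X] [ChartedSpace (V n) X]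

private theorem REP_unit {E : Type} [NormedAddCommGroup E] [NormedSpace ℂ E] {L : E →L[ℂ] E}
    (h : IsUnit L) : Function.Bijective L := by
  obtain ⟨u, rfl⟩ := h
  rw [Function.bijective_iff_has_inverse]
  refine ⟨((u⁻¹ : (E →L[ℂ] E)ˣ) : E →L[ℂ] E), fun x => ?_, fun x => ?_⟩
  · have h1 : ((u⁻¹ : (E →L[ℂ] E)ˣ) : E →L[ℂ] E) * (u : E →L[ℂ] E) = 1 := u.inv_mul
    have h2 := congrArg (fun T : E →L[ℂ] E => T x) h1
    exact h2
  · have h1 : (u : E →L[ℂ] E) * ((u⁻¹ : (E →L[ℂ] E)ˣ) : E →L[ℂ] E) = 1 := u.mul_inv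
    have h2 := congrArg (fun T : E →L[ℂ] E => T x) h1
    exact h2

theorem reparam {A : Set ℂ} [CompactSpace A] {f : ℂ → X} {rA : ℝ} {Φ : ℂ → V n → X}
    (hΦ : ThickOn A f rA Φ) {α : HA A (V n →L[ℂ] V n)} (hα : ∀ z ∈ A, IsUnit (ev α z))
    {a : V n → HA A (V n)} {r : ℝ} (hr : 0 < r) (ha : DifferentiableOn ℂ a (ball 0 r))
    (ha0 : a 0 = 0) (ha1 : HasFDerivAt a (0 : V n →L[ℂ] HA A (V n)) 0) :
    ∃ r' > 0, r' ≤ r ∧ ThickOn A f r' (fun z y => Φ z (ev α z (y + ev (a y) z))) := by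
  have hrA := hΦ.pos
  obtain ⟨B, hB⟩ : ∃ B : ℝ, B = ‖α‖ + 1 := ⟨_, rfl⟩
  have hB0 : 0 < B := by rw [hB]; positivity
  have hαB : ‖α‖ ≤ B := by rw [hB]; linarith
  have hc0 : Tendsto a (𝓝 0) (𝓝 0) := by
    have := ha1.continuousAt
    unfold ContinuousAt at this
    rwa [ha0] at this
  obtain ⟨δ, hδ, hδa⟩ : ∃ δ > 0, ∀ y : V n, ‖y‖ < δ → ‖a y‖ < rA / (2 * B) := by
    obtain ⟨δ, hδ, h⟩ := Metric.tendsto_nhds_nhds.1 hc0 (rA / (2 * B)) (by positivity)
    refine ⟨δ, hδ, fun y hy => ?_⟩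
    have := h (x := y) (by rwa [dist_zero_right])
    rwa [dist_zero_right] at this
  obtain ⟨r', hr'⟩ : ∃ r' : ℝ, r' = min r (min δ (rA / (2 * B))) := ⟨_, rfl⟩
  have hr'0 : 0 < r' := by
    rw [hr']
    exact lt_min hr (lt_min hδ (by positivity))
  have hr'r : r' ≤ r := by rw [hr']; exact min_le_left _ _
  have hr'δ : r' ≤ δ := by rw [hr']; exact (min_le_right _ _).trans (min_le_left _ _)
  have hr'A : r' ≤ rA / (2 * B) := by
    rw [hr']; exact (min_le_right _ _).trans (min_le_right _ _)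
  have hmap : ∀ (z : ℂ) (y : V n), y ∈ ball (0 : V n) r' →
      ev α z (y + ev (a y) z) ∈ ball (0 : V n) rA := by
    intro z y hy
    rw [mem_ball_zero_iff] at hy ⊢
    have h1 : ‖y + ev (a y) z‖ < rA / B := by
      calc ‖y + ev (a y) z‖ ≤ ‖y‖ + ‖ev (a y) z‖ := norm_add_le _ _
        _ ≤ ‖y‖ + ‖a y‖ := by gcongr; exact norm_ev_le _ _
        _ < rA / (2 * B) + rA / (2 * B) := by
            have := hδa y (by linarith)
            linarith
        _ = rA / B := by field_simp; ring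
    calc ‖ev α z (y + ev (a y) z)‖ ≤ ‖ev α z‖ * ‖y + ev (a y) z‖ :=
          ContinuousLinearMap.le_opNorm _ _
      _ ≤ B * ‖y + ev (a y) z‖ := by
          gcongr
          exact (norm_ev_le _ _).trans hαB
      _ < B * (rA / B) := by gcongr
      _ = rA := by field_simp
  have hda : ∀ y ∈ ball (0 : V n) r', DifferentiableAt ℂ a y := fun y hy =>
    ha.differentiableAt (isOpen_ball.mem_nhds (ball_subset_ball hr'r hy))
  have hκc : ContinuousOn (fun p : ℂ × V n => ev α p.1 (p.2 + ev (a p.2) p.1))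
      (A ×ˢ ball 0 r') := by
    refine ContinuousOn.clm_apply ?_ ?_
    · exact (ev_continuousOn α).comp continuousOn_fst (fun p hp => hp.1)
    · exact continuousOn_snd.add
        (ev_cont (ha.continuousOn.mono (ball_subset_ball hr'r)))
  have hκd : ∀ z ∈ interior A, ∀ y ∈ ball (0 : V n) r',
      DifferentiableAt ℂ (fun p : ℂ × V n => ev α p.1 (p.2 + ev (a p.2) p.1)) (z, y) := by
    intro z hz y hy
    refine DifferentiableAt.clm_apply ?_ ?_
    · exact DifferentiableAt.comp (z, y) (ev_differentiableAt α hz) differentiableAt_fst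
    · exact differentiableAt_snd.add (ev_holo (hda y hy) hz)
  have hκy : ∀ z, ∀ y ∈ ball (0 : V n) r',
      DifferentiableAt ℂ (fun y' => ev α z (y' + ev (a y') z)) y := by
    intro z y hy
    have h1 : DifferentiableAt ℂ (fun y' => ev (a y') z) y :=
      ((evL (S := A) (E := V n) z).hasFDerivAt.comp y (hda y hy).hasFDerivAt).differentiableAt
    exact DifferentiableAt.comp y (ev α z).differentiableAt (differentiableAt_id.add h1)
  refine ⟨r', hr'0, hr'r, ⟨hr'0, ?_, ?_, ?_, ?_, ?_⟩⟩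
  · intro z hz
    show Φ z (ev α z (0 + ev (a 0) z)) = f z
    rw [ha0, ev_zero, add_zero, map_zero]
    exact hΦ.zero z hz
  · exact hΦ.cont.comp (continuousOn_fst.prodMk hκc) (fun p hp => ⟨hp.1, hmap p.1 p.2 hp.2⟩)
  · intro z hz y hy e he hs
    exact DifferentiableAt.comp (z, y)
      (g := fun q : ℂ × V n => e (Φ q.1 q.2))
      (f := fun q : ℂ × V n => (q.1, ev α q.1 (q.2 + ev (a q.2) q.1)))
      (hΦ.holo z hz _ (hmap z y hy) e he hs)
      (differentiableAt_fst.prodMk (hκd z hz y hy))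
  · intro z hz y hy e he hs
    exact DifferentiableAt.comp y
      (g := fun y' : V n => e (Φ z y'))
      (f := fun y' : V n => ev α z (y' + ev (a y') z))
      (hΦ.holy z hz _ (hmap z y hy) e he hs) (hκy z y hy)
  · intro z hz e he hs
    have h0 : ev α z (0 + ev (a 0) z) = 0 := by
      rw [ha0, ev_zero, add_zero, map_zero]
    have h1 : DifferentiableAt ℂ (fun y' : V n => e (Φ z y')) 0 :=
      hΦ.holy z hz 0 (mem_ball_self hrA) e he (by rw [hΦ.zero z hz]; exact hs)
    have h2 : HasFDerivAt (fun y' : V n => ev α z (y' + ev (a y') z)) (ev α z) 0 := by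
      have e1 : HasFDerivAt (fun y' : V n => ev (a y') z)
          ((evL (S := A) (E := V n) z).comp (0 : V n →L[ℂ] HA A (V n))) 0 :=
        (evL (S := A) (E := V n) z).hasFDerivAt.comp (0 : V n) ha1
      have e2 := (ev α z).hasFDerivAt.comp (0 : V n) ((hasFDerivAt_id (0 : V n)).add e1)
      have e3 : (ev α z).comp (ContinuousLinearMap.id ℂ (V n) +
          (evL (S := A) (E := V n) z).comp (0 : V n →L[ℂ] HA A (V n))) = ev α z := by
        ext1 v
        simp
      rw [e3] at e2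
      exact e2
    have h3 : HasFDerivAt (fun y' : V n => e (Φ z (ev α z (y' + ev (a y') z))))
        ((fderiv ℂ (fun y' : V n => e (Φ z y')) 0).comp (ev α z)) 0 := by
      have h4 : HasFDerivAt (fun y' : V n => e (Φ z y'))
          (fderiv ℂ (fun y' : V n => e (Φ z y')) 0) (ev α z (0 + ev (a 0) z)) := by
        rw [h0]
        exact h1.hasFDerivAt
      exact h4.comp (0 : V n) h2
    show Function.Bijective (fderiv ℂ (fun y' : V n => e (Φ z (ev α z (y' + ev (a y') z)))) 0)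
    rw [h3.fderiv]
    exact (hΦ.inv z hz e he hs).comp (REP_unit (hα z hz))

end TH
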