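import Mathlib

/-!
# RUA: `1/(z - ζ)` is a uniform limit of polynomials on a convex compact set not containing `ζ`

PROOF. `K = ∅` trivial. By `geometric_hahn_banach_compact_closed`/`geometric_hahn_banach_closed_point` (or the
nearest point projection) there are `u : ℂ` with `‖u‖ = 1` and `d > 0` with `re (conj u * (z - ζ)) ≥ d` for all
`z ∈ K`. Let `D` bound `‖z - ζ‖` on `K`, `t > D²/(2d)` and `c = ζ + t u`. Then
`‖z - c‖² = ‖z - ζ‖² - 2 t re (conj u (z - ζ)) + t² ≤ D² - 2 t d + t² < t² = ‖ζ - c‖²`, so with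
`ρ = sqrt (D² - 2td + t²)/t < 1` we have `‖(z - c)/(ζ - c)‖ ≤ ρ` on `K` and
`1/(z - ζ) = -1/(ζ - c) * 1/(1 - (z - c)/(ζ - c)) = -(1/(ζ - c)) ∑_k ((z - c)/(ζ - c))^k`; the partial sums are
polynomials and converge uniformly on `K` (remainder `≤ t⁻¹ ρ^N/(1 - ρ)`). -/

set_option autoImplicit false

namespace TH

open Complex Metric Set Filter Topology

/-- separation by a disc -/
private theorem RUA_sep {K : Set ℂ} (hK : IsCompact K) (hc : Convex ℝ K) {ζ : ℂ} (hζ : ζ ∉ K) :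
    ∃ c : ℂ, ∀ z ∈ K, ‖z - c‖ < ‖ζ - c‖ := by
  obtain ⟨f, u, hf1, hf2⟩ := geometric_hahn_banach_closed_point hc hK.isClosed hζ
  obtain ⟨D, hD⟩ := hK.isBounded.exists_norm_le
  obtain ⟨D', hD'⟩ : ∃ D', D' = D + ‖ζ‖ := ⟨_, rfl⟩
  obtain ⟨d, hd⟩ : ∃ d, d = f ζ - u := ⟨_, rfl⟩
  have hd0 : 0 < d := by rw [hd]; linarith
  obtain ⟨t, ht⟩ : ∃ t, t = D' ^ 2 / d := ⟨_, rfl⟩
  have ht0 : 0 ≤ t := by rw [ht]; positivity
  have htd : t * d = D' ^ 2 := by rw [ht]; field_simp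
  have hfe : ∀ w : ℂ, f w = w.re * f 1 + w.im * f Complex.I := by
    intro w
    have h1 : w = (w.re : ℝ) • (1 : ℂ) + (w.im : ℝ) • Complex.I := by
      apply Complex.ext <;> simp
    conv_lhs => rw [h1]
    rw [map_add, map_smul, map_smul, smul_eq_mul, smul_eq_mul]
  refine ⟨⟨ζ.re - t * f 1, ζ.im - t * f Complex.I⟩, ?_⟩
  intro z hz
  have h1 := hf1 z hz
  have h2 : ‖z - ζ‖ ≤ D' := by
    rw [hD']
    exact (norm_sub_le _ _).trans (by linarith [hD z hz])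
  have h3 : f z - f ζ < -d := by rw [hd]; linarith
  rw [hfe z, hfe ζ] at h3
  have h4 : ‖z - ζ‖ ^ 2 = (z.re - ζ.re) ^ 2 + (z.im - ζ.im) ^ 2 := by
    rw [← Complex.normSq_eq_norm_sq, Complex.normSq_apply]
    simp only [Complex.sub_re, Complex.sub_im]
    ring
  have h5 : ‖z - ζ‖ ^ 2 ≤ D' ^ 2 := by
    have := norm_nonneg (z - ζ)
    nlinarith
  refine lt_of_pow_lt_pow_left₀ 2 (norm_nonneg _) ?_
  rw [← Complex.normSq_eq_norm_sq, ← Complex.normSq_eq_norm_sq, Complex.normSq_apply,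
    Complex.normSq_apply]
  simp only [Complex.sub_re, Complex.sub_im]
  rw [h4] at h5
  rcases eq_or_lt_of_le ht0 with h0 | h0
  · -- then `D' = 0`, so `z = ζ`
    exfalso
    have h6 : D' ^ 2 = 0 := by rw [← htd, ← h0, zero_mul]
    have h7 : z.re = ζ.re := by nlinarith
    have h8 : z.im = ζ.im := by nlinarith
    exact hζ (by rw [← Complex.ext h7 h8]; exact hz)
  · have h6 : t * ((z.re * f 1 + z.im * f Complex.I) - (ζ.re * f 1 + ζ.im * f Complex.I)) <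
        t * (-d) := mul_lt_mul_of_pos_left h3 h0
    nlinarith

theorem inv_approx {K : Set ℂ} (hK : IsCompact K) (hc : Convex ℝ K) {ζ : ℂ} (hζ : ζ ∉ K) {ε : ℝ}
    (hε : 0 < ε) : ∃ p : ℂ → ℂ, Differentiable ℂ p ∧ ∀ z ∈ K, ‖(z - ζ)⁻¹ - p z‖ < ε := by
  rcases K.eq_empty_or_nonempty with he | hne
  · exact ⟨fun _ => 0, differentiable_const _, fun z hz => by rw [he] at hz; exact hz.elim⟩
  obtain ⟨c, hcK⟩ := RUA_sep hK hc hζ
  obtain ⟨z₁, hz₁, hmax⟩ := hK.exists_isMaxOn hne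
    (f := fun z => ‖z - c‖) (by fun_prop)
  have hR : 0 < ‖ζ - c‖ := lt_of_le_of_lt (norm_nonneg _) (hcK z₁ hz₁)
  have hR' : ζ - c ≠ 0 := norm_pos_iff.1 hR
  obtain ⟨ρ, hρ⟩ : ∃ ρ, ρ = ‖z₁ - c‖ / ‖ζ - c‖ := ⟨_, rfl⟩
  have hρ0 : 0 ≤ ρ := by rw [hρ]; positivity
  have hρ1 : ρ < 1 := by rw [hρ, div_lt_one hR]; exact hcK z₁ hz₁
  have hq : ∀ z ∈ K, ‖z - c‖ ≤ ρ * ‖ζ - c‖ := by
    intro z hz
    rw [hρ, div_mul_cancel₀ _ hR.ne']
    exact hmax hz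
  obtain ⟨δ, hδ⟩ : ∃ δ, δ = (1 - ρ) * ‖ζ - c‖ := ⟨_, rfl⟩
  have hδ0 : 0 < δ := by rw [hδ]; exact mul_pos (by linarith) hR
  obtain ⟨N, hN⟩ := exists_pow_lt_of_lt_one (mul_pos hε hδ0) hρ1
  refine ⟨fun z => -(ζ - c)⁻¹ * ∑ k ∈ Finset.range N, ((z - c) / (ζ - c)) ^ k, by fun_prop, ?_⟩
  intro z hz
  have hzζ : z - ζ ≠ 0 := by
    intro h
    rw [sub_eq_zero] at h
    exact hζ (h ▸ hz)
  have hq1 : (z - c) / (ζ - c) ≠ 1 := by
    intro h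
    rw [div_eq_one_iff_eq hR'] at h
    apply hzζ
    linear_combination h
  have hq2 : (z - c) / (ζ - c) - 1 = (z - ζ) / (ζ - c) := by
    field_simp
    ring
  have hkey : (z - ζ)⁻¹ - -(ζ - c)⁻¹ * ∑ k ∈ Finset.range N, ((z - c) / (ζ - c)) ^ k =
      (z - ζ)⁻¹ * ((z - c) / (ζ - c)) ^ N := by
    rw [geom_sum_eq hq1, hq2]
    generalize ((z - c) / (ζ - c)) ^ N = Q
    field_simp
    ring
  show ‖(z - ζ)⁻¹ - -(ζ - c)⁻¹ * ∑ k ∈ Finset.range N, ((z - c) / (ζ - c)) ^ k‖ < ε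
  rw [hkey, norm_mul, norm_inv, norm_pow, norm_div]
  have h1 : ‖z - c‖ / ‖ζ - c‖ ≤ ρ := by
    rw [div_le_iff₀ hR]
    exact hq z hz
  have h2 : (‖z - c‖ / ‖ζ - c‖) ^ N ≤ ρ ^ N := pow_le_pow_left₀ (by positivity) h1 N
  have h3 : δ ≤ ‖z - ζ‖ := by
    have h4 : ‖ζ - c‖ ≤ ‖z - ζ‖ + ‖z - c‖ := by
      have := norm_sub_le (z - c) (z - ζ)
      have h5 : (z - c) - (z - ζ) = ζ - c := by ring
      rw [h5] at this
      linarith
    rw [hδ]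
    linarith [hq z hz]
  have h4 : 0 < ‖z - ζ‖ := lt_of_lt_of_le hδ0 h3
  rw [inv_mul_lt_iff₀ h4]
  calc (‖z - c‖ / ‖ζ - c‖) ^ N ≤ ρ ^ N := h2
    _ < ε * δ := hN
    _ ≤ ε * ‖z - ζ‖ := mul_le_mul_of_nonneg_left h3 hε.le
    _ = ‖z - ζ‖ * ε := mul_comm _ _

end TH
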