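import Pool.Agent.H94.TH.CTD

/-!
# RUB: integral representation of a holomorphic function near a compact set

PROOF. Let `κ : ℂ → ℝ` be smooth, `κ = 1` on a neighbourhood of `K`, with compact support contained in `U`
(`exists_contMDiff_...` as in `Pool/Agent/H51/Carpet/Cauchy.lean`, proof of `solve`; or `exists_smooth_...`;
take compact `K ⊆ interior K' ⊆ K' ⊆ U`, `exists_compact_between`). `g = κ h` (`0` outside `U`) is `C¹` with
compact support: `h` is `C^∞` on `U` (`DifferentiableOn.contDiffOn` over `ℂ`, `ContDiffOn.restrict_scalars`).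
`φ = dbar g` is continuous (`Carpet.continuous_dbar`) with support in `tsupport g`; near `z ∈ K`, `g = h` so
`φ = 0` (`dbar_of_differentiableAt`). Representation: `Carpet.integral_dbar_ker` applied to `t ↦ g (z + t)` gives
`∫ ker t * φ (z + t) = - g z`; substitute `t ↦ -t` (`integral_neg_eq_self`, `ker (-t) = - ker t`):
`∫ ker t * φ (z - t) = g z`, that is `cau φ z = g z`, and `cau_eq`. -/

set_option autoImplicit false

namespace TH

open Complex Metric Set Filter Topology MeasureTheory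
open Pool.Agent.H51

theorem RUB_congr {f g : ℂ → ℂ} {z : ℂ} (h : f =ᶠ[𝓝 z] g) :
    Carpet.dbar f z = Carpet.dbar g z := by
  unfold Carpet.dbar
  rw [h.fderiv_eq]

theorem RUB_zero {f : ℂ → ℂ} {z : ℂ} (h : ∀ᶠ w in 𝓝 z, f w = 0) : Carpet.dbar f z = 0 := by
  have h1 : f =ᶠ[𝓝 z] fun _ => (0 : ℂ) := h
  rw [RUB_congr h1]
  unfold Carpet.dbar
  simp

theorem RUB_rep {g : ℂ → ℂ} (hg : ContDiff ℝ 1 g) (hgc : HasCompactSupport g) (z : ℂ) :
    g z = ∫ t, Carpet.ker (z - t) * Carpet.dbar g t := by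
  have h1 := Carpet.integral_dbar_ker (fun t => g (z + t)) (hg.comp (contDiff_const.add contDiff_id))
    (hgc.comp_homeomorph (Homeomorph.addLeft z))
  have h2 : ∀ t, Carpet.dbar (fun t => g (z + t)) t = Carpet.dbar g (z + t) := by
    intro t
    unfold Carpet.dbar
    rw [fderiv_comp_add_left]
  simp only [h2, add_zero] at h1
  rw [← integral_add_left_eq_self (fun t => Carpet.ker (z - t) * Carpet.dbar g t) z]
  have h3 : ∀ t, Carpet.ker (z - (z + t)) * Carpet.dbar g (z + t) =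
      -(Carpet.ker t * Carpet.dbar g (z + t)) := by
    intro t
    have : z - (z + t) = -t := by ring
    rw [this]
    unfold Carpet.ker
    rw [mul_neg, inv_neg, neg_mul]
  simp only [h3]
  rw [integral_neg, h1, neg_neg]

theorem exists_rep {K U : Set ℂ} (hK : IsCompact K) (hU : IsOpen U) (hKU : K ⊆ U) {h : ℂ → ℂ}
    (hh : DifferentiableOn ℂ h U) :
    ∃ φ : ℂ → ℂ, Continuous φ ∧ HasCompactSupport φ ∧ (∀ z ∈ K, z ∉ tsupport φ) ∧
      ∀ z ∈ K, h z = ∫ t, Carpet.ker (z - t) * φ t := by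
  obtain ⟨K₂, hK₂, hKK₂, hK₂U⟩ := exists_compact_between hK hU hKU
  obtain ⟨K₁, hK₁, hKK₁, hK₁K₂⟩ := exists_compact_between hK isOpen_interior hKK₂
  obtain ⟨κ, hκ, -, hκ0, hκ1⟩ := exists_contMDiff_zero_iff_one_iff_of_isClosed
    (modelWithCornersSelf ℝ ℂ) (n := 1) (s := (interior K₂)ᶜ) (t := K₁)
    isOpen_interior.isClosed_compl hK₁.isClosed (by
      rw [disjoint_comm, disjoint_compl_right_iff_subset]
      exact hK₁K₂)
  have hκ' : ContDiff ℝ 1 κ := hκ.contDiff
  obtain ⟨g, hgdef⟩ : ∃ g : ℂ → ℂ, ∀ z, g z = (κ z : ℂ) * h z := ⟨_, fun z => rfl⟩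
  have hg0 : ∀ z, z ∉ K₂ → g z = 0 := by
    intro z hz
    have h1 : κ z = 0 := (hκ0 z).1 (fun h => hz (interior_subset h))
    rw [hgdef, h1]
    simp
  have hg0' : ∀ z, z ∉ K₂ → ∀ᶠ w in 𝓝 z, g w = 0 := by
    intro z hz
    filter_upwards [hK₂.isClosed.isOpen_compl.mem_nhds hz] with w hw
    exact hg0 w hw
  have hg : ContDiff ℝ 1 g := by
    rw [contDiff_iff_contDiffAt]
    intro z
    by_cases hz : z ∈ K₂
    · have hzU : U ∈ 𝓝 z := hU.mem_nhds (hK₂U hz)
      have h1 : ContDiffAt ℂ 1 h z := (hh.analyticAt hzU).contDiffAt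
      have h2 : ContDiffAt ℝ 1 h z := h1.restrict_scalars ℝ
      have h3 : ContDiffAt ℝ 1 (fun z => ((κ z : ℝ) : ℂ)) z :=
        (Complex.ofRealCLM.contDiff.comp hκ').contDiffAt
      have h4 : g = fun z => ((κ z : ℝ) : ℂ) * h z := funext hgdef
      rw [h4]
      exact h3.mul h2
    · have h1 : g =ᶠ[𝓝 z] fun _ => (0 : ℂ) := hg0' z hz
      exact contDiffAt_const.congr_of_eventuallyEq h1
  have hgc : HasCompactSupport g := HasCompactSupport.intro hK₂ hg0
  have hzero : ∀ z ∈ interior K₁, Carpet.dbar g z = 0 := by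
    intro z hz
    have h1 : g =ᶠ[𝓝 z] h := by
      filter_upwards [isOpen_interior.mem_nhds hz] with w hw
      have h2 : κ w = 1 := (hκ1 w).1 (interior_subset hw)
      rw [hgdef, h2]
      simp
    rw [RUB_congr h1]
    apply dbar_of_differentiableAt
    exact hh.differentiableAt (hU.mem_nhds (hK₂U (interior_subset (hK₁K₂ (interior_subset hz)))))
  refine ⟨Carpet.dbar g, Carpet.continuous_dbar hg, ?_, ?_, ?_⟩
  · exact HasCompactSupport.intro hK₂ fun z hz => RUB_zero (hg0' z hz)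
  · intro z hz
    rw [notMem_tsupport_iff_eventuallyEq]
    filter_upwards [isOpen_interior.mem_nhds (hKK₁ hz)] with w hw
    exact hzero w hw
  · intro z hz
    rw [← RUB_rep hg hgc z, hgdef, (hκ1 z).1 (interior_subset (hKK₁ hz))]
    simp

end TH
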