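import Pool.Agent.H94.TH.RUA
import Pool.Agent.H94.TH.RUB

/-!
# RUC: Runge approximation on convex compact sets (functions holomorphic near `K`)

PROOF. `φ` from `exists_rep`, `T = tsupport φ` compact, disjoint from `K`. `haveI : CompactSpace K`.
`F : ℂ → C(K, ℂ)`, `F t = (z ↦ ker (z - t) * φ t)` for `t ∈ T`, `F t = 0` otherwise; `F` is continuous
(`(t, z) ↦ ker (z - t)` is uniformly continuous on `T × K`, `φ` is continuous and vanishes off `T`) with compact
support, hence integrable, and `(∫ F) z = h z` (evaluation at `z` is a continuous linear map,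
`ContinuousLinearMap.integral_comp_comm`). Let `P` be the closure (`Submodule.topologicalClosure`) of the
submodule of `C(K, ℂ)` of the restrictions of entire functions. By `inv_approx`, `F t ∈ P` for all `t`. `P` is
closed (complete), so `∫ F ∈ P` (view `F` as a map to `P`: `P.subtypeL.integral_comp_comm`). Hence `h|_K ∈ P`.
ALTERNATIVE without `C(K, ℂ)`: a Riemann sum: partition `T` into finitely many measurable pieces `T_i` of small
diameter with `t_i ∈ T_i`; `∑ ker (z - t_i) ∫_{T_i} φ` is uniformly close to `h z` on `K`, and each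
`ker (z - t_i)` is approximated by `inv_approx`. -/

set_option autoImplicit false

namespace TH

open Complex Metric Set Filter Topology MeasureTheory

open Pool.Agent.H51

theorem RUC_cont {K : Set ℂ} {φ : ℂ → ℂ} (hφ : Continuous φ)
    (hK : ∀ z ∈ K, z ∉ tsupport φ) :
    Continuous (fun q : ℂ × K => Carpet.ker ((q.2 : ℂ) - q.1) * φ q.1) := by
  rw [continuous_iff_continuousAt]
  rintro ⟨t, z⟩
  by_cases ht : t ∈ tsupport φ
  · have hne : ((z : ℂ) - t) ≠ 0 := by
      intro h
      apply hK z z.2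
      rwa [sub_eq_zero.1 h]
    have h1 : ContinuousAt (fun q : ℂ × K => Carpet.ker ((q.2 : ℂ) - q.1)) (t, z) := by
      unfold Carpet.ker
      apply ContinuousAt.inv₀
      · fun_prop
      · exact mul_ne_zero (by exact_mod_cast Real.pi_ne_zero) hne
    exact h1.mul (hφ.comp continuous_fst).continuousAt
  · have h2 : ∀ᶠ s in 𝓝 t, φ s = 0 := notMem_tsupport_iff_eventuallyEq.1 ht
    have h3 := (continuous_fst.tendsto ((t, z) : ℂ × K)).eventually h2
    refine ContinuousAt.congr (f := fun _ => (0 : ℂ)) continuousAt_const ?_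
    filter_upwards [h3] with q hq
    rw [hq, mul_zero]

/-- the restrictions of entire functions -/
def RUC_P (K : Set ℂ) : Submodule ℝ C(K, ℂ) where
  carrier := {f | ∃ p : ℂ → ℂ, Differentiable ℂ p ∧ ∀ z : K, f z = p z}
  add_mem' := by
    rintro f g ⟨p, hp, hfp⟩ ⟨q, hq, hgq⟩
    exact ⟨fun z => p z + q z, hp.add hq, fun z => by
      rw [ContinuousMap.add_apply, hfp, hgq]⟩
  zero_mem' := ⟨fun _ => 0, differentiable_const _, fun z => rfl⟩
  smul_mem' := by
    rintro c f ⟨p, hp, hfp⟩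
    exact ⟨fun z => (c : ℂ) * p z, hp.const_mul _, fun z => by
      rw [ContinuousMap.smul_apply, hfp, Complex.real_smul]⟩

theorem RUC_mem {K : Set ℂ} (hK : IsCompact K) [CompactSpace K] (hc : Convex ℝ K) {φ : ℂ → ℂ}
    (hφK : ∀ z ∈ K, z ∉ tsupport φ) (t : ℂ) (f : C(K, ℂ))
    (hf : ∀ z : K, f z = Carpet.ker ((z : ℂ) - t) * φ t) :
    f ∈ (RUC_P K).topologicalClosure := by
  have hpi : (Real.pi : ℂ) ≠ 0 := by exact_mod_cast Real.pi_ne_zero
  by_cases ht : t ∈ tsupport φ
  · have htK : t ∉ K := fun h => hφK t h ht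
    rw [← SetLike.mem_coe, Submodule.topologicalClosure_coe, Metric.mem_closure_iff]
    intro ε hε
    obtain ⟨p, hp, hpε⟩ := inv_approx hK hc htK
      (show (0 : ℝ) < ε / (‖φ t‖ + 1) by positivity)
    refine ⟨⟨fun z : K => (Real.pi : ℂ)⁻¹ * p z * φ t, by
      have := hp.continuous
      fun_prop⟩, ⟨fun z => (Real.pi : ℂ)⁻¹ * p z * φ t, ?_, fun z => rfl⟩, ?_⟩
    · exact (hp.const_mul _).mul_const _
    · rw [ContinuousMap.dist_lt_iff hε]
      intro z
      have h1 := hpε z z.2
      rw [dist_eq_norm, hf]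
      have h2 : Carpet.ker ((z : ℂ) - t) * φ t - (Real.pi : ℂ)⁻¹ * p z * φ t =
          (Real.pi : ℂ)⁻¹ * (((z : ℂ) - t)⁻¹ - p z) * φ t := by
        rw [Carpet.ker, mul_inv]
        ring
      show ‖Carpet.ker ((z : ℂ) - t) * φ t - (Real.pi : ℂ)⁻¹ * p z * φ t‖ < ε
      rw [h2, norm_mul, norm_mul, norm_inv, Complex.norm_real, Real.norm_of_nonneg Real.pi_pos.le]
      have h3 : Real.pi⁻¹ ≤ 1 := inv_le_one_of_one_le₀ (by linarith [Real.pi_gt_three])
      have h4 : Real.pi⁻¹ * ‖((z : ℂ) - t)⁻¹ - p z‖ ≤ ‖((z : ℂ) - t)⁻¹ - p z‖ :=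
        mul_le_of_le_one_left (norm_nonneg _) h3
      calc Real.pi⁻¹ * ‖((z : ℂ) - t)⁻¹ - p z‖ * ‖φ t‖
          ≤ ‖((z : ℂ) - t)⁻¹ - p z‖ * (‖φ t‖ + 1) := by
            apply mul_le_mul h4 (by linarith) (norm_nonneg _) (norm_nonneg _)
        _ < ε / (‖φ t‖ + 1) * (‖φ t‖ + 1) := by
            apply mul_lt_mul_of_pos_right h1
            positivity
        _ = ε := div_mul_cancel₀ _ (by positivity)
  · have h0 : φ t = 0 := image_eq_zero_of_notMem_tsupport ht
    have : f = 0 := by
      ext z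
      rw [hf, h0, mul_zero]
      rfl
    rw [this]
    exact zero_mem _

theorem approx_open {K U : Set ℂ} (hK : IsCompact K) (hc : Convex ℝ K) (hU : IsOpen U)
    (hKU : K ⊆ U) {h : ℂ → ℂ} (hh : DifferentiableOn ℂ h U) {ε : ℝ} (hε : 0 < ε) :
    ∃ p : ℂ → ℂ, Differentiable ℂ p ∧ ∀ z ∈ K, ‖h z - p z‖ < ε := by
  obtain ⟨φ, hφc, hφs, hφK, hrep⟩ := exists_rep hK hU hKU hh
  have hcs : CompactSpace K := isCompact_iff_compactSpace.1 hK
  obtain ⟨F, hFv⟩ : ∃ F : C(ℂ, C(K, ℂ)), ∀ t (z : K), F t z = Carpet.ker ((z : ℂ) - t) * φ t :=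
    ⟨ContinuousMap.curry ⟨_, RUC_cont hφc hφK⟩, fun t z => rfl⟩
  have hFP : ∀ t, F t ∈ (RUC_P K).topologicalClosure := fun t =>
    RUC_mem hK hc hφK t (F t) (hFv t)
  have hF0 : ∀ t, t ∉ tsupport φ → F t = 0 := by
    intro t ht
    ext z
    rw [hFv, image_eq_zero_of_notMem_tsupport ht, mul_zero]
    rfl
  have hcl : IsClosed ((RUC_P K).topologicalClosure : Set C(K, ℂ)) :=
    Submodule.isClosed_topologicalClosure _
  have hcomp : CompleteSpace (RUC_P K).topologicalClosure := hcl.completeSpace_coe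
  have hint : Integrable (fun t => (⟨F t, hFP t⟩ : (RUC_P K).topologicalClosure)) := by
    apply Continuous.integrable_of_hasCompactSupport (F.continuous.subtype_mk _)
    refine HasCompactSupport.intro hφs.isCompact fun t ht => ?_
    exact Subtype.ext (hF0 t ht)
  have hintF : Integrable (fun t => F t) := by
    apply Continuous.integrable_of_hasCompactSupport F.continuous
    exact HasCompactSupport.intro hφs.isCompact fun t ht => hF0 t ht
  have h1 : ∫ t, F t = ((∫ t, (⟨F t, hFP t⟩ : (RUC_P K).topologicalClosure) :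
      (RUC_P K).topologicalClosure) : C(K, ℂ)) :=
    (RUC_P K).topologicalClosure.subtypeL.integral_comp_comm hint
  have hmem : ∫ t, F t ∈ (RUC_P K).topologicalClosure := by
    rw [h1]
    exact SetLike.coe_mem _
  have hval : ∀ z : K, (∫ t, F t) z = h z := by
    intro z
    have h2 := (ContinuousMap.evalCLM ℝ z).integral_comp_comm hintF
    have h3 : (∫ t, F t) z = ∫ t, F t z := h2.symm
    rw [h3, hrep z z.2]
    exact integral_congr_ae (Filter.Eventually.of_forall fun t => hFv t z)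
  rw [← SetLike.mem_coe, Submodule.topologicalClosure_coe, Metric.mem_closure_iff] at hmem
  obtain ⟨f, ⟨p, hp, hfp⟩, hd⟩ := hmem ε hε
  refine ⟨p, hp, fun z hz => ?_⟩
  rw [ContinuousMap.dist_lt_iff hε] at hd
  have h4 := hd ⟨z, hz⟩
  rw [hval, hfp, dist_eq_norm] at h4
  exact h4

end TH
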