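import Pool.Agent.H94.TH.RUC

/-!
# RUD: Runge approximation on convex compact sets

PROOFS.
`runge_scalar`: choose `c ∈ interior K`, `h_t z = h (c + t (z - c))`, `0 < t < 1`. `h_t` is holomorphic on the
open set `{z | c + t (z - c) ∈ interior K} ⊇ K` (`Convex.openSegment_interior_self_subset_interior` or
`Convex.combo_interior_self_mem_interior`), and `h_t → h` uniformly on `K` as `t → 1` (uniform continuity on `K`,
`‖c + t (z - c) - z‖ ≤ (1 - t) diam K`); `approx_open`.
`runge`: `E` finite dimensional: basis `b` of `E`, `h = ∑ i, (c_i ∘ h) • b_i`. -/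

set_option autoImplicit false

namespace TH

open Complex Metric Set Filter Topology

theorem runge_scalar {K : Set ℂ} (hK : IsCompact K) (hc : Convex ℝ K)
    (hi : (interior K).Nonempty) {h : ℂ → ℂ} (h1 : ContinuousOn h K)
    (h2 : DifferentiableOn ℂ h (interior K)) {ε : ℝ} (hε : 0 < ε) :
    ∃ p : ℂ → ℂ, Differentiable ℂ p ∧ ∀ z ∈ K, ‖h z - p z‖ < ε := by
  obtain ⟨c, hcK⟩ := hi
  have huc := hK.uniformContinuousOn_of_continuous h1
  rw [Metric.uniformContinuousOn_iff] at huc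
  obtain ⟨δ, hδ, hδ2⟩ := huc (ε / 2) (half_pos hε)
  obtain ⟨R, hR0, hR⟩ := hK.isBounded.subset_ball_lt 0 c
  -- the contraction factor
  obtain ⟨s, hs0, hs1, hsR⟩ : ∃ s : ℝ, 0 < s ∧ s < 1 ∧ s * R < δ := by
    refine ⟨min (1 / 2) (δ / (2 * R)), by positivity, ?_, ?_⟩
    · exact lt_of_le_of_lt (min_le_left _ _) (by norm_num)
    · have e1 : min (1 / 2) (δ / (2 * R)) * R ≤ δ / (2 * R) * R :=
        mul_le_mul_of_nonneg_right (min_le_right _ _) hR0.le
      have e2 : δ / (2 * R) * R = δ / 2 := by field_simp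
      rw [e2] at e1
      linarith
  have hmap : ∀ z ∈ K, c + ((1 - s : ℝ) : ℂ) * (z - c) ∈ interior K := by
    intro z hz
    have e := hc.combo_interior_self_mem_interior hcK hz (a := s) (b := 1 - s) hs0
      (by linarith) (by ring)
    have e2 : c + ((1 - s : ℝ) : ℂ) * (z - c) = s • c + (1 - s) • z := by
      rw [Complex.real_smul, Complex.real_smul]
      push_cast
      ring
    rw [e2]
    exact e
  have hcont : Continuous fun z : ℂ => c + ((1 - s : ℝ) : ℂ) * (z - c) := by fun_prop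
  have hdiff : Differentiable ℂ fun z : ℂ => c + ((1 - s : ℝ) : ℂ) * (z - c) := by fun_prop
  have hU : IsOpen ((fun z : ℂ => c + ((1 - s : ℝ) : ℂ) * (z - c)) ⁻¹' interior K) :=
    isOpen_interior.preimage hcont
  obtain ⟨p, hp, hp2⟩ := approx_open hK hc hU (fun z hz => hmap z hz)
    (h := fun z => h (c + ((1 - s : ℝ) : ℂ) * (z - c)))
    (h2.comp hdiff.differentiableOn (fun z hz => hz)) (half_pos hε)
  refine ⟨p, hp, fun z hz => ?_⟩
  have e3 : dist (h z) (h (c + ((1 - s : ℝ) : ℂ) * (z - c))) < ε / 2 := by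
    refine hδ2 z hz _ (interior_subset (hmap z hz)) ?_
    rw [dist_eq_norm]
    have e4 : z - (c + ((1 - s : ℝ) : ℂ) * (z - c)) = (s : ℂ) * (z - c) := by
      push_cast
      ring
    rw [e4, norm_mul, Complex.norm_real, Real.norm_eq_abs, abs_of_pos hs0]
    have e5 : ‖z - c‖ < R := by
      have := hR hz
      rwa [mem_ball, dist_eq_norm] at this
    have e6 : s * ‖z - c‖ ≤ s * R := mul_le_mul_of_nonneg_left e5.le hs0.le
    linarith
  rw [dist_eq_norm] at e3
  have e7 := hp2 z hz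
  have e8 : h z - p z = (h z - h (c + ((1 - s : ℝ) : ℂ) * (z - c))) +
      (h (c + ((1 - s : ℝ) : ℂ) * (z - c)) - p z) := by ring
  rw [e8]
  refine lt_of_le_of_lt (norm_add_le _ _) ?_
  linarith

theorem runge {E : Type} [NormedAddCommGroup E] [NormedSpace ℂ E] [FiniteDimensional ℂ E]
    {K : Set ℂ} (hK : IsCompact K) (hc : Convex ℝ K) (hi : (interior K).Nonempty) {h : ℂ → E}
    (h1 : ContinuousOn h K) (h2 : DifferentiableOn ℂ h (interior K)) {ε : ℝ} (hε : 0 < ε) :
    ∃ p : ℂ → E, Differentiable ℂ p ∧ ∀ z ∈ K, ‖h z - p z‖ < ε := by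
  let B := Module.finBasis ℂ E
  have hsum0 : 0 ≤ ∑ i, ‖B i‖ := Finset.sum_nonneg fun i _ => norm_nonneg _
  have hε' : 0 < ε / (∑ i, ‖B i‖ + 1) := by positivity
  have key : ∀ i, ∃ p : ℂ → ℂ, Differentiable ℂ p ∧
      ∀ z ∈ K, ‖LinearMap.toContinuousLinearMap (B.coord i) (h z) - p z‖ <
        ε / (∑ i, ‖B i‖ + 1) := fun i =>
    runge_scalar hK hc hi
      ((LinearMap.toContinuousLinearMap (B.coord i)).continuous.comp_continuousOn h1)
      ((LinearMap.toContinuousLinearMap (B.coord i)).differentiable.comp_differentiableOn h2) hε'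
  choose p hp hp2 using key
  refine ⟨fun z => ∑ i, p i z • B i, ?_, ?_⟩
  · exact Differentiable.fun_sum fun i _ => (hp i).smul_const _
  · intro z hz
    have e1 : h z = ∑ i, B.coord i (h z) • B i := (B.sum_repr (h z)).symm
    have e2 : h z - ∑ i, p i z • B i = ∑ i, (B.coord i (h z) - p i z) • B i := by
      conv_lhs => rw [e1]
      rw [← Finset.sum_sub_distrib]
      refine Finset.sum_congr rfl fun i _ => ?_
      rw [sub_smul]
    show ‖h z - ∑ i, p i z • B i‖ < ε
    rw [e2]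
    have e3 : ‖∑ i, (B.coord i (h z) - p i z) • B i‖ ≤
        ∑ i, ε / (∑ i, ‖B i‖ + 1) * ‖B i‖ := by
      refine norm_sum_le_of_le _ fun i _ => ?_
      rw [norm_smul]
      exact mul_le_mul_of_nonneg_right (hp2 i z hz).le (norm_nonneg _)
    refine lt_of_le_of_lt e3 ?_
    rw [← Finset.mul_sum]
    have e4 : ε / (∑ i, ‖B i‖ + 1) * (∑ i, ‖B i‖ + 1) = ε := by
      field_simp
    nlinarith

end TH
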