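import Pool.Agent.H94.TH.CTC
import Pool.Agent.H94.TH.GEO

/-!
# SPA: additive splitting, scalar functions

`chi w a b`: smooth cut off, `0` where `re (w z) ≤ a + (b-a)/3`, `1` where `re (w z) ≥ a + 2(b-a)/3`.
`spl S w a b σ h z = (chi z - σ) h(z) - cau (∂̄chi · h) z`, where `h` is extended by `0` outside `mid S w a b`.

PROOFS. `h : HA (mid S w a b) ℂ`; `ev h` vanishes outside `C = mid S w a b`.
`chi_contDiff`: `Real.smoothTransition.contDiff`, composition with an affine map.
`spl_phi_adm`: `t ↦ dbar chi t * ev h t` is measurable (`ev h` is continuous on the closed set `C` and zero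
outside: `ContinuousOn.measurable_piecewise` or `measurable_of_isOpen`..; `dbar chi` is continuous:
`Pool.Agent.H51.Carpet.continuous_dbar`), bounded (`dbar chi` is bounded on the compact set `C`),
vanishes outside `ball 0 R ⊇ S`. The bound is `K₀ ‖h‖` with `K₀` independent of `h`.
`spl_cont_lo` (`σ = 0`): on `lo S w b`, `chi z * ev h z` is continuous: on the closed set `C` as a product, on
the closed set `{z ∈ S | re (w z) ≤ a + (b-a)/3}` it is `0`; these two closed sets cover `lo S w b`
(`ContinuousOn.union_of_isClosed`). `cau_continuous`.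
`spl_*_hi` (`σ = 1`): the same with `chi - 1`, which vanishes where `re (w z) ≥ a + 2(b-a)/3`. -/

set_option autoImplicit false

namespace TH

open Complex Metric Set Filter Topology MeasureTheory ContDiff
open Pool.Agent.H51

/-- smooth cut off function -/
noncomputable def chi (w : ℂ) (a b : ℝ) (z : ℂ) : ℂ :=
  (Real.smoothTransition (3 * (((w * z).re - a) / (b - a)) - 1) : ℝ)

/-- the splitting functions -/
noncomputable def spl (S : Set ℂ) (w : ℂ) (a b : ℝ) (σ : ℂ) (h : HA (mid S w a b) ℂ) (z : ℂ) : ℂ :=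
  (chi w a b z - σ) * ev h z - cau (fun t => Carpet.dbar (chi w a b) t * ev h t) z

theorem chi_contDiff (w : ℂ) (a b : ℝ) : ContDiff ℝ ∞ (chi w a b) := by
  have h1 : ContDiff ℝ ∞ (fun z : ℂ => 3 * (((w * z).re - a) / (b - a)) - 1) := by
    have h2 : ContDiff ℝ ∞ (fun z : ℂ => (w * z).re) :=
      Complex.reCLM.contDiff.comp (contDiff_const.mul contDiff_id)
    exact (contDiff_const.mul ((h2.sub contDiff_const).div_const _)).sub contDiff_const
  exact Complex.ofRealCLM.contDiff.comp (Real.smoothTransition.contDiff.comp h1)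

theorem chi_zero {w : ℂ} {a b : ℝ} (hab : a < b) {z : ℂ} (hz : (w * z).re ≤ a + (b - a) / 3) :
    chi w a b z = 0 := by
  have hpos : 0 < b - a := sub_pos.2 hab
  have h1 : ((w * z).re - a) / (b - a) ≤ 1 / 3 := by
    rw [div_le_iff₀ hpos]
    linarith
  unfold chi
  rw [Real.smoothTransition.zero_of_nonpos (by linarith)]
  simp

theorem chi_one {w : ℂ} {a b : ℝ} (hab : a < b) {z : ℂ} (hz : a + 2 * (b - a) / 3 ≤ (w * z).re) :
    chi w a b z = 1 := by
  have hpos : 0 < b - a := sub_pos.2 hab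
  have h1 : 2 / 3 ≤ ((w * z).re - a) / (b - a) := by
    rw [le_div_iff₀ hpos]
    linarith
  unfold chi
  rw [Real.smoothTransition.one_of_one_le (by linarith)]
  simp

theorem SPA_norm_chi (w : ℂ) (a b : ℝ) (z : ℂ) : ‖chi w a b z‖ ≤ 1 := by
  unfold chi
  rw [Complex.norm_real, Real.norm_eq_abs, abs_of_nonneg (Real.smoothTransition.nonneg _)]
  exact Real.smoothTransition.le_one _

variable {S : Set ℂ} {w : ℂ} {a b : ℝ} [CompactSpace (mid S w a b)]

omit [CompactSpace (mid S w a b)] in
theorem SPA_measurable (hS : IsCompact S) (h : HA (mid S w a b) ℂ) : Measurable (ev h) := by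
  classical
  have hC : IsClosed (mid S w a b) := (isCompact_mid hS).isClosed
  have h1 : ev h = (mid S w a b).piecewise (ev h) (fun _ => 0) := by
    funext z
    by_cases hz : z ∈ mid S w a b
    · rw [Set.piecewise_eq_of_mem _ _ _ hz]
    · rw [Set.piecewise_eq_of_notMem _ _ _ hz, ev_of_not_mem h hz]
  rw [h1]
  exact ContinuousOn.measurable_piecewise (ev_continuousOn h) continuousOn_const hC.measurableSet

theorem SPA_dbar_cont (w : ℂ) (a b : ℝ) : Continuous (Carpet.dbar (chi w a b)) :=
  Carpet.continuous_dbar ((chi_contDiff w a b).of_le (by exact_mod_cast le_top))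

theorem spl_phi_adm (hS : IsCompact S) {R : ℝ} (hR : S ⊆ ball 0 R) :
    ∃ K₀, ∀ h : HA (mid S w a b) ℂ, Adm R (fun t => Carpet.dbar (chi w a b) t * ev h t) ∧
      (∀ t, ‖Carpet.dbar (chi w a b) t * ev h t‖ ≤ K₀ * ‖h‖) ∧
      ∀ t, ‖chi w a b t * ev h t‖ ≤ K₀ * ‖h‖ := by
  obtain ⟨K₁, hK₁⟩ := (isCompact_mid (w := w) (a := a) (b := b) hS).exists_bound_of_continuousOn
    (SPA_dbar_cont w a b).continuousOn
  refine ⟨max K₁ 1, fun h => ?_⟩
  have hK1 : (1 : ℝ) ≤ max K₁ 1 := le_max_right _ _
  have hK0 : (0 : ℝ) ≤ max K₁ 1 := zero_le_one.trans hK1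
  have hb1 : ∀ t, ‖Carpet.dbar (chi w a b) t * ev h t‖ ≤ max K₁ 1 * ‖h‖ := by
    intro t
    by_cases ht : t ∈ mid S w a b
    · rw [norm_mul]
      exact mul_le_mul ((hK₁ t ht).trans (le_max_left _ _)) (norm_ev_le h t) (norm_nonneg _) hK0
    · rw [ev_of_not_mem h ht, mul_zero, norm_zero]
      exact mul_nonneg hK0 (norm_nonneg _)
  refine ⟨⟨(SPA_dbar_cont w a b).measurable.mul (SPA_measurable hS h), ⟨_, hb1⟩, fun z hz => ?_⟩,
    hb1, fun t => ?_⟩
  · have hz' : z ∉ mid S w a b := fun hm => hz (hR hm.1)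
    show Carpet.dbar (chi w a b) z * ev h z = 0
    rw [ev_of_not_mem h hz', mul_zero]
  · rw [norm_mul]
    exact mul_le_mul ((SPA_norm_chi w a b t).trans hK1) (norm_ev_le h t) (norm_nonneg _) hK0

theorem SPA_cau_cont (hS : IsCompact S) (h : HA (mid S w a b) ℂ) :
    Continuous (cau (fun t => Carpet.dbar (chi w a b) t * ev h t)) := by
  obtain ⟨R, -, hR⟩ := hS.isBounded.subset_ball_lt 0 (0 : ℂ)
  obtain ⟨K₀, hK⟩ := spl_phi_adm (w := w) (a := a) (b := b) hS hR
  exact cau_continuous (hK h).1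

theorem SPA_cont (hS : IsCompact S) (h : HA (mid S w a b) ℂ) (σ : ℂ) (D T : Set ℂ)
    (hD : IsClosed D) (hσ : ∀ z ∈ D, chi w a b z = σ) (hT : T ⊆ mid S w a b ∪ D) :
    ContinuousOn (spl S w a b σ h) T := by
  have hC : IsClosed (mid S w a b) := (isCompact_mid hS).isClosed
  have h1 : ContinuousOn (fun z => (chi w a b z - σ) * ev h z) (mid S w a b) :=
    (((chi_contDiff w a b).continuous.sub continuous_const).continuousOn).mul (ev_continuousOn h)
  have h2 : ContinuousOn (fun z => (chi w a b z - σ) * ev h z) D := by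
    have h0 : ContinuousOn (fun _ : ℂ => (0 : ℂ)) D := continuousOn_const
    refine h0.congr fun z hz => ?_
    show (chi w a b z - σ) * ev h z = 0
    rw [hσ z hz, sub_self, zero_mul]
  have h3 := (h1.union_of_isClosed h2 hC hD).mono hT
  exact h3.sub (SPA_cau_cont hS h).continuousOn

theorem spl_cont_lo (hS : IsCompact S) (hab : a < b) (h : HA (mid S w a b) ℂ) :
    ContinuousOn (spl S w a b 0 h) (lo S w b) := by
  have hc : Continuous (fun z : ℂ => (w * z).re) :=
    Complex.continuous_re.comp (continuous_const.mul continuous_id)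
  refine SPA_cont hS h 0 {z : ℂ | (w * z).re ≤ a + (b - a) / 3} _
    (isClosed_le hc continuous_const) (fun z hz => chi_zero hab hz) fun z hz => ?_
  by_cases h1 : a ≤ (w * z).re
  · exact Or.inl ⟨hz.1, h1, hz.2⟩
  · right
    show (w * z).re ≤ a + (b - a) / 3
    linarith

theorem spl_cont_hi (hS : IsCompact S) (hab : a < b) (h : HA (mid S w a b) ℂ) :
    ContinuousOn (spl S w a b 1 h) (hi S w a) := by
  have hc : Continuous (fun z : ℂ => (w * z).re) :=
    Complex.continuous_re.comp (continuous_const.mul continuous_id)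
  refine SPA_cont hS h 1 {z : ℂ | a + 2 * (b - a) / 3 ≤ (w * z).re} _
    (isClosed_le continuous_const hc) (fun z hz => chi_one hab hz) fun z hz => ?_
  by_cases h1 : (w * z).re ≤ b
  · exact Or.inl ⟨hz.1, hz.2, h1⟩
  · right
    show a + 2 * (b - a) / 3 ≤ (w * z).re
    linarith

end TH
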