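import Pool.Agent.H94.TH.CTD
import Pool.Agent.H94.TH.SPA

/-!
# SPH: additive splitting, scalar functions: holomorphy

See SPA.lean for the definitions of `chi`, `spl`.

PROOFS. `ev h` vanishes outside `C = mid S w a b`.
`spl_holo_lo`: let `z₀ ∈ interior (lo S w b)`, so `z₀ ∈ interior S`, `re (w z₀) < b` (`interior_lo_re`).
If `re (w z₀) > a`: `z₀ ∈ interior C`; on a ball about `z₀` in `interior C` the function `φ = dbar chi * ev h` is
`C¹` (`ev h` is holomorphic there), so by `cau_dbar` at every point `z` of it, `cau φ` is real differentiable with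
`dbar (cau φ) z = dbar chi z * ev h z`, and `dbar (chi * ev h) z = dbar chi z * ev h z` (`Carpet.dbar_mul`,
`dbar_of_differentiableAt`); so `dbar (spl ..) z₀ = 0`: `differentiableAt_of_dbar`.
If `re (w z₀) ≤ a`: near `z₀`, `chi = 0` and `dbar chi = 0`: `cau_holo`.
`spl_holo_hi` (`σ = 1`): the same with `chi - 1`, which vanishes where `re (w z) ≥ a + 2(b-a)/3`; `z₀ ∈ interior (hi S w a)`
has `re (w z₀) > a` (`interior_hi_re`), and either `re (w z₀) < b`, `z₀ ∈ interior C`, or `chi - 1 = 0`, `dbar chi = 0` near `z₀`. -/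

set_option autoImplicit false

namespace TH

open Complex Metric Set Filter Topology MeasureTheory ContDiff
open Pool.Agent.H51

variable {S : Set ℂ} {w : ℂ} {a b : ℝ} [CompactSpace (mid S w a b)]

theorem SPH_dbar_contDiff (w : ℂ) (a b : ℝ) : ContDiff ℝ 1 (Carpet.dbar (chi w a b)) := by
  have h1 : ContDiff ℝ 1 (fderiv ℝ (chi w a b)) :=
    (chi_contDiff w a b).fderiv_right
      (WithTop.coe_le_coe.2 (le_top : (2 : ℕ∞) ≤ ⊤) : ((1 : WithTop ℕ∞) + 1 : WithTop ℕ∞) ≤ ∞)
  unfold Carpet.dbar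
  exact contDiff_const.mul ((h1.clm_apply contDiff_const).add
    (contDiff_const.mul (h1.clm_apply contDiff_const)))

theorem SPH_at_mid (hS : IsCompact S) (h : HA (mid S w a b) ℂ) (σ : ℂ) {z₀ : ℂ}
    (hz : z₀ ∈ interior (mid S w a b)) : DifferentiableAt ℂ (spl S w a b σ h) z₀ := by
  obtain ⟨R, -, hR⟩ := hS.isBounded.subset_ball_lt 0 (0 : ℂ)
  obtain ⟨K₀, hK⟩ := spl_phi_adm (w := w) (a := a) (b := b) hS hR
  have hadm := (hK h).1
  obtain ⟨δ, hδ, hball⟩ := Metric.isOpen_iff.1 isOpen_interior z₀ hz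
  have hev : ContDiffOn ℝ 1 (ev h) (ball z₀ δ) := by
    have h1 : DifferentiableOn ℂ (ev h) (ball z₀ δ) := (ev_differentiableOn h).mono hball
    exact (h1.contDiffOn isOpen_ball).restrict_scalars ℝ
  have hφ : ContDiffOn ℝ 1 (fun t => Carpet.dbar (chi w a b) t * ev h t) (ball z₀ δ) :=
    (SPH_dbar_contDiff w a b).contDiffOn.mul hev
  obtain ⟨hd, hdb⟩ := cau_dbar hadm hδ hφ
  have hchi : DifferentiableAt ℝ (chi w a b) z₀ :=
    (chi_contDiff w a b).differentiable (by simp) z₀
  have hevC : DifferentiableAt ℂ (ev h) z₀ := ev_differentiableAt h hz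
  have hevR : DifferentiableAt ℝ (ev h) z₀ := hevC.restrictScalars ℝ
  have hc1 : DifferentiableAt ℝ (fun z => chi w a b z + (-σ)) z₀ := hchi.add_const _
  have hm1 : DifferentiableAt ℝ (fun z => (chi w a b z + (-σ)) * ev h z) z₀ := hc1.mul hevR
  have hm2 : DifferentiableAt ℝ
      (fun z => (-1 : ℂ) * cau (fun t => Carpet.dbar (chi w a b) t * ev h t) z) z₀ :=
    (differentiableAt_const _).mul hd
  have hspl : spl S w a b σ h = fun z => (chi w a b z + (-σ)) * ev h z +
      (-1 : ℂ) * cau (fun t => Carpet.dbar (chi w a b) t * ev h t) z := by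
    funext z
    unfold spl
    ring
  rw [hspl]
  apply differentiableAt_of_dbar (hm1.add hm2)
  have e1 : Carpet.dbar (fun z => chi w a b z + (-σ)) z₀ = Carpet.dbar (chi w a b) z₀ := by
    have := Carpet.dbar_add (φ := chi w a b) (ψ := fun _ => -σ) (z := z₀) hchi
      (differentiableAt_const _)
    rw [this, Carpet.dbar_const, add_zero]
  have e2 : Carpet.dbar (ev h) z₀ = 0 := dbar_of_differentiableAt hevC
  have e3 : Carpet.dbar (fun z => (chi w a b z + (-σ)) * ev h z +
      (-1 : ℂ) * cau (fun t => Carpet.dbar (chi w a b) t * ev h t) z) z₀ = 0 := by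
    rw [Carpet.dbar_add hm1 hm2, Carpet.dbar_mul hc1 hevR,
      Carpet.dbar_mul (differentiableAt_const _) hd, e1, e2, hdb, Carpet.dbar_const]
    ring
  exact e3

theorem SPH_dbar_congr {φ ψ : ℂ → ℂ} {z : ℂ} (h : φ =ᶠ[𝓝 z] ψ) :
    Carpet.dbar φ z = Carpet.dbar ψ z := by
  simp only [Carpet.dbar, h.fderiv_eq]

theorem SPH_at_off (hS : IsCompact S) (h : HA (mid S w a b) ℂ) (σ : ℂ) {z₀ : ℂ}
    (hz : ∀ᶠ z in 𝓝 z₀, chi w a b z = σ) : DifferentiableAt ℂ (spl S w a b σ h) z₀ := by
  obtain ⟨R, -, hR⟩ := hS.isBounded.subset_ball_lt 0 (0 : ℂ)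
  obtain ⟨K₀, hK⟩ := spl_phi_adm (w := w) (a := a) (b := b) hS hR
  have hadm := (hK h).1
  obtain ⟨δ, hδ, hball⟩ := Metric.eventually_nhds_iff_ball.1 hz
  have h0 : ∀ z ∈ ball z₀ δ, Carpet.dbar (chi w a b) z * ev h z = 0 := by
    intro z hz'
    have h1 : chi w a b =ᶠ[𝓝 z] fun _ => σ := by
      filter_upwards [isOpen_ball.mem_nhds hz'] with y hy
      exact hball y hy
    rw [SPH_dbar_congr h1, Carpet.dbar_const, zero_mul]
  have h2 : DifferentiableAt ℂ (cau (fun t => Carpet.dbar (chi w a b) t * ev h t)) z₀ :=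
    (cau_holo hadm h0).differentiableAt (ball_mem_nhds z₀ hδ)
  have h3 : spl S w a b σ h =ᶠ[𝓝 z₀]
      fun z => -(cau (fun t => Carpet.dbar (chi w a b) t * ev h t) z) := by
    filter_upwards [ball_mem_nhds z₀ hδ] with y hy
    unfold spl
    rw [hball y hy]
    ring
  exact h2.neg.congr_of_eventuallyEq h3

theorem spl_holo_lo (hS : IsCompact S) (hw : w ≠ 0) (hab : a < b) (h : HA (mid S w a b) ℂ) :
    DifferentiableOn ℂ (spl S w a b 0 h) (interior (lo S w b)) := by
  intro z₀ hz₀
  obtain ⟨h1, h2⟩ := interior_lo_re hw hz₀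
  apply DifferentiableAt.differentiableWithinAt
  by_cases h3 : a < (w * z₀).re
  · exact SPH_at_mid hS h 0 (mem_interior_mid h1 h3 h2)
  · apply SPH_at_off hS h 0
    have hc : Continuous (fun z : ℂ => (w * z).re) :=
      Complex.continuous_re.comp (continuous_const.mul continuous_id)
    have h4 : ∀ᶠ z in 𝓝 z₀, (w * z).re < a + (b - a) / 3 := by
      apply hc.continuousAt.eventually_lt continuousAt_const
      show (w * z₀).re < a + (b - a) / 3
      linarith
    filter_upwards [h4] with z hz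
    exact chi_zero hab hz.le

theorem spl_holo_hi (hS : IsCompact S) (hw : w ≠ 0) (hab : a < b) (h : HA (mid S w a b) ℂ) :
    DifferentiableOn ℂ (spl S w a b 1 h) (interior (hi S w a)) := by
  intro z₀ hz₀
  obtain ⟨h1, h2⟩ := interior_hi_re hw hz₀
  apply DifferentiableAt.differentiableWithinAt
  by_cases h3 : (w * z₀).re < b
  · exact SPH_at_mid hS h 1 (mem_interior_mid h1 h2 h3)
  · apply SPH_at_off hS h 1
    have hc : Continuous (fun z : ℂ => (w * z).re) :=
      Complex.continuous_re.comp (continuous_const.mul continuous_id)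
    have h4 : ∀ᶠ z in 𝓝 z₀, a + 2 * (b - a) / 3 < (w * z).re := by
      apply continuousAt_const.eventually_lt hc.continuousAt
      show a + 2 * (b - a) / 3 < (w * z₀).re
      linarith
    filter_upwards [h4] with z hz
    exact chi_one hab hz.le

end TH
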