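import Pool.Agent.H94.TH.FDH

/-!
# SUP: the superposition operator `g ↦ q(·, g(·))` is holomorphic

PROOF. Take `ρ = r/8`. For `g ∈ ball 0 ρ` let `N g` be the element given by `fcomp` (`norm_ev_le` gives
`ev g z ∈ ball 0 r`), `N g = 0` otherwise (`open Classical`, `if h : ‖g‖ < ρ then (fcomp ..).choose else 0`).
Derivative at `g ∈ ball 0 ρ`: let `D` be given by `fdh`; the continuous linear map `T δ`, with
`ev (T δ) z = ev D z (ev δ z)` exists by `exists_CLM` (bound `‖D‖ ‖δ‖`; holomorphy: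
`DifferentiableOn.clm_apply`). By `taylor2` with centre `0`, radius `r' = r/2` (bound `M` from
`fib_bound`; `ev g z`, `ev g z + ev δ z ∈ ball 0 (r'/4)` for `g, g + δ ∈ ball 0 ρ`):
`‖ev (N (g + δ) - N g - T δ) z‖ ≤ 8 M/r'² ‖δ‖²` for all `z ∈ S`, so `HasFDerivAt N T g`
(`norm_le_of`; `hasFDerivAt_iff_isLittleO_nhds_zero`, or `HasFDerivAt.of_isLittleO`).
`N 0 = 0`: `HA_ext`. At `g = 0`: `ev D z = fderiv ℂ (q z) 0 = 0`, so `T = 0`. -/

set_option autoImplicit false

namespace TH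

open Complex Metric Set Filter Topology ContDiff
open KB (V)

variable {n : ℕ} {E : Type} [NormedAddCommGroup E] [NormedSpace ℂ E]

theorem superposition [CompleteSpace E] {S : Set ℂ} [CompactSpace S] {q : ℂ → V n → E} {r : ℝ}
    (hr : 0 < r) (hq : Fib S r q) (h0 : ∀ z ∈ S, q z 0 = 0)
    (h1 : ∀ z ∈ S, fderiv ℂ (q z) 0 = 0) :
    ∃ N : HA S (V n) → HA S E, ∃ ρ > 0, ρ ≤ r ∧
      (∀ g, ‖g‖ < ρ → ∀ z ∈ S, ev (N g) z = q z (ev g z)) ∧
      DifferentiableOn ℂ N (ball 0 ρ) ∧ N 0 = 0 ∧ fderiv ℂ N 0 = 0 := by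
  classical
  have hS : IsCompact S := isCompact_iff_compactSpace.2 inferInstance
  obtain ⟨M, hM0, hM⟩ := fib_bound hS (r' := r / 2) (by linarith) hq.cont
  obtain ⟨ρ, hρ⟩ : ∃ ρ : ℝ, ρ = r / 8 := ⟨_, rfl⟩
  have hρ0 : 0 < ρ := by rw [hρ]; positivity
  have hball : ∀ g : HA S (V n), ‖g‖ < ρ → ∀ z ∈ S, ev g z ∈ ball (0 : V n) r := by
    intro g hg z hz
    rw [mem_ball_zero_iff]
    exact (norm_ev_le g z).trans_lt (hg.trans (by linarith))
  have hsm : ∀ g : HA S (V n), ‖g‖ < ρ → ∀ z, ev g z ∈ ball (0 : V n) (r / 2 / 4) := by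
    intro g hg z
    rw [mem_ball_zero_iff]
    exact (norm_ev_le g z).trans_lt (hg.trans_eq (by rw [hρ]; ring))
  obtain ⟨N, hNdef⟩ : ∃ N : HA S (V n) → HA S E, ∀ g, ‖g‖ < ρ → ∀ z ∈ S,
      ev (N g) z = q z (ev g z) := by
    refine ⟨fun g => if h : ‖g‖ < ρ then (fcomp hq g (hball g h)).choose else 0, ?_⟩
    intro g hg z hz
    have e1 : (if h : ‖g‖ < ρ then (fcomp hq g (hball g h)).choose else 0) =
        (fcomp hq g (hball g hg)).choose := dif_pos hg
    show ev (if h : ‖g‖ < ρ then (fcomp hq g (hball g h)).choose else 0) z = q z (ev g z)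
    rw [e1]
    exact (fcomp hq g (hball g hg)).choose_spec z hz
  have hN := hNdef
  have hder : ∀ g, ‖g‖ < ρ → ∃ T : HA S (V n) →L[ℂ] HA S E,
      (∀ δ, ∀ z ∈ S, ev (T δ) z = fderiv ℂ (q z) (ev g z) (ev δ z)) ∧ HasFDerivAt N T g := by
    intro g hg
    obtain ⟨D, hD⟩ := fdh hq g (hball g hg)
    obtain ⟨T, hT⟩ := exists_CLM (S := S) (S' := S) (K := ‖D‖) (E := V n) (E' := E)
      (fun δ z => ev D z (ev δ z))
      (fun δ => (ev_continuousOn D).clm_apply (ev_continuousOn δ))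
      (fun δ => (ev_differentiableOn D).clm_apply (ev_differentiableOn δ))
      (fun δ δ' z _ => by rw [ev_add, map_add])
      (fun c δ z _ => by rw [ev_smul, map_smul])
      (fun δ z _ => ((ev D z).le_opNorm _).trans
        (mul_le_mul (norm_ev_le D z) (norm_ev_le δ z) (norm_nonneg _) (norm_nonneg _)))
    refine ⟨T, fun δ z hz => by rw [hT δ z hz, hD z hz], ?_⟩
    have hest : ∀ δ, ‖g + δ‖ < ρ →
        ‖N (g + δ) - N g - T δ‖ ≤ 8 * M / (r / 2) ^ 2 * ‖δ‖ ^ 2 := by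
      intro δ hδ
      apply norm_le_of (by positivity)
      intro z hz
      rw [ev_sub, ev_sub, hN _ hδ z hz, hN g hg z hz, hT δ z hz, hD z hz, ev_add]
      have hd : DifferentiableOn ℂ (q z) (ball 0 (r / 2)) := by
        intro y hy
        exact (hq.holy z hz y (ball_subset_ball (by linarith) hy)).differentiableWithinAt
      have h2 := taylor2 (r := r / 2) (w₀ := (0 : V n)) (f := q z) (by positivity) hd (M := M)
        (fun w hw => hM z hz w (ball_subset_closedBall hw)) (w := ev g z) (δ := ev δ z)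
        (hsm g hg z) (by rw [← ev_add]; exact hsm _ hδ z)
      refine h2.trans ?_
      have h3 : ‖ev δ z‖ ^ 2 ≤ ‖δ‖ ^ 2 := pow_le_pow_left₀ (norm_nonneg _) (norm_ev_le δ z) 2
      exact mul_le_mul_of_nonneg_left h3 (by positivity)
    rw [hasFDerivAt_iff_isLittleO_nhds_zero]
    have hev : ∀ᶠ δ in 𝓝 (0 : HA S (V n)), ‖g + δ‖ < ρ := by
      have hc : Continuous (fun δ : HA S (V n) => ‖g + δ‖) := by fun_prop
      have := hc.tendsto 0
      rw [add_zero] at this
      exact this.eventually (gt_mem_nhds hg)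
    have hO : (fun δ : HA S (V n) => N (g + δ) - N g - T δ) =O[𝓝 0]
        (fun δ : HA S (V n) => ‖δ‖ ^ 2) := by
      refine Asymptotics.IsBigO.of_bound (8 * M / (r / 2) ^ 2) ?_
      filter_upwards [hev] with δ hδ
      rw [norm_pow, norm_norm]
      exact hest δ hδ
    exact hO.trans_isLittleO (Asymptotics.isLittleO_norm_pow_id one_lt_two)
  refine ⟨N, ρ, hρ0, by rw [hρ]; linarith, hN, ?_, ?_, ?_⟩
  · intro g hg
    obtain ⟨T, -, hT⟩ := hder g (by rwa [mem_ball_zero_iff] at hg)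
    exact hT.differentiableAt.differentiableWithinAt
  · apply HA_ext
    intro z hz
    rw [hN 0 (by rw [norm_zero]; exact hρ0) z hz, ev_zero, h0 z hz, ev_zero]
  · obtain ⟨T, hT1, hT2⟩ := hder 0 (by rw [norm_zero]; exact hρ0)
    rw [hT2.fderiv]
    refine ContinuousLinearMap.ext fun δ => ?_
    apply HA_ext
    intro z hz
    rw [hT1 δ z hz, ev_zero, h1 z hz]
    simp

end TH
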