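import Pool.Agent.H94.TH.IVP
import Pool.Agent.H94.TH.TRD

/-!
# TRA: injectivity radius of a thickening

PROOFS.
`thick_cont_slice`: continuity of `Ψ z` at interior points of the ball, from `hΨ.cont`.
`exists_good`: local statement at `z₀ ∈ C`: `e = chartAt (V n) (f z₀)`. By continuity of `Ψ` at `(z₀, 0)` within
`C ×ˢ ball 0 r` there are `ε > 0`, `ρ' ∈ (0, r]` with `Ψ z w ∈ e.source` for `z ∈ T = C ∩ closedBall z₀ ε`,
`w ∈ ball 0 ρ'`. `invp` with `H z w = e (Ψ z w)` on `T` (`hb`: `hΨ.inv`, `hΨ.zero`; differentiability: `hΨ.holy`)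
gives `ρ₁` such that for `z` in a neighbourhood of `z₀` in `C` (`𝓝[T] z₀ = 𝓝[C] z₀`) `e ∘ Ψ z` is injective on
`ball 0 ρ₁`, so `Ψ z` too, and `fderiv (e ∘ Ψ z) w` is bijective; for another chart `e'` at `Ψ z w`:
`fderiv_chart_change` and `tr_bij`. Then compactness of `C` (`IsCompact.elim_nhdsWithin_subcover` or
`IsCompact.induction_on`): take the minimum of finitely many `ρ₁`. (`C = ∅` trivial.) -/

set_option autoImplicit false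

namespace TH

open Complex Metric Set Filter Topology Manifold ContDiff
open KB (V)

variable {n : ℕ} {X : Type} [MetricSpace X] [ChartedSpace (V n) X]

/-- `Ψ z` is injective on `ball 0 ρ`, with invertible derivatives, for `z ∈ C`. -/
def Good (C : Set ℂ) (ρ : ℝ) (Ψ : ℂ → V n → X) : Prop :=
  ∀ z ∈ C, InjOn (Ψ z) (ball 0 ρ) ∧ ∀ w ∈ ball (0 : V n) ρ, ∀ e ∈ atlas (V n) X,
    Ψ z w ∈ e.source → Function.Bijective (fderiv ℂ (fun w' => e (Ψ z w')) w)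

theorem thick_cont_slice {C : Set ℂ} {f : ℂ → X} {r : ℝ} {Ψ : ℂ → V n → X}
    (hΨ : ThickOn C f r Ψ) {z : ℂ} (hz : z ∈ C) {w : V n} (hw : w ∈ ball (0 : V n) r) :
    ContinuousAt (Ψ z) w := by
  have h1 : ContinuousOn (fun w : V n => (z, w)) (ball 0 r) := by fun_prop
  have h2 : ContinuousOn (Ψ z) (ball 0 r) := hΨ.cont.comp h1 fun w hw => ⟨hz, hw⟩
  exact h2.continuousAt (isOpen_ball.mem_nhds hw)

private theorem TRA_loc [IsManifold 𝓘(ℂ, V n) ω X] {C : Set ℂ} (hC : IsCompact C) {f : ℂ → X}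
    {r : ℝ} {Ψ : ℂ → V n → X} (hΨ : ThickOn C f r Ψ) {z₀ : ℂ} (hz₀ : z₀ ∈ C) :
    ∃ t ∈ 𝓝[C] z₀, ∃ ρ > 0, ρ ≤ r ∧ Good t ρ Ψ := by
  obtain ⟨e, he, hxe⟩ : ∃ e ∈ atlas (V n) X, f z₀ ∈ e.source :=
    ⟨chartAt (V n) (f z₀), chart_mem_atlas _ _, mem_chart_source _ _⟩
  have h1 : ContinuousWithinAt (fun q : ℂ × V n => Ψ q.1 q.2) (C ×ˢ ball 0 r) (z₀, 0) :=
    hΨ.cont _ ⟨hz₀, mem_ball_self hΨ.pos⟩
  have h2 : (fun q : ℂ × V n => Ψ q.1 q.2) ⁻¹' e.source ∈ 𝓝[C ×ˢ ball (0 : V n) r] (z₀, 0) := by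
    refine h1 (e.open_source.mem_nhds ?_)
    show Ψ z₀ 0 ∈ e.source
    rw [hΨ.zero z₀ hz₀]
    exact hxe
  rw [nhdsWithin_prod_eq, mem_prod_iff] at h2
  obtain ⟨t₁, ht₁, t₂, ht₂, h3⟩ := h2
  obtain ⟨ε, hε, h4⟩ := Metric.mem_nhdsWithin_iff.1 ht₁
  obtain ⟨δ, hδ, h5⟩ := Metric.mem_nhdsWithin_iff.1 ht₂
  obtain ⟨ρ', hρ'⟩ : ∃ ρ', ρ' = min δ r := ⟨_, rfl⟩
  have hρ'0 : 0 < ρ' := by rw [hρ']; exact lt_min hδ hΨ.pos
  have hρ'r : ρ' ≤ r := by rw [hρ']; exact min_le_right _ _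
  have hρ'δ : ρ' ≤ δ := by rw [hρ']; exact min_le_left _ _
  obtain ⟨T, hT⟩ : ∃ T, T = C ∩ closedBall z₀ (ε / 2) := ⟨_, rfl⟩
  have hTc : IsCompact T := by rw [hT]; exact hC.inter_right isClosed_closedBall
  have hTC : T ⊆ C := by rw [hT]; exact inter_subset_left
  have hz₀T : z₀ ∈ T := by rw [hT]; exact ⟨hz₀, mem_closedBall_self (by positivity)⟩
  have hsrc : ∀ z ∈ T, ∀ w ∈ ball (0 : V n) ρ', Ψ z w ∈ e.source := by
    intro z hz w hw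
    rw [hT] at hz
    have e1 : z ∈ t₁ := h4 ⟨closedBall_subset_ball (by linarith) hz.2, hz.1⟩
    have e2 : w ∈ t₂ := h5 ⟨ball_subset_ball hρ'δ hw, ball_subset_ball hρ'r hw⟩
    exact h3 (show (z, w) ∈ t₁ ×ˢ t₂ from ⟨e1, e2⟩)
  have hc : ContinuousOn (fun p : ℂ × V n => e (Ψ p.1 p.2)) (T ×ˢ ball 0 ρ') := by
    refine e.continuousOn.comp (hΨ.cont.mono (prod_mono hTC (ball_subset_ball hρ'r))) ?_
    intro p hp
    exact hsrc p.1 hp.1 p.2 hp.2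
  have hd' : ∀ z ∈ T, ∀ w ∈ ball (0 : V n) ρ', DifferentiableAt ℂ (fun w' => e (Ψ z w')) w :=
    fun z hz w hw => hΨ.holy z (hTC hz) w (ball_subset_ball hρ'r hw) e he (hsrc z hz w hw)
  obtain ⟨ρ₁, hρ₁0, hρ₁, hev, -⟩ := invp hTc hz₀T (H := fun z w => e (Ψ z w)) hρ'0 hc
    (fun z hz w hw => (hd' z hz w hw).differentiableWithinAt) (hΨ.inv z₀ hz₀ e he hxe)
  have hnh : 𝓝[T] z₀ = 𝓝[C] z₀ := by
    rw [hT]
    exact nhdsWithin_inter_of_mem'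
      (mem_nhdsWithin_of_mem_nhds (closedBall_mem_nhds z₀ (by positivity)))
  have hTm : T ∈ 𝓝[C] z₀ := by rw [← hnh]; exact self_mem_nhdsWithin
  rw [hnh] at hev
  refine ⟨T ∩ {z | InjOn (fun w => e (Ψ z w)) (ball 0 ρ₁) ∧
    ∀ w ∈ ball (0 : V n) ρ₁, Function.Bijective (fderiv ℂ (fun w => e (Ψ z w)) w)},
    inter_mem hTm hev, ρ₁, hρ₁0, hρ₁.trans hρ'r, ?_⟩
  rintro z ⟨hz, hz1, hz2⟩
  refine ⟨fun w hw w' hw' hww => hz1 hw hw' (by show e (Ψ z w) = e (Ψ z w'); rw [hww]), ?_⟩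
  intro w hw e' he' hx'
  have hw' := ball_subset_ball hρ₁ hw
  have hx := hsrc z hz w hw'
  rw [fderiv_chart_change (thick_cont_slice hΨ (hTC hz) (ball_subset_ball hρ'r hw')) he he' hx
    hx' (hd' z hz w hw')]
  exact (tr_bij he he' hx hx').comp (hz2 w hw)

private theorem TRA_mono {S : Set ℂ} {ρ ρ' : ℝ} {Ψ : ℂ → V n → X} (h : Good S ρ Ψ)
    (hρ : ρ' ≤ ρ) {S' : Set ℂ} (hS : S' ⊆ S) : Good S' ρ' Ψ := fun z hz =>
  ⟨(h z (hS hz)).1.mono (ball_subset_ball hρ),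
    fun w hw e he hx => (h z (hS hz)).2 w (ball_subset_ball hρ hw) e he hx⟩

theorem exists_good [IsManifold 𝓘(ℂ, V n) ω X] {C : Set ℂ} (hC : IsCompact C) {f : ℂ → X}
    {r : ℝ} {Ψ : ℂ → V n → X} (hΨ : ThickOn C f r Ψ) :
    ∃ ρ > 0, ρ ≤ r ∧ Good C ρ Ψ := by
  refine hC.induction_on (p := fun S => ∃ ρ > 0, ρ ≤ r ∧ Good S ρ Ψ) ?_ ?_ ?_ ?_
  · exact ⟨r, hΨ.pos, le_rfl, fun z hz => absurd hz (Set.notMem_empty z)⟩
  · rintro s t hst ⟨ρ, h0, h1, h2⟩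
    exact ⟨ρ, h0, h1, TRA_mono h2 le_rfl hst⟩
  · rintro s t ⟨ρ, h0, h1, h2⟩ ⟨ρ', h0', h1', h2'⟩
    refine ⟨min ρ ρ', lt_min h0 h0', (min_le_left _ _).trans h1, ?_⟩
    rintro z (hz | hz)
    · exact TRA_mono h2 (min_le_left _ _) Subset.rfl z hz
    · exact TRA_mono h2' (min_le_right _ _) Subset.rfl z hz
  · intro z hz
    exact TRA_loc hC hΨ hz

end TH
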