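import Pool.Agent.H94.TH.TRA

/-!
# TRB: local surjectivity of a thickening, uniformly in the parameter

PROOFS.
`local_surj`: `x₀ = Ψ z₀ w₀`, `e = chartAt (V n) x₀`. By continuity of `Ψ` at `(z₀, w₀)` there are `ε > 0`, `ρ' > 0`
with `w₀ + w ∈ ball 0 ρ` and `Ψ z (w₀ + w) ∈ e.source` for `z ∈ T = C ∩ closedBall z₀ ε`, `w ∈ ball 0 ρ'`. Apply `invp` to
`H z w = e (Ψ z (w₀ + w))` (`hb` from `hg`, `fderiv_comp_add_left` or chain rule): for `z` near `z₀` in `C` and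
`v ∈ ball (e x₀) ε'` there is `w ∈ ball 0 (min ρ₂ ρ')` with `e (Ψ z (w₀ + w)) = v`. For `x` near `x₀`, `x ∈ e.source` and
`e x ∈ ball (e x₀) ε'`, so `e (Ψ z (w₀ + w)) = e x`, both points are in `e.source`, so `Ψ z (w₀ + w) = x`.
`global_surj`: for `z₀ ∈ C`, `local_surj` at `w₀ = 0` (`Ψ z₀ 0 = f z₀ = Φ z₀ 0`) and continuity of `Φ` at `(z₀, 0)`: there are
a neighbourhood of `z₀` in `C` and `ρ' > 0` as wanted; compactness of `C`. -/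

set_option autoImplicit false

namespace TH

open Complex Metric Set Filter Topology Manifold ContDiff
open KB (V)

variable {n : ℕ} {X : Type} [MetricSpace X] [ChartedSpace (V n) X]

theorem local_surj [IsManifold 𝓘(ℂ, V n) ω X] {C : Set ℂ} (hC : IsCompact C) {f : ℂ → X}
    {r ρ : ℝ} {Ψ : ℂ → V n → X} (hΨ : ThickOn C f r Ψ) (hρ : ρ ≤ r) (hg : Good C ρ Ψ)
    {z₀ : ℂ} (hz₀ : z₀ ∈ C) {w₀ : V n} (hw₀ : w₀ ∈ ball (0 : V n) ρ) {ρ₂ : ℝ} (hρ₂ : 0 < ρ₂) :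
    ∀ᶠ p in 𝓝[C] z₀ ×ˢ 𝓝 (Ψ z₀ w₀), ∃ w ∈ ball w₀ ρ₂, Ψ p.1 w = p.2 := by
  obtain ⟨e, he, hxe⟩ : ∃ e ∈ atlas (V n) X, Ψ z₀ w₀ ∈ e.source :=
    ⟨chartAt (V n) (Ψ z₀ w₀), chart_mem_atlas _ _, mem_chart_source _ _⟩
  have hw₀r : w₀ ∈ ball (0 : V n) r := ball_subset_ball hρ hw₀
  have h1 : ContinuousWithinAt (fun q : ℂ × V n => Ψ q.1 q.2) (C ×ˢ ball 0 r) (z₀, w₀) :=
    hΨ.cont _ ⟨hz₀, hw₀r⟩
  have h2 : (fun q : ℂ × V n => Ψ q.1 q.2) ⁻¹' e.source ∈ 𝓝[C ×ˢ ball (0 : V n) r] (z₀, w₀) :=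
    h1 (e.open_source.mem_nhds hxe)
  rw [nhdsWithin_prod_eq, mem_prod_iff] at h2
  obtain ⟨t₁, ht₁, t₂, ht₂, h3⟩ := h2
  obtain ⟨ε, hε, h4⟩ := Metric.mem_nhdsWithin_iff.1 ht₁
  obtain ⟨δ, hδ, h5⟩ := Metric.mem_nhdsWithin_iff.1 ht₂
  obtain ⟨ρ', hρ'⟩ : ∃ ρ', ρ' = min δ (ρ - ‖w₀‖) := ⟨_, rfl⟩
  have hw₀n : ‖w₀‖ < ρ := mem_ball_zero_iff.1 hw₀
  have hρ'0 : 0 < ρ' := by rw [hρ']; exact lt_min hδ (by linarith)
  have hρ'ρ : ρ' ≤ ρ - ‖w₀‖ := by rw [hρ']; exact min_le_right _ _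
  have hρ'δ : ρ' ≤ δ := by rw [hρ']; exact min_le_left _ _
  have hadd : ∀ w ∈ ball (0 : V n) ρ', w₀ + w ∈ ball (0 : V n) ρ ∧ w₀ + w ∈ ball w₀ δ := by
    intro w hw
    rw [mem_ball_zero_iff] at hw
    refine ⟨mem_ball_zero_iff.2 ?_, ?_⟩
    · have := norm_add_le w₀ w
      linarith
    · rw [mem_ball, dist_eq_norm, add_sub_cancel_left]
      linarith
  obtain ⟨T, hT⟩ : ∃ T, T = C ∩ closedBall z₀ (ε / 2) := ⟨_, rfl⟩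
  have hTc : IsCompact T := by rw [hT]; exact hC.inter_right isClosed_closedBall
  have hTC : T ⊆ C := by rw [hT]; exact inter_subset_left
  have hz₀T : z₀ ∈ T := by rw [hT]; exact ⟨hz₀, mem_closedBall_self (by positivity)⟩
  have hsrc : ∀ z ∈ T, ∀ w ∈ ball (0 : V n) ρ', Ψ z (w₀ + w) ∈ e.source := by
    intro z hz w hw
    rw [hT] at hz
    have e1 : z ∈ t₁ := h4 ⟨closedBall_subset_ball (by linarith) hz.2, hz.1⟩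
    have e2 : w₀ + w ∈ t₂ := h5 ⟨(hadd w hw).2, ball_subset_ball hρ (hadd w hw).1⟩
    exact h3 (show (z, w₀ + w) ∈ t₁ ×ˢ t₂ from ⟨e1, e2⟩)
  have hmap : MapsTo (fun p : ℂ × V n => (p.1, w₀ + p.2)) (T ×ˢ ball 0 ρ') (C ×ˢ ball 0 r) :=
    fun p hp => ⟨hTC hp.1, ball_subset_ball hρ (hadd p.2 hp.2).1⟩
  have hc0 : ContinuousOn (fun p : ℂ × V n => Ψ p.1 (w₀ + p.2)) (T ×ˢ ball 0 ρ') :=
    hΨ.cont.comp (f := fun p : ℂ × V n => (p.1, w₀ + p.2)) (by fun_prop) hmap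
  have hc : ContinuousOn (fun p : ℂ × V n => e (Ψ p.1 (w₀ + p.2))) (T ×ˢ ball 0 ρ') := by
    refine e.continuousOn.comp hc0 ?_
    intro p hp
    exact hsrc p.1 hp.1 p.2 hp.2
  have hd' : ∀ z ∈ T, ∀ w ∈ ball (0 : V n) ρ',
      DifferentiableAt ℂ (fun w' => e (Ψ z (w₀ + w'))) w := by
    intro z hz w hw
    have h6 : DifferentiableAt ℂ (fun w' => e (Ψ z w')) (w₀ + w) :=
      hΨ.holy z (hTC hz) (w₀ + w) (ball_subset_ball hρ (hadd w hw).1) e he (hsrc z hz w hw)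
    exact h6.comp w ((differentiableAt_const w₀).add differentiableAt_id)
  have hb : Function.Bijective (fderiv ℂ (fun w => e (Ψ z₀ (w₀ + w))) 0) := by
    rw [fderiv_comp_add_left (f := fun w' => e (Ψ z₀ w')), add_zero]
    exact (hg z₀ hz₀).2 w₀ hw₀ e he hxe
  obtain ⟨ρ₁, hρ₁0, hρ₁, -, hsur⟩ := invp hTc hz₀T (H := fun z w => e (Ψ z (w₀ + w))) hρ'0 hc
    (fun z hz w hw => (hd' z hz w hw).differentiableWithinAt) hb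
  obtain ⟨ε', hε', hev⟩ := hsur (min ρ₂ ρ') (lt_min hρ₂ hρ'0)
  simp only [add_zero] at hev
  have hnh : 𝓝[T] z₀ = 𝓝[C] z₀ := by
    rw [hT]
    exact nhdsWithin_inter_of_mem'
      (mem_nhdsWithin_of_mem_nhds (closedBall_mem_nhds z₀ (by positivity)))
  have hTm : ∀ᶠ z in 𝓝[C] z₀, z ∈ T := by rw [← hnh]; exact self_mem_nhdsWithin
  rw [hnh] at hev
  have hx : ∀ᶠ x in 𝓝 (Ψ z₀ w₀), x ∈ e.source ∧ e x ∈ ball (e (Ψ z₀ w₀)) ε' := by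
    have h6 : ∀ᶠ x in 𝓝 (Ψ z₀ w₀), x ∈ e.source := e.open_source.mem_nhds hxe
    have h7 : ∀ᶠ x in 𝓝 (Ψ z₀ w₀), e x ∈ ball (e (Ψ z₀ w₀)) ε' :=
      (e.continuousAt hxe) (ball_mem_nhds _ hε')
    exact h6.and h7
  filter_upwards [(hev.and hTm).prod_mk hx]
  rintro ⟨z, x⟩ ⟨⟨h7, h8⟩, h9, h10⟩
  obtain ⟨w, hw, hwe⟩ := h7 (e x) h10
  have hw' : w ∈ ball (0 : V n) ρ' := ball_subset_ball (min_le_right _ _) hw
  refine ⟨w₀ + w, ?_, ?_⟩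
  · rw [mem_ball, dist_eq_norm, add_sub_cancel_left, ← mem_ball_zero_iff]
    exact ball_subset_ball (min_le_left _ _) hw
  · exact e.injOn (hsrc z h8 w hw') h9 hwe

theorem global_surj [IsManifold 𝓘(ℂ, V n) ω X] {C : Set ℂ} (hC : IsCompact C) {f : ℂ → X}
    {r r' ρ : ℝ} {Φ Ψ : ℂ → V n → X} (hΦ : ThickOn C f r' Φ) (hΨ : ThickOn C f r Ψ)
    (hρ0 : 0 < ρ) (hρ : ρ ≤ r) (hg : Good C ρ Ψ) :
    ∃ ρ' > 0, ρ' ≤ r' ∧ ∀ z ∈ C, ∀ y ∈ ball (0 : V n) ρ', ∃ w ∈ ball (0 : V n) ρ,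
      Ψ z w = Φ z y := by
  refine hC.induction_on (p := fun S => ∃ ρ' > 0, ρ' ≤ r' ∧ ∀ z ∈ S, ∀ y ∈ ball (0 : V n) ρ',
    ∃ w ∈ ball (0 : V n) ρ, Ψ z w = Φ z y) ?_ ?_ ?_ ?_
  · exact ⟨r', hΦ.pos, le_rfl, fun z hz => absurd hz (notMem_empty z)⟩
  · rintro S S' hSS ⟨ρ', h1, h2, h3⟩
    exact ⟨ρ', h1, h2, fun z hz => h3 z (hSS hz)⟩
  · rintro S S' ⟨ρ₁, h1, h2, h3⟩ ⟨ρ₂, h4, h5, h6⟩
    refine ⟨min ρ₁ ρ₂, lt_min h1 h4, (min_le_left _ _).trans h2, ?_⟩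
    rintro z (hz | hz) y hy
    · exact h3 z hz y (ball_subset_ball (min_le_left _ _) hy)
    · exact h6 z hz y (ball_subset_ball (min_le_right _ _) hy)
  · intro z₀ hz₀
    have h1 := local_surj hC hΨ hρ hg hz₀ (mem_ball_self hρ0) hρ0
    rw [hΨ.zero z₀ hz₀, ← hΦ.zero z₀ hz₀] at h1
    have h2 : ContinuousWithinAt (fun q : ℂ × V n => Φ q.1 q.2) (C ×ˢ ball 0 r') (z₀, 0) :=
      hΦ.cont _ ⟨hz₀, mem_ball_self hΦ.pos⟩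
    have h3 : Tendsto (fun q : ℂ × V n => (q.1, Φ q.1 q.2)) (𝓝[C ×ˢ ball (0 : V n) r'] (z₀, 0))
        (𝓝[C] z₀ ×ˢ 𝓝 (Φ z₀ 0)) := by
      refine Tendsto.prodMk ?_ h2
      rw [nhdsWithin_prod_eq]
      exact tendsto_fst
    have h4 := h3.eventually h1
    rw [nhdsWithin_prod_eq] at h4
    obtain ⟨t₁, ht₁, t₂, ht₂, h5⟩ := mem_prod_iff.1 h4
    obtain ⟨δ, hδ, h6⟩ := Metric.mem_nhdsWithin_iff.1 ht₂
    refine ⟨t₁, ht₁, min δ r', lt_min hδ hΦ.pos, min_le_right _ _, fun z hz y hy => ?_⟩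
    have h7 : y ∈ t₂ :=
      h6 ⟨ball_subset_ball (min_le_left _ _) hy, ball_subset_ball (min_le_right _ _) hy⟩
    exact h5 (show (z, y) ∈ t₁ ×ˢ t₂ from ⟨hz, h7⟩)

end TH
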