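import Pool.Agent.H94.TH.TRB

/-!
# TRC: regularity of the transition map `γ` between two thickenings

`γ z y ∈ ball 0 ρ` with `Ψ z (γ z y) = Φ z y`, unique by `Good`.

PROOFS.
`tr_cont`: at `(z₀, y₀)`, `w₀ = γ z₀ y₀`. Let `ρ₂ > 0` with `ball w₀ ρ₂ ⊆ ball 0 ρ`. By `local_surj` and the continuity of
`Φ` at `(z₀, y₀)` within `C ×ˢ ball 0 ρ'`, for `(z, y)` near `(z₀, y₀)` there is `w ∈ ball w₀ ρ₂` with `Ψ z w = Φ z y`, so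
`γ z y = w` by injectivity, `‖γ z y - w₀‖ < ρ₂`.
`tr_bijective`: `e (Ψ z₀ (γ z₀ y)) = e (Φ z₀ y)` near `y = 0`, `γ z₀ 0 = 0`; chain rule and `hΦ.inv`, `hΨ.inv`. -/

set_option autoImplicit false

namespace TH

open Complex Metric Set Filter Topology Manifold ContDiff
open KB (V)

variable {n : ℕ} {X : Type} [MetricSpace X] [ChartedSpace (V n) X]

theorem tr_cont [IsManifold 𝓘(ℂ, V n) ω X] {C : Set ℂ} (hC : IsCompact C) {f : ℂ → X}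
    {r r' ρ ρ' : ℝ} {Φ Ψ : ℂ → V n → X} (hΦ : ThickOn C f r' Φ) (hΨ : ThickOn C f r Ψ)
    (hρ : ρ ≤ r) (hg : Good C ρ Ψ) (hρ' : ρ' ≤ r') {γ : ℂ → V n → V n}
    (hγ : ∀ z ∈ C, ∀ y ∈ ball (0 : V n) ρ', γ z y ∈ ball (0 : V n) ρ ∧ Ψ z (γ z y) = Φ z y) :
    ContinuousOn (fun p : ℂ × V n => γ p.1 p.2) (C ×ˢ ball 0 ρ') := by
  rintro ⟨z₀, y₀⟩ ⟨hz₀, hy₀⟩
  rw [ContinuousWithinAt, Metric.tendsto_nhds]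
  intro ε hε
  obtain ⟨hw₀, hw₀'⟩ := hγ z₀ hz₀ y₀ hy₀
  obtain ⟨ρ₂, hρ₂⟩ : ∃ ρ₂, ρ₂ = min ε (ρ - ‖γ z₀ y₀‖) := ⟨_, rfl⟩
  have hw₀n : ‖γ z₀ y₀‖ < ρ := by simpa using hw₀
  have h0 : 0 < ρ₂ := by rw [hρ₂]; exact lt_min hε (by linarith)
  have hle1 : ρ₂ ≤ ε := by rw [hρ₂]; exact min_le_left _ _
  have hle2 : ρ₂ ≤ ρ - ‖γ z₀ y₀‖ := by rw [hρ₂]; exact min_le_right _ _
  have h1 := local_surj hC hΨ hρ hg hz₀ hw₀ h0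
  have h2 : Tendsto (fun p : ℂ × V n => (p.1, Φ p.1 p.2)) (𝓝[C ×ˢ ball 0 ρ'] (z₀, y₀))
      (𝓝[C] z₀ ×ˢ 𝓝 (Ψ z₀ (γ z₀ y₀))) := by
    refine Tendsto.prodMk ?_ ?_
    · rw [nhdsWithin_prod_eq]
      exact tendsto_fst
    · rw [hw₀']
      exact (hΦ.cont.mono (prod_mono Subset.rfl (ball_subset_ball hρ'))) (z₀, y₀) ⟨hz₀, hy₀⟩
  filter_upwards [h2.eventually h1, self_mem_nhdsWithin] with p hp hpm
  obtain ⟨w, hw, hw2⟩ := hp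
  obtain ⟨k1, k2⟩ := hγ p.1 hpm.1 p.2 hpm.2
  have hwρ : w ∈ ball (0 : V n) ρ := by
    rw [mem_ball_zero_iff]
    have h3 : ‖w - γ z₀ y₀‖ < ρ₂ := by rwa [mem_ball, dist_eq_norm] at hw
    have h4 : ‖w‖ ≤ ‖w - γ z₀ y₀‖ + ‖γ z₀ y₀‖ := by
      have := norm_add_le (w - γ z₀ y₀) (γ z₀ y₀)
      simpa using this
    linarith
  have h5 : γ p.1 p.2 = w := (hg p.1 hpm.1).1 k1 hwρ (by rw [k2]; exact hw2.symm)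
  show dist (γ p.1 p.2) (γ z₀ y₀) < ε
  rw [h5]
  exact lt_of_lt_of_le hw hle1

theorem tr_bijective {C : Set ℂ} {f : ℂ → X}
    {r r' ρ' : ℝ} {Φ Ψ : ℂ → V n → X} (hΦ : ThickOn C f r' Φ) (hΨ : ThickOn C f r Ψ)
    (hρ0 : 0 < ρ') {γ : ℂ → V n → V n}
    (hγ : ∀ z ∈ C, ∀ y ∈ ball (0 : V n) ρ', Ψ z (γ z y) = Φ z y)
    {z₀ : ℂ} (hz₀ : z₀ ∈ C) (h0 : γ z₀ 0 = 0) (hd : DifferentiableAt ℂ (γ z₀) 0) :
    Function.Bijective (fderiv ℂ (γ z₀) 0) := by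
  obtain ⟨e, he, hxe⟩ : ∃ e ∈ atlas (V n) X, f z₀ ∈ e.source :=
    ⟨chartAt (V n) (f z₀), chart_mem_atlas _ _, mem_chart_source _ _⟩
  have h1 := hΦ.inv z₀ hz₀ e he hxe
  have h2 := hΨ.inv z₀ hz₀ e he hxe
  have h3 : (fun y => e (Φ z₀ y)) =ᶠ[𝓝 0] fun y => e (Ψ z₀ (γ z₀ y)) := by
    filter_upwards [ball_mem_nhds (0 : V n) hρ0] with y hy
    rw [hγ z₀ hz₀ y hy]
  have h4 : DifferentiableAt ℂ (fun y' => e (Ψ z₀ y')) (γ z₀ 0) := by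
    rw [h0]
    refine hΨ.holy z₀ hz₀ 0 (mem_ball_self hΨ.pos) e he ?_
    rw [hΨ.zero z₀ hz₀]
    exact hxe
  have h5 : fderiv ℂ (fun y => e (Ψ z₀ (γ z₀ y))) 0 =
      (fderiv ℂ (fun y' => e (Ψ z₀ y')) (γ z₀ 0)).comp (fderiv ℂ (γ z₀) 0) :=
    fderiv_comp (g := fun y' => e (Ψ z₀ y')) (0 : V n) h4 hd
  rw [h3.fderiv_eq, h5, h0] at h1
  exact (Function.Bijective.of_comp_iff' h2 _).1 h1

end TH
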